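import Pool.Agent.H71.Attach

/-!
# The presentation complex of `⟨x, y | x² = y³, x y x = y x y⟩`

It is contractible, but it has an immersed compact connected complex with Euler characteristic one
and infinite fundamental group.
-/

set_option autoImplicit false

namespace Pool.Agent.H71

namespace TwoComplex

/-- The edges `x`, `x⁻¹`, `y`, `y⁻¹` are `(false, true)`, `(false, false)`, `(true, true)` and
`(true, false)`. -/
def akSide : Fin 5 ⊕ Fin 6 → Bool × Bool
  | Sum.inl k => ![(false, true), (false, true), (true, false), (true, false), (true, false)] k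
  | Sum.inr k => ![(false, true), (true, true), (false, true), (true, false), (false, false),
      (true, false)] k

/-- The successor of a corner. -/
def akNext : Equiv.Perm (Fin 5 ⊕ Fin 6) := Equiv.sumCongr (finRotate 5) (finRotate 6)

/-- The presentation complex of `⟨x, y | x x y⁻¹ y⁻¹ y⁻¹, x y x y⁻¹ x⁻¹ y⁻¹⟩`. -/
@[reducible] def AK : TwoComplex where
  V := Unit
  E := Bool × Bool
  C := Fin 5 ⊕ Fin 6
  src _ := ()
  inv a := (a.1, !a.2)
  inv_inv := by decide
  inv_ne := by decide
  next := akNext
  side := akSide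
  closed _ := rfl
  polygon c := ⟨orderOf akNext, orderOf_pos akNext, by rw [pow_orderOf_eq_one]; rfl⟩

theorem ak_isPath (u w : AK.V) (l : List AK.E) : AK.IsPath u w l := by
  induction l generalizing u with
  | nil => rfl
  | cons a l ih => exact ⟨rfl, ih _⟩

theorem ak_compact : AK.Compact :=
  ⟨inferInstanceAs (Finite Unit), inferInstanceAs (Finite (Bool × Bool)),
    inferInstanceAs (Finite (Fin 5 ⊕ Fin 6))⟩

theorem ak_connected : AK.Connected := ⟨⟨()⟩, fun u w => ⟨[], ak_isPath u w []⟩⟩

/-- Equality in the fundamental group. -/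
def AKR (l l' : List (Bool × Bool)) : Prop := AK.Homotopic () () l l'

theorem AKR.refl (l : List (Bool × Bool)) : AKR l l :=
  Homotopic.refl (X := AK) (u := ()) (w := ()) l (ak_isPath _ _ _)

theorem AKR.symm {l l' : List (Bool × Bool)} (h : AKR l l') : AKR l' l := Homotopic.symm _ _ h

theorem AKR.trans {l l' l'' : List (Bool × Bool)} (h : AKR l l') (h' : AKR l' l'') : AKR l l'' :=
  Homotopic.trans _ _ _ h h'

theorem AKR.context {l l' : List (Bool × Bool)} (h : AKR l l') (l₁ l₂ : List (Bool × Bool)) :
    AKR (l₁ ++ (l ++ l₂)) (l₁ ++ (l' ++ l₂)) :=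
  Homotopic.context h (ak_isPath _ _ _) (ak_isPath _ _ _)

theorem AKR.append {l l' m m' : List (Bool × Bool)} (h : AKR l l') (h' : AKR m m') :
    AKR (l ++ m) (l' ++ m') := by
  have h1 := h.context [] m
  have h2 := h'.context l' []
  simp only [List.nil_append, List.append_nil] at h1 h2
  exact h1.trans h2

/-- The setoid of `AKR`. -/
def akSetoid : Setoid (List (Bool × Bool)) := ⟨AKR, AKR.refl, AKR.symm, AKR.trans⟩

/-- The fundamental group of the complex. -/
def AKG : Type := Quotient akSetoid

/-- The inverse path. -/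
def invPath (l : List (Bool × Bool)) : List (Bool × Bool) := (l.map fun a => (a.1, !a.2)).reverse

theorem AKR.edge (a : Bool × Bool) : AKR [a, (a.1, !a.2)] [] :=
  Homotopic.edge (X := AK) (u := ()) (w := ()) [] [] a (ak_isPath _ _ _)

theorem AKR.edge' (a : Bool × Bool) : AKR [(a.1, !a.2), a] [] := by
  have := AKR.edge (a.1, !a.2)
  simpa using this

theorem invPath_append (l : List (Bool × Bool)) : AKR (l ++ invPath l) [] := by
  induction l with
  | nil => exact AKR.refl _
  | cons a l ih =>
    have h1 := ih.context [a] [(a.1, !a.2)]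
    have h2 : AKR ([a] ++ ([] ++ [(a.1, !a.2)])) [] := AKR.edge a
    have h3 := h1.trans h2
    simpa [invPath, List.append_assoc] using h3

theorem invPath_invPath (l : List (Bool × Bool)) : invPath (invPath l) = l := by
  simp [invPath, List.map_reverse, Function.comp_def]

theorem invPath_append' (l : List (Bool × Bool)) : AKR (invPath l ++ l) [] := by
  have := invPath_append (invPath l)
  rwa [invPath_invPath] at this

theorem invPath_congr {l l' : List (Bool × Bool)} (h : AKR l l') :
    AKR (invPath l) (invPath l') := by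
  have h1 : AKR (invPath l ++ (l ++ invPath l')) (invPath l ++ (l' ++ invPath l')) := by
    have := h.context (invPath l) (invPath l')
    exact this
  have h2 : AKR (invPath l ++ (l ++ invPath l')) (invPath l') := by
    have := (invPath_append' l).append (AKR.refl (invPath l'))
    simpa [List.append_assoc] using this
  have h3 : AKR (invPath l ++ (l' ++ invPath l')) (invPath l) := by
    have := (AKR.refl (invPath l)).append (invPath_append l')
    simpa [List.append_assoc] using this
  exact (h3.symm.trans h1.symm).trans h2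

instance : Group AKG where
  mul := Quotient.map₂ (fun l m => l ++ m) fun _ _ h _ _ h' => AKR.append h h'
  one := Quotient.mk akSetoid []
  inv := Quotient.map invPath fun _ _ h => invPath_congr h
  mul_assoc a b c := by
    induction a using Quotient.inductionOn with | _ a =>
    induction b using Quotient.inductionOn with | _ b =>
    induction c using Quotient.inductionOn with | _ c =>
    exact congrArg (Quotient.mk akSetoid) (List.append_assoc a b c)
  one_mul a := by
    induction a using Quotient.inductionOn with | _ a =>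
    exact congrArg (Quotient.mk akSetoid) (List.nil_append a)
  mul_one a := by
    induction a using Quotient.inductionOn with | _ a =>
    exact congrArg (Quotient.mk akSetoid) (List.append_nil a)
  inv_mul_cancel a := by
    induction a using Quotient.inductionOn with | _ a =>
    exact Quotient.sound (s := akSetoid) (invPath_append' a)

/-- The class of a path. -/
def akMk (l : List (Bool × Bool)) : AKG := Quotient.mk akSetoid l

theorem akMk_append (l m : List (Bool × Bool)) : akMk (l ++ m) = akMk l * akMk m := rfl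

theorem akMk_cons (a : Bool × Bool) (l : List (Bool × Bool)) :
    akMk (a :: l) = akMk [a] * akMk l := rfl

theorem akMk_nil : akMk [] = 1 := rfl

theorem akMk_inv (g : Bool) : akMk [(g, false)] = (akMk [(g, true)])⁻¹ := rfl

theorem akMk_cell (c : AK.C) (n : ℕ) (h : (AK.next ^ n) c = c) : akMk (AK.word c n) = 1 := by
  have h1 := Homotopic.cell (X := AK) (u := ()) (w := ()) [] [] c n h (ak_isPath _ _ _)
  simp only [List.nil_append, List.append_nil] at h1
  exact Quotient.sound (s := akSetoid) (show AKR (AK.word c n) [] from h1)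

theorem ak_rel1 : akMk [(false, true)] * akMk [(false, true)] =
    akMk [(true, true)] * akMk [(true, true)] * akMk [(true, true)] := by
  have h := akMk_cell (Sum.inl 0) 5 (show (akNext ^ 5) (Sum.inl 0) = Sum.inl 0 by decide)
  have h1 : AK.word (Sum.inl 0) 5 =
      [(false, true), (false, true), (true, false), (true, false), (true, false)] := by
    change (List.range 5).map (fun i => akSide ((akNext ^ i) (Sum.inl 0))) = _
    decide
  rw [h1, akMk_cons, akMk_cons (false, true) [(true, false), (true, false), (true, false)],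
    akMk_cons (true, false) [(true, false), (true, false)],
    akMk_cons (true, false) [(true, false)], akMk_inv] at h
  rw [← mul_assoc, ← mul_assoc, ← mul_assoc] at h
  have h2 := eq_mul_of_mul_inv_eq (eq_mul_of_mul_inv_eq (eq_mul_of_mul_inv_eq h))
  rw [h2, one_mul]

theorem ak_rel2 : akMk [(false, true)] * akMk [(true, true)] * akMk [(false, true)] =
    akMk [(true, true)] * akMk [(false, true)] * akMk [(true, true)] := by
  have h := akMk_cell (Sum.inr 0) 6 (show (akNext ^ 6) (Sum.inr 0) = Sum.inr 0 by decide)
  have h1 : AK.word (Sum.inr 0) 6 =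
      [(false, true), (true, true), (false, true), (true, false), (false, false),
        (true, false)] := by
    change (List.range 6).map (fun i => akSide ((akNext ^ i) (Sum.inr 0))) = _
    decide
  rw [h1, akMk_cons, akMk_cons (true, true), akMk_cons (false, true) [(true, false), (false, false),
    (true, false)], akMk_cons (true, false) [(false, false), (true, false)],
    akMk_cons (false, false) [(true, false)], akMk_inv, akMk_inv] at h
  rw [← mul_assoc, ← mul_assoc, ← mul_assoc, ← mul_assoc] at h
  have h2 := eq_mul_of_mul_inv_eq (eq_mul_of_mul_inv_eq (eq_mul_of_mul_inv_eq h))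
  rw [h2, one_mul]

theorem trivial_of_rel {G : Type} [Group G] (x y : G) (h1 : x * x = y * y * y)
    (h2 : x * y * x = y * x * y) : x = 1 ∧ y = 1 := by
  -- conjugation by `x y` maps `x` to `y`
  have h3 : (x * y) * x * (x * y)⁻¹ = y := by
    rw [h2]; group
  have h4 : (x * y) * (x * x) * (x * y)⁻¹ = y * y := by
    calc (x * y) * (x * x) * (x * y)⁻¹ = ((x * y) * x * (x * y)⁻¹) * ((x * y) * x * (x * y)⁻¹) := by
          group
      _ = y * y := by rw [h3]
  have h5 : (x * y) * (x * x) = (x * x) * (x * y) := by
    calc (x * y) * (x * x) = x * (y * (x * x)) := by group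
      _ = x * (y * (y * y * y)) := by rw [h1]
      _ = x * ((y * y * y) * y) := by group
      _ = x * ((x * x) * y) := by rw [h1]
      _ = (x * x) * (x * y) := by group
  have h6 : x * x = y * y := by
    rw [h5] at h4
    rw [← h4]; group
  have h7 : y = 1 := by
    have : y * y * y = y * y := by rw [← h1, h6]
    simpa using this
  subst h7
  have h8 : x = 1 := by
    simp only [mul_one, one_mul] at h2
    simpa using h2
  exact ⟨h8, rfl⟩

theorem ak_trivialPiOne : AK.TrivialPiOne := by
  rintro ⟨⟩ l -
  obtain ⟨hx, hy⟩ := trivial_of_rel _ _ ak_rel1 ak_rel2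
  have key : ∀ l : List (Bool × Bool), akMk l = 1 := by
    intro l
    induction l with
    | nil => rfl
    | cons a l ih =>
      rw [akMk_cons, ih, mul_one]
      rcases a with ⟨_ | _, _ | _⟩
      · rw [akMk_inv, hx, inv_one]
      · exact hx
      · rw [akMk_inv, hy, inv_one]
      · exact hy
  exact Quotient.exact (s := akSetoid) (key l)

/-- `AK` has no 2-cycles. -/
theorem ak_cycle {A : Type} [AddCommGroup A] (z : AK.Cell → A) (h : AK.IsCycle z) : z = 0 := by
  classical
  have hc1 : ∀ k : Fin 5, AK.cell (Sum.inl k) = AK.cell (Sum.inl 0) := by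
    intro k
    refine Quotient.sound ?_
    have : ∀ k : Fin 5, ∃ n : Fin 5, (akNext ^ (n : ℕ)) (Sum.inl k) = Sum.inl 0 := by decide
    obtain ⟨n, hn⟩ := this k
    exact ⟨(n : ℕ), by rw [zpow_natCast]; exact hn⟩
  have hc2 : ∀ k : Fin 6, AK.cell (Sum.inr k) = AK.cell (Sum.inr 0) := by
    intro k
    refine Quotient.sound ?_
    have : ∀ k : Fin 6, ∃ n : Fin 6, (akNext ^ (n : ℕ)) (Sum.inr k) = Sum.inr 0 := by decide
    obtain ⟨n, hn⟩ := this k
    exact ⟨(n : ℕ), by rw [zpow_natCast]; exact hn⟩
  set α := z (AK.cell (Sum.inl 0)) with hα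
  set β := z (AK.cell (Sum.inr 0)) with hβ
  have hz1 : ∀ k : Fin 5, z (AK.cell (Sum.inl k)) = α := fun k => by rw [hc1 k]
  have hz2 : ∀ k : Fin 6, z (AK.cell (Sum.inr k)) = β := fun k => by rw [hc2 k]
  have hsum : ∀ (a : Bool × Bool) (s : Finset (Fin 5 ⊕ Fin 6)),
      (∀ c, c ∈ s ↔ akSide c = a) →
      ∑ᶠ c ∈ {c : AK.C | AK.side c = a}, z (AK.cell c) = ∑ c ∈ s, z (AK.cell c) := by
    intro a s hs
    have : {c : AK.C | AK.side c = a} = (↑s : Set (Fin 5 ⊕ Fin 6)) := by
      ext c
      exact (hs c).symm
    rw [this]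
    exact finsum_mem_coe_finset (fun c => z (AK.cell c)) s
  have hx := h (false, true)
  have hy := h (true, true)
  have e1 : AK.inv (false, true) = (false, false) := rfl
  have e2 : AK.inv (true, true) = (true, false) := rfl
  rw [e1, hsum (false, true) {Sum.inl 0, Sum.inl 1, Sum.inr 0, Sum.inr 2} (by decide),
    hsum (false, false) {Sum.inr 4} (by decide)] at hx
  rw [e2, hsum (true, true) {Sum.inr 1} (by decide),
    hsum (true, false) {Sum.inl 2, Sum.inl 3, Sum.inl 4, Sum.inr 3, Sum.inr 5} (by decide)] at hy
  rw [Finset.sum_insert (by decide), Finset.sum_insert (by decide), Finset.sum_insert (by decide),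
    Finset.sum_singleton, Finset.sum_singleton, hz1, hz1, hz2, hz2, hz2] at hx
  rw [Finset.sum_insert (by decide), Finset.sum_insert (by decide), Finset.sum_insert (by decide),
    Finset.sum_insert (by decide), Finset.sum_singleton, Finset.sum_singleton, hz1, hz1, hz1, hz2,
    hz2, hz2] at hy
  have h3 : α + α + β = 0 := by
    have : α + (α + (β + β)) - β = 0 := by rw [hx, sub_self]
    rw [← this]; abel
  have h4 : α + α + α + β = 0 := by
    have : α + (α + (α + (β + β))) - β = 0 := by rw [← hy, sub_self]
    rw [← this]; abel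
  have hα0 : α = 0 := by
    have : α = (α + α + α + β) - (α + α + β) := by abel
    rw [this, h3, h4, sub_zero]
  have hβ0 : β = 0 := by
    rw [hα0] at h3
    simpa using h3
  funext f
  induction f using Quotient.inductionOn with | _ c =>
  rcases c with k | k
  · exact (hz1 k).trans hα0
  · exact (hz2 k).trans hβ0

/-! ### The immersed complex -/

/-- The permutations of the three vertices given by `x` and `y`. -/
def act : Bool → Fin 3 → Fin 3
  | false => ![1, 0, 2]
  | true => ![1, 2, 0]

/-- The corners of the complex `Y3`: the three lifts of the first relator, starting at the three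
vertices, and the lift of the second relator which starts at the vertex `1`. An oriented edge is
`((i, g), s)`, where `i` is the first vertex if `s` is `true`, and the last vertex otherwise. -/
def ySide : (Fin 3 × Fin 5) ⊕ Fin 6 → (Fin 3 × Bool) × Bool
  | Sum.inl (i, k) =>
    ![![((0, false), true), ((1, false), true), ((2, true), false), ((1, true), false),
        ((0, true), false)],
      ![((1, false), true), ((0, false), true), ((0, true), false), ((2, true), false),
        ((1, true), false)],
      ![((2, false), true), ((2, false), true), ((1, true), false), ((0, true), false),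
        ((2, true), false)]] i k
  | Sum.inr k =>
    ![((1, false), true), ((0, true), true), ((1, false), true), ((2, true), false),
      ((2, false), false), ((1, true), false)] k

/-- The successor of a corner. -/
def yNext : Equiv.Perm ((Fin 3 × Fin 5) ⊕ Fin 6) :=
  Equiv.sumCongr (Equiv.prodCongr (Equiv.refl _) (finRotate 5)) (finRotate 6)

/-- A complex with 3 vertices, 6 geometric edges and 4 two-cells. -/
@[reducible] def Y3 : TwoComplex where
  V := Fin 3
  E := (Fin 3 × Bool) × Bool
  C := (Fin 3 × Fin 5) ⊕ Fin 6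
  src a := if a.2 then a.1.1 else act a.1.2 a.1.1
  inv a := (a.1, !a.2)
  inv_inv := by decide
  inv_ne := by decide
  next := yNext
  side := ySide
  closed := by decide
  polygon c := ⟨orderOf yNext, orderOf_pos yNext, by rw [pow_orderOf_eq_one]; rfl⟩

theorem y3_compact : Y3.Compact :=
  ⟨inferInstanceAs (Finite (Fin 3)), inferInstanceAs (Finite ((Fin 3 × Bool) × Bool)),
    inferInstanceAs (Finite ((Fin 3 × Fin 5) ⊕ Fin 6))⟩

theorem y3_connected : Y3.Connected := by
  refine ⟨⟨(0 : Fin 3)⟩, ?_⟩
  have h0 : ∀ u : Fin 3, Y3.IsPath u u [] := fun u => rfl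
  have h01 : Y3.IsPath (0 : Fin 3) (1 : Fin 3) [((0, true), true)] := ⟨rfl, rfl⟩
  have h12 : Y3.IsPath (1 : Fin 3) (2 : Fin 3) [((1, true), true)] := ⟨rfl, rfl⟩
  have h20 : Y3.IsPath (2 : Fin 3) (0 : Fin 3) [((2, true), true)] := ⟨rfl, rfl⟩
  intro u w
  change Fin 3 at u
  change Fin 3 at w
  fin_cases u <;> fin_cases w
  · exact ⟨_, h0 _⟩
  · exact ⟨_, h01⟩
  · exact ⟨_, h01.append h12⟩
  · exact ⟨_, h12.append h20⟩
  · exact ⟨_, h0 _⟩
  · exact ⟨_, h12⟩
  · exact ⟨_, h20⟩
  · exact ⟨_, h20.append h01⟩
  · exact ⟨_, h0 _⟩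

/-- The 2-cells of `Y3`. -/
def y3Cell : Y3.Cell ≃ Fin 4 where
  toFun := Quotient.lift (fun c : (Fin 3 × Fin 5) ⊕ Fin 6 =>
    (Sum.elim (fun p : Fin 3 × Fin 5 => Fin.castSucc p.1) (fun _ => Fin.last 3) c : Fin 4)) (by
      rintro a b ⟨n, hn⟩
      have key : ∀ c : (Fin 3 × Fin 5) ⊕ Fin 6, (Sum.elim (fun p : Fin 3 × Fin 5 => Fin.castSucc p.1)
          (fun _ => Fin.last 3) (yNext c) : Fin 4) =
          Sum.elim (fun p : Fin 3 × Fin 5 => Fin.castSucc p.1) (fun _ => Fin.last 3) c := by decide
      have key2 : ∀ (n : ℕ) (c : (Fin 3 × Fin 5) ⊕ Fin 6),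
          (Sum.elim (fun p : Fin 3 × Fin 5 => Fin.castSucc p.1)
          (fun _ => Fin.last 3) ((yNext ^ n) c) : Fin 4) =
          Sum.elim (fun p : Fin 3 × Fin 5 => Fin.castSucc p.1) (fun _ => Fin.last 3) c := by
        intro n
        induction n with
        | zero => intro c; rfl
        | succ n ih => intro c; rw [pow_succ', Equiv.Perm.mul_apply, key, ih]
      obtain ⟨m, hm⟩ : ∃ m : ℕ, (yNext ^ m) a = b := by
        obtain ⟨m, -, hm⟩ := (show yNext.SameCycle a b from ⟨n, hn⟩).exists_pow_eq'
        exact ⟨m, hm⟩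
      exact ((congrArg _ hm.symm).trans (key2 m a)).symm)
  invFun i := Y3.cell (![Sum.inl (0, 0), Sum.inl (1, 0), Sum.inl (2, 0), Sum.inr 0] i)
  left_inv f := by
    induction f using Quotient.inductionOn with | _ c =>
    have key : ∀ c : (Fin 3 × Fin 5) ⊕ Fin 6, ∃ n : Fin 6, (yNext ^ (n : ℕ))
        ((![Sum.inl (0, 0), Sum.inl (1, 0), Sum.inl (2, 0), Sum.inr 0] :
          Fin 4 → (Fin 3 × Fin 5) ⊕ Fin 6)
        (Sum.elim (fun p : Fin 3 × Fin 5 => Fin.castSucc p.1) (fun _ => Fin.last 3) c)) = c := by
      decide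
    obtain ⟨n, hn⟩ := key c
    exact Quotient.sound ⟨(n : ℕ), by rw [zpow_natCast]; exact hn⟩
  right_inv i := by
    fin_cases i <;> rfl

theorem y3_chi : Y3.chi = 1 := by
  have h1 : Nat.card Y3.V = 3 := by
    change Nat.card (Fin 3) = 3
    simp
  have h2 : Nat.card Y3.E = 12 := by
    change Nat.card ((Fin 3 × Bool) × Bool) = 12
    simp
  have h3 : Nat.card Y3.Cell = 4 := by
    rw [Nat.card_congr y3Cell]; simp
  rw [chi, h1, h2, h3]
  norm_num

/-- A 1-cocycle of `Y3`. -/
def coc : (Fin 3 × Bool) × Bool → ℤ
  | ((i, false), true) => ![7, 5, 6] i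
  | ((i, false), false) => -(![7, 5, 6] i)
  | ((_, true), true) => 4
  | ((_, true), false) => -4

/-- The sums of the cocycle along the boundaries of the cells. -/
def pot : (Fin 3 × Fin 5) ⊕ Fin 6 → ℤ
  | Sum.inl (i, k) => ![![0, 7, 12, 8, 4], ![0, 5, 12, 8, 4], ![0, 6, 12, 8, 4]] i k
  | Sum.inr k => ![0, 5, 9, 14, 10, 4] k

theorem coc_homotopic {u w : Y3.V} {l l' : List Y3.E}
    (h : Y3.Homotopic u w l l') : (l.map coc).sum = (l'.map coc).sum := by
  induction h with
  | refl l h => rfl
  | symm l l' _ ih => exact ih.symm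
  | trans l l' l'' _ _ ih1 ih2 => exact ih1.trans ih2
  | edge l₁ l₂ a h =>
    have : ∀ a : (Fin 3 × Bool) × Bool, coc a + coc (a.1, !a.2) = 0 := by decide
    have h1 := this a
    have h2 : Y3.inv a = (a.1, !a.2) := rfl
    rw [h2]
    simp only [List.map_append, List.map_cons, List.sum_append, List.sum_cons]
    linarith
  | cell l₁ l₂ c n hn h =>
    have key : ∀ (n : ℕ) (c : (Fin 3 × Fin 5) ⊕ Fin 6),
        ((Y3.word c n).map coc).sum = pot ((yNext ^ n) c) - pot c := by
      intro n c
      induction n with
      | zero => simp [word]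
      | succ n ih =>
        have h1 : Y3.word c (n + 1) = Y3.word c n ++ [ySide ((yNext ^ n) c)] := by
          simp only [word, List.range_succ, List.map_append, List.map_cons, List.map_nil]
        have h2 : ∀ c : (Fin 3 × Fin 5) ⊕ Fin 6, coc (ySide c) = pot (yNext c) - pot c := by
          decide
        rw [h1, List.map_append, List.sum_append, ih, List.map_cons, List.map_nil,
          List.sum_singleton, h2, pow_succ', Equiv.Perm.mul_apply]
        ring
    have h1 := key n c
    have h2 : (yNext ^ n) c = c := hn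
    rw [h2, sub_self] at h1
    simp only [List.map_append, List.sum_append]
    rw [h1, zero_add]

theorem y3_pi1 : ¬ Y3.TrivialPiOne := by
  intro h
  have h1 : Y3.IsPath (2 : Fin 3) (2 : Fin 3) [((2, false), true)] := ⟨rfl, rfl⟩
  have h2 := coc_homotopic (h _ _ h1)
  revert h2
  decide

/-- The immersion of `Y3` in a complex with a copy of `AK`. -/
def y3Map (Z : TwoComplex) (z₀ : Z.V) : Map Y3 (attach Z AK fun _ : Unit => z₀) where
  v _ := z₀
  e a := Sum.inr ((), (a.1.2, a.2))
  c x := Sum.inr ((), Sum.map Prod.snd id x)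
  pos _ := True
  src_e _ := rfl
  inv_e _ := rfl
  pos_next _ := Iff.rfl
  of_pos := by
    intro x _
    have h1 : ∀ x : (Fin 3 × Fin 5) ⊕ Fin 6,
        (Sum.map Prod.snd id (yNext x) : Fin 5 ⊕ Fin 6) = akNext (Sum.map Prod.snd id x) := by
      decide
    have h2 : ∀ x : (Fin 3 × Fin 5) ⊕ Fin 6,
        ((ySide x).1.2, (ySide x).2) = akSide (Sum.map Prod.snd id x) := by
      decide
    exact ⟨congrArg (fun t => Sum.inr ((), t)) (h1 x), congrArg (fun t => Sum.inr ((), t)) (h2 x)⟩
  of_neg := fun _ h => absurd trivial h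
  inj_cell := by
    intro x y h h'
    obtain ⟨m, -, hm⟩ := (show yNext.SameCycle x y from h).exists_pow_eq'
    have key : ∀ (x : (Fin 3 × Fin 5) ⊕ Fin 6), Sum.map Prod.fst (fun _ => ()) (yNext x) =
        Sum.map Prod.fst (fun _ => ()) x := by decide
    have key2 : ∀ (m : ℕ) (x : (Fin 3 × Fin 5) ⊕ Fin 6),
        Sum.map Prod.fst (fun _ => ()) ((yNext ^ m) x) =
        Sum.map Prod.fst (fun _ => ()) x := by
      intro m
      induction m with
      | zero => intro x; rfl
      | succ m ih => intro x; rw [pow_succ', Equiv.Perm.mul_apply, key, ih]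
    have h1 := key2 m x
    change (yNext ^ m) x = y at hm
    rw [hm] at h1
    have h2 : (Sum.map Prod.snd id x : Fin 5 ⊕ Fin 6) = Sum.map Prod.snd id y :=
      congrArg Prod.snd (Sum.inr_injective h')
    have key3 : ∀ x y : (Fin 3 × Fin 5) ⊕ Fin 6,
        (Sum.map Prod.fst (fun _ => ()) y : Fin 3 ⊕ Unit) = Sum.map Prod.fst (fun _ => ()) x →
        (Sum.map Prod.snd id x : Fin 5 ⊕ Fin 6) = Sum.map Prod.snd id y → x = y := by decide
    exact key3 x y h1 h2

theorem y3Map_isImmersion (Z : TwoComplex) (z₀ : Z.V) : (y3Map Z z₀).IsImmersion := by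
  constructor
  · intro a b h h'
    have h2 : (a.1.2, a.2) = (b.1.2, b.2) := congrArg Prod.snd (Sum.inr_injective h')
    have key : ∀ a b : (Fin 3 × Bool) × Bool,
        (if a.2 then a.1.1 else act a.1.2 a.1.1) = (if b.2 then b.1.1 else act b.1.2 b.1.1) →
        (a.1.2, a.2) = (b.1.2, b.2) → a = b := by decide
    exact key a b h h2
  · intro x y h h'
    have h2 : (Sum.map Prod.snd id x : Fin 5 ⊕ Fin 6) = Sum.map Prod.snd id y :=
      congrArg Prod.snd (Sum.inr_injective h')
    have key : ∀ x y : (Fin 3 × Fin 5) ⊕ Fin 6,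
        (if (ySide x).2 then (ySide x).1.1 else act (ySide x).1.2 (ySide x).1.1) =
          (if (ySide y).2 then (ySide y).1.1 else act (ySide y).1.2 (ySide y).1.1) →
        (Sum.map Prod.snd id x : Fin 5 ⊕ Fin 6) = Sum.map Prod.snd id y → x = y := by decide
    exact key x y h h2

/-- A complex with a copy of `AK` attached does not have non-positive immersions. -/
theorem attach_not_npi (Z : TwoComplex) (z₀ : Z.V) :
    ¬ (attach Z AK fun _ : Unit => z₀).NonPositiveImmersions := by
  intro h
  rcases h Y3 (y3Map Z z₀) y3_compact y3_connected (y3Map_isImmersion Z z₀) with h1 | h1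
  · rw [y3_chi] at h1
    exact absurd h1 (by norm_num)
  · exact y3_pi1 h1

end TwoComplex

end Pool.Agent.H71
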