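import Pool.Agent.H71.TwoComplex

/-!
# Attaching simply connected complexes with one vertex
-/

set_option autoImplicit false

namespace Pool.Agent.H71

namespace TwoComplex

/-- For every `i` in `I` a copy of `P` is attached to `Z` at the vertex `ι i`. Here `P` is meant to be
a complex with only one vertex, which is identified with `ι i`. -/
@[reducible] def attach (Z P : TwoComplex) {I : Type} (ι : I → Z.V) : TwoComplex where
  V := Z.V
  E := Z.E ⊕ (I × P.E)
  C := Z.C ⊕ (I × P.C)
  src := Sum.elim Z.src fun a => ι a.1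
  inv := Sum.map Z.inv fun a => (a.1, P.inv a.2)
  inv_inv := by rintro (a | ⟨i, a⟩) <;> simp [Z.inv_inv, P.inv_inv]
  inv_ne := by
    rintro (a | ⟨i, a⟩)
    · simpa using Z.inv_ne a
    · simpa using P.inv_ne a
  next := Equiv.sumCongr Z.next (Equiv.prodCongr (Equiv.refl I) P.next)
  side := Sum.map Z.side fun c => (c.1, P.side c.2)
  closed := by
    rintro (c | ⟨i, c⟩)
    · simpa using Z.closed c
    · simp
  polygon := by
    have h1 : ∀ (n : ℕ) (c : Z.C), (Equiv.sumCongr Z.next
        (Equiv.prodCongr (Equiv.refl I) P.next) ^ n) (Sum.inl c) = Sum.inl ((Z.next ^ n) c) := by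
      intro n
      induction n with
      | zero => intro c; simp
      | succ n ih => intro c; rw [pow_succ', pow_succ', Equiv.Perm.mul_apply, ih]; rfl
    have h2 : ∀ (n : ℕ) (i : I) (c : P.C), (Equiv.sumCongr Z.next
        (Equiv.prodCongr (Equiv.refl I) P.next) ^ n) (Sum.inr (i, c)) =
          Sum.inr (i, (P.next ^ n) c) := by
      intro n
      induction n with
      | zero => intro i c; simp
      | succ n ih => intro i c; rw [pow_succ', pow_succ', Equiv.Perm.mul_apply, ih]; rfl
    rintro (c | ⟨i, c⟩)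
    · obtain ⟨n, hn, h⟩ := Z.polygon c
      exact ⟨n, hn, by rw [h1, h]⟩
    · obtain ⟨n, hn, h⟩ := P.polygon c
      exact ⟨n, hn, by rw [h2, h]⟩

section

variable (Z P : TwoComplex) {I : Type} (ι : I → Z.V)

theorem next_pow_inl (n : ℕ) (c : Z.C) :
    ((attach Z P ι).next ^ n) (Sum.inl c) = Sum.inl ((Z.next ^ n) c) := by
  induction n with
  | zero => simp
  | succ n ih => rw [pow_succ', pow_succ', Equiv.Perm.mul_apply, ih]; rfl

theorem next_pow_inr (n : ℕ) (i : I) (c : P.C) :
    ((attach Z P ι).next ^ n) (Sum.inr (i, c)) = Sum.inr (i, (P.next ^ n) c) := by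
  induction n with
  | zero => simp
  | succ n ih => rw [pow_succ', pow_succ', Equiv.Perm.mul_apply, ih]; rfl

end

/-! ### Paths -/

section paths

variable {X : TwoComplex}

theorem isPath_append {u w : X.V} {l l' : List X.E} :
    X.IsPath u w (l ++ l') ↔ ∃ v, X.IsPath u v l ∧ X.IsPath v w l' := by
  induction l generalizing u with
  | nil => simp [IsPath]
  | cons a l ih =>
    simp only [List.cons_append, IsPath, ih]
    constructor
    · rintro ⟨h, v, h1, h2⟩; exact ⟨v, ⟨h, h1⟩, h2⟩
    · rintro ⟨v, ⟨h, h1⟩, h2⟩; exact ⟨h, v, h1, h2⟩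

theorem IsPath.append {u v w : X.V} {l l' : List X.E} (h : X.IsPath u v l) (h' : X.IsPath v w l') :
    X.IsPath u w (l ++ l') := isPath_append.2 ⟨v, h, h'⟩

theorem IsPath.end_unique {u v w : X.V} {l : List X.E} (h : X.IsPath u v l)
    (h' : X.IsPath u w l) : v = w := by
  induction l generalizing u with
  | nil => simp only [IsPath] at h h'; rw [← h, ← h']
  | cons a l ih => exact ih h.2 h'.2

theorem word_isPath (c : X.C) (n : ℕ) :
    X.IsPath (X.src (X.side c)) (X.src (X.side ((X.next ^ n) c))) (X.word c n) := by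
  induction n with
  | zero => simp [word, IsPath]
  | succ n ih =>
    have : X.word c (n + 1) = X.word c n ++ [X.side ((X.next ^ n) c)] := by
      simp [word, List.range_succ]
    rw [this]
    refine ih.append ?_
    refine ⟨rfl, ?_⟩
    change X.src (X.inv (X.side ((X.next ^ n) c))) = _
    rw [X.closed, pow_succ', Equiv.Perm.mul_apply]

theorem word_closed {c : X.C} {n : ℕ} (h : (X.next ^ n) c = c) :
    X.IsPath (X.src (X.side c)) (X.src (X.side c)) (X.word c n) := by
  have := word_isPath c n
  rwa [h] at this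

theorem Homotopic.isPath {u w : X.V} {l l' : List X.E} (h : X.Homotopic u w l l') :
    X.IsPath u w l ∧ X.IsPath u w l' := by
  induction h with
  | refl l h => exact ⟨h, h⟩
  | symm l l' _ ih => exact ⟨ih.2, ih.1⟩
  | trans l l' l'' _ _ ih1 ih2 => exact ⟨ih1.1, ih2.2⟩
  | edge l₁ l₂ a h =>
    refine ⟨h, ?_⟩
    obtain ⟨v, h1, h2⟩ := isPath_append.1 h
    obtain ⟨h3, h4, h5⟩ := h2
    rw [X.inv_inv] at h5
    rw [h3] at h5
    exact h1.append h5
  | cell l₁ l₂ c n hn h =>
    refine ⟨h, ?_⟩
    obtain ⟨v, h1, h2⟩ := isPath_append.1 h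
    obtain ⟨v', h3, h4⟩ := isPath_append.1 h2
    rcases Nat.eq_zero_or_pos n with h0 | h0
    · subst h0
      simp only [word, List.range_zero, List.map_nil, IsPath] at h3
      subst h3
      exact h1.append h4
    · obtain ⟨m, rfl⟩ : ∃ m, n = m + 1 := ⟨n - 1, by omega⟩
      have h5 : X.src (X.side c) = v := by
        have h6 : X.word c (m + 1) =
            X.side c :: (List.range m).map fun i => X.side ((X.next ^ (i + 1)) c) := by
          simp [word, List.range_succ_eq_map, Function.comp_def]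
        rw [h6] at h3
        exact h3.1
      have h6 := word_closed hn
      rw [h5] at h6
      have h7 := h6.end_unique h3
      subst h7
      exact h1.append h4

theorem Homotopic.context {u v w z : X.V} {l l' : List X.E} (h : X.Homotopic v w l l')
    {l₁ l₂ : List X.E} (h1 : X.IsPath u v l₁) (h2 : X.IsPath w z l₂) :
    X.Homotopic u z (l₁ ++ (l ++ l₂)) (l₁ ++ (l' ++ l₂)) := by
  induction h with
  | refl l h => exact Homotopic.refl _ (h1.append (h.append h2))
  | symm l l' _ ih => exact Homotopic.symm _ _ ih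
  | trans l l' l'' _ _ ih1 ih2 => exact Homotopic.trans _ _ _ ih1 ih2
  | edge l₃ l₄ a h =>
    have := Homotopic.edge (X := X) (u := u) (w := z) (l₁ ++ l₃) (l₄ ++ l₂) a (by
      have := h1.append (h.append h2)
      simpa [List.append_assoc] using this)
    simpa [List.append_assoc] using this
  | cell l₃ l₄ c n hn h =>
    have := Homotopic.cell (X := X) (u := u) (w := z) (l₁ ++ l₃) (l₄ ++ l₂) c n hn (by
      have := h1.append (h.append h2)
      simpa [List.append_assoc] using this)
    simpa [List.append_assoc] using this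

end paths

/-! ### The fundamental group of `attach Z P ι` -/

section pi1

variable (Z P : TwoComplex) {I : Type} (ι : I → Z.V)

theorem isPath_inl {u w : Z.V} {l : List Z.E} (h : Z.IsPath u w l) :
    (attach Z P ι).IsPath u w (l.map Sum.inl) := by
  induction l generalizing u with
  | nil => exact h
  | cons a l ih => exact ⟨h.1, ih h.2⟩

theorem isPath_inr (i : I) (l : List P.E) :
    (attach Z P ι).IsPath (ι i) (ι i) (l.map fun a => Sum.inr (i, a)) := by
  induction l with
  | nil => rfl
  | cons a l ih => exact ⟨rfl, ih⟩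

theorem word_inl (c : Z.C) (n : ℕ) :
    (attach Z P ι).word (Sum.inl c) n = (Z.word c n).map Sum.inl := by
  simp only [word, List.map_map]
  refine List.map_congr_left fun i _ => ?_
  rw [next_pow_inl]
  rfl

theorem word_inr (i : I) (c : P.C) (n : ℕ) :
    (attach Z P ι).word (Sum.inr (i, c)) n = (P.word c n).map fun a => Sum.inr (i, a) := by
  simp only [word, List.map_map]
  refine List.map_congr_left fun j _ => ?_
  rw [next_pow_inr]
  rfl

theorem homotopic_inl {u w : Z.V} {l l' : List Z.E} (h : Z.Homotopic u w l l') :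
    (attach Z P ι).Homotopic u w (l.map Sum.inl) (l'.map Sum.inl) := by
  induction h with
  | refl l h => exact Homotopic.refl _ (isPath_inl Z P ι h)
  | symm l l' _ ih => exact Homotopic.symm _ _ ih
  | trans l l' l'' _ _ ih1 ih2 => exact Homotopic.trans _ _ _ ih1 ih2
  | edge l₁ l₂ a h =>
    have := isPath_inl Z P ι h
    simp only [List.map_append, List.map_cons] at this ⊢
    exact Homotopic.edge (X := attach Z P ι) _ _ (Sum.inl a) this
  | cell l₁ l₂ c n hn h =>
    have := isPath_inl Z P ι h
    simp only [List.map_append] at this ⊢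
    rw [← word_inl Z P ι] at this ⊢
    exact Homotopic.cell (X := attach Z P ι) _ _ (Sum.inl c) n (by rw [next_pow_inl, hn]) this

theorem homotopic_inr (i : I) {x y : P.V} {l l' : List P.E} (h : P.Homotopic x y l l') :
    (attach Z P ι).Homotopic (ι i) (ι i) (l.map fun a => Sum.inr (i, a))
      (l'.map fun a => Sum.inr (i, a)) := by
  induction h with
  | refl l h => exact Homotopic.refl _ (isPath_inr Z P ι i l)
  | symm l l' _ ih => exact Homotopic.symm _ _ ih
  | trans l l' l'' _ _ ih1 ih2 => exact Homotopic.trans _ _ _ ih1 ih2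
  | edge l₁ l₂ a h =>
    have := isPath_inr Z P ι i (l₁ ++ a :: P.inv a :: l₂)
    simp only [List.map_append, List.map_cons] at this ⊢
    exact Homotopic.edge (X := attach Z P ι) _ _ (Sum.inr (i, a)) this
  | cell l₁ l₂ c n hn h =>
    have := isPath_inr Z P ι i (l₁ ++ (P.word c n ++ l₂))
    simp only [List.map_append] at this ⊢
    rw [← word_inr Z P ι] at this ⊢
    exact Homotopic.cell (X := attach Z P ι) _ _ (Sum.inr (i, c)) n (by rw [next_pow_inr, hn]) this

/-- If `P` is simply connected with one vertex, every path is homotopic to a path in `Z`. -/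
theorem homotopic_to_inl (hP : P.TrivialPiOne) (hP1 : ∀ a b : P.V, a = b) {u w : Z.V}
    (l : List (attach Z P ι).E) (h : (attach Z P ι).IsPath u w l) :
    ∃ l' : List Z.E, Z.IsPath u w l' ∧ (attach Z P ι).Homotopic u w l (l'.map Sum.inl) := by
  induction l generalizing u with
  | nil => exact ⟨[], h, Homotopic.refl _ h⟩
  | cons a l ih =>
    obtain ⟨h1, h2⟩ := h
    obtain ⟨l', h3, h4⟩ := ih h2
    rcases a with a | ⟨i, a⟩
    · refine ⟨a :: l', ⟨h1, h3⟩, ?_⟩
      have h5 : (attach Z P ι).IsPath u (Z.src (Z.inv a)) [Sum.inl a] := ⟨h1, rfl⟩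
      have h6 := h4.context (l₁ := [Sum.inl a]) (l₂ := []) h5
        (show (attach Z P ι).IsPath w w [] from rfl)
      simpa using h6
    · have h1' : ι i = u := h1
      subst h1'
      have h5 : P.Homotopic (P.src a) (P.src a) [a] [] := hP _ _ ⟨rfl, hP1 _ _⟩
      have h6 := homotopic_inr Z P ι i h5
      have h7 : (attach Z P ι).IsPath (ι i) w l := h2
      have h8 := h6.context (l₁ := []) (l₂ := l)
        (show (attach Z P ι).IsPath (ι i) (ι i) [] from rfl) h7
      refine ⟨l', h3, ?_⟩
      refine Homotopic.trans _ _ _ ?_ h4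
      simpa using h8

theorem attach_trivialPiOne (hZ : Z.TrivialPiOne) (hP : P.TrivialPiOne)
    (hP1 : ∀ a b : P.V, a = b) : (attach Z P ι).TrivialPiOne := by
  intro u l h
  obtain ⟨l', h1, h2⟩ := homotopic_to_inl Z P ι hP hP1 l h
  exact Homotopic.trans _ _ _ h2 (homotopic_inl Z P ι (hZ u l' h1))

/-- The retraction of the paths to the paths of `Z`. -/
def retr (l : List (attach Z P ι).E) : List Z.E := l.filterMap (Sum.elim some fun _ => none)

theorem retr_append (l l' : List (attach Z P ι).E) :
    retr Z P ι (l ++ l') = retr Z P ι l ++ retr Z P ι l' := List.filterMap_append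

theorem retr_inl (l : List Z.E) : retr Z P ι (l.map Sum.inl) = l := by
  induction l with
  | nil => rfl
  | cons a l ih => exact congrArg (fun t => a :: t) ih

theorem retr_inr (i : I) (l : List P.E) : retr Z P ι (l.map fun a => Sum.inr (i, a)) = [] := by
  induction l with
  | nil => rfl
  | cons a l ih => exact ih

theorem retr_isPath {u w : Z.V} {l : List (attach Z P ι).E} (h : (attach Z P ι).IsPath u w l) :
    Z.IsPath u w (retr Z P ι l) := by
  induction l generalizing u with
  | nil => exact h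
  | cons a l ih =>
    rcases a with a | ⟨i, a⟩
    · exact ⟨h.1, ih h.2⟩
    · obtain ⟨h1, h2⟩ := h
      have h1' : ι i = u := h1
      subst h1'
      exact ih h2

theorem retr_homotopic {u w : Z.V} {l l' : List (attach Z P ι).E}
    (h : (attach Z P ι).Homotopic u w l l') :
    Z.Homotopic u w (retr Z P ι l) (retr Z P ι l') := by
  induction h with
  | refl l h => exact Homotopic.refl _ (retr_isPath Z P ι h)
  | symm l l' _ ih => exact Homotopic.symm _ _ ih
  | trans l l' l'' _ _ ih1 ih2 => exact Homotopic.trans _ _ _ ih1 ih2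
  | edge l₁ l₂ a h =>
    have h1 := retr_isPath Z P ι h
    rcases a with a | ⟨i, a⟩
    · have h2 : ∀ l : List (attach Z P ι).E,
          retr Z P ι (Sum.inl a :: (attach Z P ι).inv (Sum.inl a) :: l) =
            a :: Z.inv a :: retr Z P ι l := fun l => rfl
      rw [retr_append, h2] at h1
      rw [retr_append, retr_append, h2]
      exact Homotopic.edge _ _ _ h1
    · have h2 : ∀ l : List (attach Z P ι).E,
          retr Z P ι (Sum.inr (i, a) :: (attach Z P ι).inv (Sum.inr (i, a)) :: l) =
            retr Z P ι l := fun l => rfl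
      rw [retr_append, h2] at h1
      rw [retr_append, retr_append, h2]
      exact Homotopic.refl _ h1
  | cell l₁ l₂ c n hn h =>
    have h1 := retr_isPath Z P ι h
    rcases c with c | ⟨i, c⟩
    · rw [word_inl, retr_append, retr_append, retr_inl] at h1
      rw [word_inl, retr_append, retr_append, retr_inl, retr_append]
      refine Homotopic.cell _ _ _ n ?_ h1
      rw [next_pow_inl] at hn
      exact Sum.inl_injective hn
    · rw [word_inr, retr_append, retr_append, retr_inr] at h1
      rw [word_inr, retr_append, retr_append, retr_inr, retr_append]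
      exact Homotopic.refl _ h1

theorem homotopic_inl_iff {u w : Z.V} {l l' : List Z.E} :
    (attach Z P ι).Homotopic u w (l.map Sum.inl) (l'.map Sum.inl) ↔ Z.Homotopic u w l l' := by
  refine ⟨fun h => ?_, homotopic_inl Z P ι⟩
  have := retr_homotopic Z P ι h
  rwa [retr_inl, retr_inl] at this

theorem attach_connected (hZ : Z.Connected) : (attach Z P ι).Connected := by
  refine ⟨hZ.1, fun u w => ?_⟩
  obtain ⟨l, hl⟩ := hZ.2 u w
  exact ⟨_, isPath_inl Z P ι hl⟩

end pi1

/-! ### Cycles -/

section cycles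

variable (Z P : TwoComplex) {I : Type} (ι : I → Z.V)

theorem sameCycle_inl {c c' : Z.C} :
    (attach Z P ι).next.SameCycle (Sum.inl c) (Sum.inl c') ↔ Z.next.SameCycle c c' := by
  constructor
  · rintro ⟨n, hn⟩
    refine ⟨n, ?_⟩
    have key : ∀ (n : ℤ) (c : Z.C), ((attach Z P ι).next ^ n) (Sum.inl c) =
        Sum.inl ((Z.next ^ n) c) := by
      intro n c
      obtain ⟨m, rfl | rfl⟩ := n.eq_nat_or_neg
      · rw [zpow_natCast, zpow_natCast, next_pow_inl]
      · rw [zpow_neg, zpow_neg, Equiv.Perm.inv_eq_iff_eq, zpow_natCast, zpow_natCast, next_pow_inl,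
          ← Equiv.Perm.mul_apply, mul_inv_cancel, Equiv.Perm.one_apply]
    rw [key] at hn
    exact Sum.inl_injective hn
  · rintro ⟨n, hn⟩
    refine ⟨n, ?_⟩
    have key : ∀ (n : ℤ) (c : Z.C), ((attach Z P ι).next ^ n) (Sum.inl c) =
        Sum.inl ((Z.next ^ n) c) := by
      intro n c
      obtain ⟨m, rfl | rfl⟩ := n.eq_nat_or_neg
      · rw [zpow_natCast, zpow_natCast, next_pow_inl]
      · rw [zpow_neg, zpow_neg, Equiv.Perm.inv_eq_iff_eq, zpow_natCast, zpow_natCast, next_pow_inl,
          ← Equiv.Perm.mul_apply, mul_inv_cancel, Equiv.Perm.one_apply]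
    rw [key, hn]

theorem next_zpow_inr (n : ℤ) (i : I) (c : P.C) :
    ((attach Z P ι).next ^ n) (Sum.inr (i, c)) = Sum.inr (i, (P.next ^ n) c) := by
  obtain ⟨m, rfl | rfl⟩ := n.eq_nat_or_neg
  · rw [zpow_natCast, zpow_natCast, next_pow_inr]
  · rw [zpow_neg, zpow_neg, Equiv.Perm.inv_eq_iff_eq, zpow_natCast, zpow_natCast, next_pow_inr,
      ← Equiv.Perm.mul_apply, mul_inv_cancel, Equiv.Perm.one_apply]

theorem sameCycle_inr {i j : I} {c c' : P.C} :
    (attach Z P ι).next.SameCycle (Sum.inr (i, c)) (Sum.inr (j, c')) ↔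
      i = j ∧ P.next.SameCycle c c' := by
  constructor
  · rintro ⟨n, hn⟩
    rw [next_zpow_inr] at hn
    have := Sum.inr_injective hn
    rw [Prod.mk.injEq] at this
    exact ⟨this.1, n, this.2⟩
  · rintro ⟨rfl, n, hn⟩
    exact ⟨n, by rw [next_zpow_inr, hn]⟩

theorem not_sameCycle {i : I} {c : Z.C} {c' : P.C} :
    ¬ (attach Z P ι).next.SameCycle (Sum.inr (i, c')) (Sum.inl c) := by
  rintro ⟨n, hn⟩
  rw [next_zpow_inr] at hn
  exact absurd hn (by simp)

/-- The cells of `Z` in `attach Z P ι`. -/
def cellInl : Z.Cell → (attach Z P ι).Cell :=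
  Quotient.map' Sum.inl fun _ _ h => (sameCycle_inl Z P ι).2 h

/-- The cells of the `i`-th copy of `P` in `attach Z P ι`. -/
def cellInr (i : I) : P.Cell → (attach Z P ι).Cell :=
  Quotient.map' (fun c => Sum.inr (i, c)) fun _ _ h => (sameCycle_inr Z P ι).2 ⟨rfl, h⟩

theorem cellInl_cell (c : Z.C) : cellInl Z P ι (Z.cell c) = (attach Z P ι).cell (Sum.inl c) := rfl

theorem cellInr_cell (i : I) (c : P.C) :
    cellInr Z P ι i (P.cell c) = (attach Z P ι).cell (Sum.inr (i, c)) := rfl

theorem cellInl_injective : Function.Injective (cellInl Z P ι) := by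
  intro x y
  induction x using Quotient.inductionOn with | _ x =>
  induction y using Quotient.inductionOn with | _ y =>
  intro h
  exact Quotient.sound ((sameCycle_inl Z P ι).1 (Quotient.exact h))

theorem isCycle_inl {A : Type} [AddCommGroup A] {z : (attach Z P ι).Cell → A}
    (h : (attach Z P ι).IsCycle z) : Z.IsCycle fun f => z (cellInl Z P ι f) := by
  intro a
  have h1 := h (Sum.inl a)
  have key : ∀ b : Z.E, {c | (attach Z P ι).side c = Sum.inl b} =
      Sum.inl '' {c | Z.side c = b} := by
    intro b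
    ext c
    rcases c with c | ⟨i, c⟩
    · simp only [Set.mem_ofPred_eq, Set.mem_image, Sum.inl.injEq, exists_eq_right]
      change Sum.inl (Z.side c) = Sum.inl b ↔ _
      rw [Sum.inl.injEq]
    · simp only [Set.mem_ofPred_eq, Set.mem_image, reduceCtorEq, and_false, exists_false, iff_false]
      change ¬ (Sum.inr (i, P.side c) = Sum.inl b)
      simp
  have h2 : (attach Z P ι).inv (Sum.inl a) = Sum.inl (Z.inv a) := rfl
  rw [h2, key, key, finsum_mem_image Sum.inl_injective.injOn,
    finsum_mem_image Sum.inl_injective.injOn] at h1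
  exact h1

theorem isCycle_inr {A : Type} [AddCommGroup A] {z : (attach Z P ι).Cell → A}
    (h : (attach Z P ι).IsCycle z) (i : I) : P.IsCycle fun f => z (cellInr Z P ι i f) := by
  intro a
  have h1 := h (Sum.inr (i, a))
  have key : ∀ b : P.E, {c | (attach Z P ι).side c = Sum.inr (i, b)} =
      (fun c => Sum.inr (i, c)) '' {c | P.side c = b} := by
    intro b
    ext c
    rcases c with c | ⟨j, c⟩
    · simp only [Set.mem_ofPred_eq, Set.mem_image, reduceCtorEq, and_false, exists_false, iff_false]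
      change ¬ (Sum.inl (Z.side c) = Sum.inr (i, b))
      simp
    · simp only [Set.mem_ofPred_eq, Set.mem_image, Sum.inr.injEq, Prod.mk.injEq]
      change Sum.inr (j, P.side c) = Sum.inr (i, b) ↔ _
      rw [Sum.inr.injEq, Prod.mk.injEq]
      constructor
      · rintro ⟨rfl, h⟩; exact ⟨c, h, rfl, rfl⟩
      · rintro ⟨c', h, h', rfl⟩; exact ⟨h'.symm, h⟩
  have h2 : (attach Z P ι).inv (Sum.inr (i, a)) = Sum.inr (i, P.inv a) := rfl
  have hinj : Function.Injective (fun c : P.C => (Sum.inr (i, c) : Z.C ⊕ (I × P.C))) := by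
    intro c c' h
    simpa using h
  rw [h2, key, key, finsum_mem_image hinj.injOn, finsum_mem_image hinj.injOn] at h1
  exact h1

theorem eq_zero_of {A : Type} [AddCommGroup A] {z : (attach Z P ι).Cell → A}
    (hP : ∀ y : P.Cell → A, P.IsCycle y → y = 0) (h : (attach Z P ι).IsCycle z)
    (h1 : (fun f => z (cellInl Z P ι f)) = 0) : z = 0 := by
  funext f
  induction f using Quotient.inductionOn with | _ c =>
  rcases c with c | ⟨i, c⟩
  · exact congrFun h1 (Z.cell c)
  · exact congrFun (hP _ (isCycle_inr Z P ι h i)) (P.cell c)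

end cycles

/-! ### The covering -/

section cover

variable {Z' Z : TwoComplex} (P : TwoComplex) (p : Map Z' Z) (z₀ : Z.V)

/-- A copy of `P` is attached to the covering `Z'` of `Z` at all vertices over `z₀`. -/
@[reducible] def coverAttach : TwoComplex := attach Z' P (Subtype.val : {v : Z'.V // p.v v = z₀} → Z'.V)

/-- The map from the covering to the wedge of `Z` and `P`. -/
def coverMap : Map (coverAttach P p z₀) (attach Z P fun _ : Unit => z₀) where
  v := p.v
  e := Sum.map p.e fun a => ((), a.2)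
  c := Sum.map p.c fun x => ((), x.2)
  pos := Sum.elim p.pos fun _ => True
  src_e := by
    rintro (a | ⟨i, a⟩)
    · exact p.src_e a
    · exact i.2.symm
  inv_e := by
    rintro (a | ⟨i, a⟩)
    · exact congrArg Sum.inl (p.inv_e a)
    · rfl
  pos_next := by
    rintro (x | ⟨i, x⟩)
    · exact p.pos_next x
    · exact Iff.rfl
  of_pos := by
    rintro (x | ⟨i, x⟩) h
    · obtain ⟨h1, h2⟩ := p.of_pos x h
      exact ⟨congrArg Sum.inl h1, congrArg Sum.inl h2⟩
    · exact ⟨rfl, rfl⟩
  of_neg := by
    rintro (x | ⟨i, x⟩) h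
    · obtain ⟨h1, h2⟩ := p.of_neg x h
      exact ⟨congrArg Sum.inl h1, congrArg Sum.inl h2⟩
    · exact absurd trivial h
  inj_cell := by
    rintro (x | ⟨i, x⟩) (y | ⟨j, y⟩) h h'
    · exact congrArg Sum.inl (p.inj_cell x y ((sameCycle_inl _ _ _).1 h) (Sum.inl_injective h'))
    · exact absurd h.symm (not_sameCycle _ _ _)
    · exact absurd h (not_sameCycle _ _ _)
    · obtain ⟨h1, -⟩ := (sameCycle_inr _ _ _).1 h
      have h2 : x = y := by simpa using h'
      rw [h1, h2]

theorem coverMap_isCovering (hp : p.IsCovering) : (coverMap P p z₀).IsCovering := by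
  obtain ⟨⟨hE, hC⟩, hs, hE', hC'⟩ := hp
  refine ⟨⟨?_, ?_⟩, hs, ?_, ?_⟩
  · rintro (a | ⟨i, a⟩) (b | ⟨j, b⟩) h h'
    · exact congrArg Sum.inl (hE a b h (Sum.inl_injective h'))
    · exact absurd h' (by simp [coverMap])
    · exact absurd h' (by simp [coverMap])
    · have h1 : i = j := Subtype.ext h
      have h2 : a = b := by simpa [coverMap] using h'
      rw [h1, h2]
  · rintro (a | ⟨i, a⟩) (b | ⟨j, b⟩) h h'
    · exact congrArg Sum.inl (hC a b h (Sum.inl_injective h'))
    · exact absurd h' (by simp [coverMap])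
    · exact absurd h' (by simp [coverMap])
    · have h1 : i = j := Subtype.ext h
      have h2 : a = b := by simpa [coverMap] using h'
      rw [h1, h2]
  · rintro u (a | ⟨⟨⟩, a⟩) h
    · obtain ⟨b, h1, h2⟩ := hE' u a h
      exact ⟨Sum.inl b, h1, congrArg Sum.inl h2⟩
    · exact ⟨Sum.inr (⟨u, Eq.symm h⟩, a), rfl, rfl⟩
  · rintro u (x | ⟨⟨⟩, x⟩) h
    · obtain ⟨b, h1, h2⟩ := hC' u x h
      exact ⟨Sum.inl b, h1, congrArg Sum.inl h2⟩
    · exact ⟨Sum.inr (⟨u, Eq.symm h⟩, x), rfl, rfl⟩

theorem coverMap_isUniversalCovering (hp : p.IsUniversalCovering) (hP : P.TrivialPiOne)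
    (hP1 : ∀ a b : P.V, a = b) : (coverMap P p z₀).IsUniversalCovering :=
  ⟨coverMap_isCovering P p z₀ hp.1, attach_connected _ _ _ hp.2.1,
    attach_trivialPiOne _ _ _ hp.2.2 hP hP1⟩

end cover

/-- The inclusion of `Z`. -/
@[reducible] def inclZ (Z P : TwoComplex) {I : Type} (ι : I → Z.V) : Map Z (attach Z P ι) where
  v := id
  e := Sum.inl
  c := Sum.inl
  pos _ := True
  src_e _ := rfl
  inv_e _ := rfl
  pos_next _ := Iff.rfl
  of_pos _ _ := ⟨rfl, rfl⟩
  of_neg _ h := absurd trivial h
  inj_cell _ _ _ h := Sum.inl_injective h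

theorem inclZ_isPiOneIso {Z P : TwoComplex} {I : Type} (ι : I → Z.V) (hP : P.TrivialPiOne)
    (hP1 : ∀ a b : P.V, a = b) : (inclZ Z P ι).IsPiOneIso :=
  ⟨Function.bijective_id, fun _ _ l h => homotopic_to_inl Z P ι hP hP1 l h,
    fun _ _ _ _ => homotopic_inl_iff Z P ι⟩

/-- Asphericity of the wedge. -/
theorem attach_aspherical {Z P : TwoComplex} (z₀ : Z.V) (hZ : Z.Aspherical) (hP : P.TrivialPiOne)
    (hP1 : ∀ a b : P.V, a = b) (hP2 : ∀ y : P.Cell → ℤ, P.IsCycle y → y = 0) :
    (attach Z P fun _ : Unit => z₀).Aspherical := by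
  obtain ⟨Z', p, hp, h⟩ := hZ
  refine ⟨_, coverMap P p z₀, coverMap_isUniversalCovering P p z₀ hp hP hP1, fun z h1 h2 => ?_⟩
  refine eq_zero_of _ _ _ hP2 h2 (h _ ?_ (isCycle_inl _ _ _ h2))
  exact h1.preimage (cellInl_injective _ _ _).injOn

/-- The second `L²`-Betti number of the wedge. -/
theorem attach_l2 {Z P : TwoComplex} (z₀ : Z.V) (hZ : Z.L2BettiTwoIsZero) (hP : P.TrivialPiOne)
    (hP1 : ∀ a b : P.V, a = b) (hP2 : ∀ y : P.Cell → ℝ, P.IsCycle y → y = 0) :
    (attach Z P fun _ : Unit => z₀).L2BettiTwoIsZero := by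
  obtain ⟨Z', p, hp, h⟩ := hZ
  refine ⟨_, coverMap P p z₀, coverMap_isUniversalCovering P p z₀ hp hP hP1, fun z h1 h2 => ?_⟩
  refine eq_zero_of _ _ _ hP2 h2 (h _ ?_ (isCycle_inl _ _ _ h2))
  exact h1.comp_injective (cellInl_injective _ _ _)

theorem attach_compact {Z P : TwoComplex} {I : Type} [Finite I] (ι : I → Z.V) (hZ : Z.Compact)
    (hP : P.Compact) : (attach Z P ι).Compact := by
  obtain ⟨h1, h2, h3⟩ := hZ
  obtain ⟨h4, h5, h6⟩ := hP
  refine ⟨h1, ?_, ?_⟩
  · change Finite (Z.E ⊕ (I × P.E)); infer_instance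
  · change Finite (Z.C ⊕ (I × P.C)); infer_instance

end TwoComplex

end Pool.Agent.H71
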