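import Mathlib

/-!
# Combinatorial two-complexes

The definitions used in `MP_3e52c6_al`: combinatorial two-complexes, combinatorial maps, immersions,
coverings, edge paths and their homotopies, the Euler characteristic, non-positive immersions,
asphericity and the vanishing of the second `L²`-Betti number.
-/

set_option autoImplicit false

namespace Pool.Agent.H71

/-- A two-dimensional combinatorial CW complex, given by combinatorial data.

* `V` is the set of the vertices.
* `E` is the set of the *oriented* edges; `inv` reverses the orientation, `src a` is the first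
  vertex of `a`, so that `src (inv a)` is its last vertex. A geometric edge is a pair `{a, inv a}`.
* `C` is the set of the corners of the 2-cells. Every 2-cell is a polygon whose boundary is run
  through in one direction: `next c` is the corner of the same 2-cell after `c`, and `side c` is the
  oriented edge along which the boundary goes from the corner `c` to the corner `next c`. The 2-cells
  are the cycles of `next`, and all of them are finite.

The corner `c` is at the vertex `src (side c)`. -/
structure TwoComplex where
  V : Type
  E : Type
  C : Type
  src : E → V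
  inv : E → E
  inv_inv : ∀ a, inv (inv a) = a
  inv_ne : ∀ a, inv a ≠ a
  next : Equiv.Perm C
  side : C → E
  closed : ∀ c, src (inv (side c)) = src (side (next c))
  polygon : ∀ c, ∃ n : ℕ, 0 < n ∧ (next ^ n) c = c

namespace TwoComplex

/-- The 2-cells: the cycles of the permutation `next` of the corners. -/
def Cell (X : TwoComplex) : Type := Quotient (Equiv.Perm.SameCycle.setoid X.next)

/-- The 2-cell of a corner. -/
def cell (X : TwoComplex) (c : X.C) : X.Cell := Quotient.mk _ c

/-- Finitely many cells. -/
def Compact (X : TwoComplex) : Prop := Finite X.V ∧ Finite X.E ∧ Finite X.C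

/-- The Euler characteristic of a compact complex (`E` consists of the oriented edges). -/
noncomputable def chi (X : TwoComplex) : ℤ :=
  (Nat.card X.V : ℤ) - (Nat.card X.E : ℤ) / 2 + (Nat.card X.Cell : ℤ)

/-- The list `l` of oriented edges is an edge path from `u` to `w`. -/
def IsPath (X : TwoComplex) : X.V → X.V → List X.E → Prop
  | u, w, [] => u = w
  | u, w, a :: l => X.src a = u ∧ IsPath X (X.src (X.inv a)) w l

/-- The complex is connected (and not empty). -/
def Connected (X : TwoComplex) : Prop := Nonempty X.V ∧ ∀ u w, ∃ l, X.IsPath u w l

/-- The first `n` sides of a 2-cell, starting at the corner `c`. -/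
def word (X : TwoComplex) (c : X.C) (n : ℕ) : List X.E :=
  (List.range n).map fun i => X.side ((X.next ^ i) c)

/-- Homotopy of edge paths from `u` to `w`: the equivalence relation generated by the removal of
subpaths `a, inv a` and of the boundary paths of 2-cells. -/
inductive Homotopic (X : TwoComplex) (u w : X.V) : List X.E → List X.E → Prop
  | refl (l : List X.E) : X.IsPath u w l → Homotopic X u w l l
  | symm (l l' : List X.E) : Homotopic X u w l l' → Homotopic X u w l' l
  | trans (l l' l'' : List X.E) :
      Homotopic X u w l l' → Homotopic X u w l' l'' → Homotopic X u w l l''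
  | edge (l₁ l₂ : List X.E) (a : X.E) : X.IsPath u w (l₁ ++ a :: X.inv a :: l₂) →
      Homotopic X u w (l₁ ++ a :: X.inv a :: l₂) (l₁ ++ l₂)
  | cell (l₁ l₂ : List X.E) (c : X.C) (n : ℕ) : (X.next ^ n) c = c →
      X.IsPath u w (l₁ ++ (X.word c n ++ l₂)) →
      Homotopic X u w (l₁ ++ (X.word c n ++ l₂)) (l₁ ++ l₂)

/-- All closed edge paths are null-homotopic: the fundamental group is trivial. -/
def TrivialPiOne (X : TwoComplex) : Prop :=
  ∀ (u : X.V) (l : List X.E), X.IsPath u u l → X.Homotopic u u l []

/-- A combinatorial map: vertices, edges and 2-cells are mapped homeomorphically to vertices, edges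
and 2-cells. `c` is the map of the corners; `pos x` means that the 2-cell of the corner `x` is mapped
with preservation of the chosen directions of the boundaries. -/
structure Map (Y X : TwoComplex) where
  v : Y.V → X.V
  e : Y.E → X.E
  c : Y.C → X.C
  pos : Y.C → Prop
  src_e : ∀ a, X.src (e a) = v (Y.src a)
  inv_e : ∀ a, X.inv (e a) = e (Y.inv a)
  pos_next : ∀ x, pos (Y.next x) ↔ pos x
  of_pos : ∀ x, pos x → c (Y.next x) = X.next (c x) ∧ e (Y.side x) = X.side (c x)
  of_neg : ∀ x, ¬ pos x →
    X.next (c (Y.next x)) = c x ∧ e (Y.side x) = X.inv (X.side (c (Y.next x)))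
  inj_cell : ∀ x y, Y.next.SameCycle x y → c x = c y → x = y

variable {Y X : TwoComplex}

/-- Local injectivity: at every vertex the map is injective on the oriented edges which start there
and on the corners of the 2-cells at this vertex. -/
def Map.IsImmersion (f : Map Y X) : Prop :=
  (∀ a b, Y.src a = Y.src b → f.e a = f.e b → a = b) ∧
  ∀ x y, Y.src (Y.side x) = Y.src (Y.side y) → f.c x = f.c y → x = y

/-- A covering: surjective on the vertices, and bijective on the edges and the corners at each
vertex. -/
def Map.IsCovering (f : Map Y X) : Prop :=
  f.IsImmersion ∧ Function.Surjective f.v ∧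
  (∀ u a, X.src a = f.v u → ∃ b, Y.src b = u ∧ f.e b = a) ∧
  ∀ u x, X.src (X.side x) = f.v u → ∃ y, Y.src (Y.side y) = u ∧ f.c y = x

/-- `f : Y → X` is the universal covering of the complex `X`. -/
def Map.IsUniversalCovering (f : Map Y X) : Prop :=
  f.IsCovering ∧ Y.Connected ∧ Y.TrivialPiOne

/-- The map `f : Y → X` is bijective on the vertices and induces a bijection of the homotopy classes
of the edge paths with given end points: in particular isomorphisms of the fundamental groups. -/
def Map.IsPiOneIso (f : Map Y X) : Prop :=
  Function.Bijective f.v ∧
  (∀ u w l, X.IsPath (f.v u) (f.v w) l →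
    ∃ l', Y.IsPath u w l' ∧ X.Homotopic (f.v u) (f.v w) l (l'.map f.e)) ∧
  ∀ u w l l', X.Homotopic (f.v u) (f.v w) (l.map f.e) (l'.map f.e) ↔ Y.Homotopic u w l l'

/-- `X` has non-positive immersions: for every immersion `Y → X` of a compact connected complex
`Y`, either `χ(Y) ≤ 0` or the fundamental group of `Y` is trivial. -/
def NonPositiveImmersions (X : TwoComplex) : Prop :=
  ∀ (Y : TwoComplex) (f : Map Y X), Y.Compact → Y.Connected → f.IsImmersion →
    Y.chi ≤ 0 ∨ Y.TrivialPiOne

/-- The 2-chain `z` is a cycle: at each oriented edge `a` the sum of the coefficients of the sides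
equal to `a` is the sum of the coefficients of the sides equal to `inv a`. (For the universal covering
of a compact complex these are finite sums.) -/
def IsCycle (X : TwoComplex) {A : Type} [AddCommGroup A] (z : X.Cell → A) : Prop :=
  ∀ a, ∑ᶠ c ∈ {c : X.C | X.side c = a}, z (X.cell c) =
    ∑ᶠ c ∈ {c : X.C | X.side c = X.inv a}, z (X.cell c)

/-- `X` is aspherical: its universal covering is contractible. As the universal covering `X'` is a
simply connected complex of dimension at most two, this means that the group `H₂(X'; ℤ)` of the
finite integral 2-cycles is zero (theorems of Hurewicz and Whitehead). -/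
def Aspherical (X : TwoComplex) : Prop :=
  ∃ (X' : TwoComplex) (p : Map X' X), p.IsUniversalCovering ∧
    ∀ z : X'.Cell → ℤ, (Function.support z).Finite → X'.IsCycle z → z = 0

/-- The second `L²`-Betti number of the compact complex `X` is zero. As there are no 3-cells, the
reduced second `L²`-homology of the universal covering `X'` is the space of the square summable
2-cycles of `X'`, and its von Neumann dimension is zero if and only if this space is zero. -/
def L2BettiTwoIsZero (X : TwoComplex) : Prop :=
  ∃ (X' : TwoComplex) (p : Map X' X), p.IsUniversalCovering ∧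
    ∀ z : X'.Cell → ℝ, Summable (fun f => z f ^ 2) → X'.IsCycle z → z = 0

end TwoComplex

end Pool.Agent.H71
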