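import Mathlib

set_option autoImplicit false
set_option linter.unusedSectionVars false
set_option linter.unusedSimpArgs false

namespace Pool.Agent.H71.Wild

open Matrix

variable {Φ : Type*} [Field Φ] {n : ℕ}

/-- `V` is a linear space of matrices whose elements all satisfy `x ^ 2 = 0` and `xᵗ = ε x`.
For `ε = -1` this is a SAAM, for `ε = 1` a SASM. -/
def IsAC (ε : Φ) (V : Submodule Φ (Matrix (Fin n) (Fin n) Φ)) : Prop :=
  ∀ x ∈ V, x * x = 0 ∧ xᵀ = ε • x

/-- A maximal SAAM (`ε = -1`), a maximal SASM (`ε = 1`). -/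
def IsMaxAC (ε : Φ) (V : Submodule Φ (Matrix (Fin n) (Fin n) Φ)) : Prop :=
  IsAC ε V ∧ ∀ W, IsAC ε W → V ≤ W → W = V

/-- Equivalence: `W = q V qᵗ` for some orthogonal `q`. -/
def Equivt (V W : Submodule Φ (Matrix (Fin n) (Fin n) Φ)) : Prop :=
  ∃ q : Matrix (Fin n) (Fin n) Φ, q * qᵀ = 1 ∧ ∀ x, x ∈ W ↔ ∃ y ∈ V, x = q * y * qᵀ

/-- `a bᵗ + ε b aᵗ` -/
def br (ε : Φ) (a b : Fin n → Φ) : Matrix (Fin n) (Fin n) Φ :=
  vecMulVec a b + ε • vecMulVec b a

theorem vmv_mulVec (a b x : Fin n → Φ) : vecMulVec a b *ᵥ x = (b ⬝ᵥ x) • a := by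
  ext i
  simp [mulVec, dotProduct, vecMulVec_apply, Finset.sum_mul, mul_assoc, mul_comm, mul_left_comm,
    Finset.mul_sum]

theorem br_mulVec (ε : Φ) (a b v : Fin n → Φ) :
    br ε a b *ᵥ v = (b ⬝ᵥ v) • a + (ε * (a ⬝ᵥ v)) • b := by
  rw [br, add_mulVec, smul_mulVec, vmv_mulVec, vmv_mulVec, smul_smul]

theorem br_T {ε : Φ} (hε : ε * ε = 1) (a b : Fin n → Φ) : (br ε a b)ᵀ = ε • br ε a b := by
  rw [br, transpose_add, transpose_smul, transpose_vecMulVec, transpose_vecMulVec, smul_add,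
    smul_smul, hε, one_smul, add_comm]

theorem ext_mulVec {A B : Matrix (Fin n) (Fin n) Φ} (h : ∀ v, A *ᵥ v = B *ᵥ v) : A = B := by
  ext i j
  have := congrFun (h (Pi.single j 1)) i
  simpa using this

theorem ext_dot {a b : Fin n → Φ} (h : ∀ v, a ⬝ᵥ v = b ⬝ᵥ v) : a = b := by
  ext i
  have := h (Pi.single i 1)
  simpa using this

/-- hyperbolic systems -/
structure Frame (Φ : Type*) [Field Φ] (n : ℕ) (H : Type*) [DecidableEq H] where
  u : H → Fin n → Φ
  w : H → Fin n → Φ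
  uu : ∀ i j, u i ⬝ᵥ u j = 0
  ww : ∀ i j, w i ⬝ᵥ w j = 0
  uw : ∀ i j, u i ⬝ᵥ w j = if i = j then 1 else 0

/-- nothing isotropic is orthogonal to the system -/
def Frame.Full {H : Type*} [DecidableEq H] (F : Frame Φ n H) : Prop :=
  ∀ d, (∀ h, F.u h ⬝ᵥ d = 0) → (∀ h, F.w h ⬝ᵥ d = 0) → d ⬝ᵥ d = 0 → d = 0

theorem Frame.wu {H : Type*} [DecidableEq H] (F : Frame Φ n H) (i j : H) :
    F.w i ⬝ᵥ F.u j = if i = j then 1 else 0 := by
  rw [dotProduct_comm, F.uw]
  simp [eq_comm]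

/-- families of subspaces with dual systems -/
structure SubData (Φ : Type*) [Field Φ] (J : Type*) [Fintype J] {I : Type*} (K : I → Type*)
    [∀ i, DecidableEq (K i)] where
  Γ : (i : I) → K i → J → Φ
  Θ : (i : I) → K i → J → Φ
  dual : ∀ i k l, ∑ j, Γ i k j * Θ i l j = if k = l then 1 else 0

section

variable {J : Type*} [Fintype J] [DecidableEq J] {I : Type*} [Fintype I] [DecidableEq I]
  {K : I → Type*} [∀ i, Fintype (K i)] [∀ i, DecidableEq (K i)]

variable (F : Frame Φ n (J ⊕ (Σ i, K i))) (S : SubData Φ J K)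

/-- the vectors `w j` -/
def W (j : J) : Fin n → Φ := F.w (Sum.inl j)
/-- the vectors `u j` -/
def U (j : J) : Fin n → Φ := F.u (Sum.inl j)
/-- the vectors `e i k` -/
def E (i : I) (k : K i) : Fin n → Φ := F.u (Sum.inr ⟨i, k⟩)
/-- the vectors `e' i k` -/
def E' (i : I) (k : K i) : Fin n → Φ := F.w (Sum.inr ⟨i, k⟩)
/-- the basis of the subspace `G i` -/
def G (i : I) (k : K i) : Fin n → Φ := ∑ j, S.Γ i k j • W F j
/-- the dual system -/
def D (i : I) (k : K i) : Fin n → Φ := ∑ j, S.Θ i k j • U F j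

theorem WW (i j : J) : W F i ⬝ᵥ W F j = 0 := F.ww _ _
theorem WU (i j : J) : W F i ⬝ᵥ U F j = if i = j then 1 else 0 := by simp [W, U, F.wu]
theorem UW (i j : J) : U F i ⬝ᵥ W F j = if i = j then 1 else 0 := by simp [W, U, F.uw]
theorem UU (i j : J) : U F i ⬝ᵥ U F j = 0 := F.uu _ _
theorem WE (j : J) (i : I) (k : K i) : W F j ⬝ᵥ E F i k = 0 := by simp [W, E, F.wu]
theorem WE' (j : J) (i : I) (k : K i) : W F j ⬝ᵥ E' F i k = 0 := by simp [W, E', F.ww]
theorem UE (j : J) (i : I) (k : K i) : U F j ⬝ᵥ E F i k = 0 := by simp [U, E, F.uu]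
theorem UE' (j : J) (i : I) (k : K i) : U F j ⬝ᵥ E' F i k = 0 := by simp [U, E', F.uw]
theorem EW (j : J) (i : I) (k : K i) : E F i k ⬝ᵥ W F j = 0 := by rw [dotProduct_comm, WE]
theorem E'W (j : J) (i : I) (k : K i) : E' F i k ⬝ᵥ W F j = 0 := by rw [dotProduct_comm, WE']
theorem EU (j : J) (i : I) (k : K i) : E F i k ⬝ᵥ U F j = 0 := by rw [dotProduct_comm, UE]
theorem E'U (j : J) (i : I) (k : K i) : E' F i k ⬝ᵥ U F j = 0 := by rw [dotProduct_comm, UE']
theorem EE (i : I) (k : K i) (i' : I) (k' : K i') : E F i k ⬝ᵥ E F i' k' = 0 := F.uu _ _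
theorem E'E' (i : I) (k : K i) (i' : I) (k' : K i') : E' F i k ⬝ᵥ E' F i' k' = 0 := F.ww _ _
theorem EE'_same (i : I) (k k' : K i) : E F i k ⬝ᵥ E' F i k' = if k = k' then 1 else 0 := by
  simp [E, E', F.uw]
theorem E'E_same (i : I) (k k' : K i) : E' F i k ⬝ᵥ E F i k' = if k = k' then 1 else 0 := by
  simp [E, E', F.wu]
theorem EE'_ne {i i' : I} (h : i ≠ i') (k : K i) (k' : K i') : E F i k ⬝ᵥ E' F i' k' = 0 := by
  simp [E, E', F.uw, h]
theorem E'E_ne {i i' : I} (h : i ≠ i') (k : K i) (k' : K i') : E' F i k ⬝ᵥ E F i' k' = 0 := by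
  simp [E, E', F.wu, h]

theorem G_dot (i : I) (k : K i) (v : Fin n → Φ) :
    G F S i k ⬝ᵥ v = ∑ j, S.Γ i k j * (W F j ⬝ᵥ v) := by
  rw [G, sum_dotProduct]
  exact Finset.sum_congr rfl fun j _ => by rw [smul_dotProduct, smul_eq_mul]

theorem GW (i : I) (k : K i) (j : J) : G F S i k ⬝ᵥ W F j = 0 := by simp [G_dot, WW]
theorem GE (i : I) (k : K i) (i' : I) (k' : K i') : G F S i k ⬝ᵥ E F i' k' = 0 := by
  simp [G_dot, WE]
theorem GE' (i : I) (k : K i) (i' : I) (k' : K i') : G F S i k ⬝ᵥ E' F i' k' = 0 := by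
  simp [G_dot, WE']
theorem WG (i : I) (k : K i) (j : J) : W F j ⬝ᵥ G F S i k = 0 := by rw [dotProduct_comm, GW]
theorem EG (i : I) (k : K i) (i' : I) (k' : K i') : E F i' k' ⬝ᵥ G F S i k = 0 := by
  rw [dotProduct_comm, GE]
theorem E'G (i : I) (k : K i) (i' : I) (k' : K i') : E' F i' k' ⬝ᵥ G F S i k = 0 := by
  rw [dotProduct_comm, GE']
theorem GG (i : I) (k : K i) (i' : I) (k' : K i') : G F S i k ⬝ᵥ G F S i' k' = 0 := by
  simp [G_dot, WG]
theorem GU (i : I) (k : K i) (j : J) : G F S i k ⬝ᵥ U F j = S.Γ i k j := by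
  simp [G_dot, WU]
theorem UG (i : I) (k : K i) (j : J) : U F j ⬝ᵥ G F S i k = S.Γ i k j := by
  rw [dotProduct_comm, GU]
theorem GD (i : I) (k l : K i) : G F S i k ⬝ᵥ D F S i l = if k = l then 1 else 0 := by
  rw [← S.dual i k l, D, dotProduct_sum]
  exact Finset.sum_congr rfl fun j _ => by rw [dotProduct_smul, GU, smul_eq_mul, mul_comm]
theorem ED (i : I) (k : K i) (i' : I) (k' : K i') : E F i' k' ⬝ᵥ D F S i k = 0 := by
  simp [D, dotProduct_sum, EU]
theorem E'D (i : I) (k : K i) (i' : I) (k' : K i') : E' F i' k' ⬝ᵥ D F S i k = 0 := by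
  simp [D, dotProduct_sum, E'U]

variable (ε : Φ)

/-- the general element -/
def X (l : Matrix J J Φ) (a : I → Φ) (r : ∀ i, Matrix (K i) (K i) Φ) : Matrix (Fin n) (Fin n) Φ :=
  ∑ j, ∑ j', l j j' • vecMulVec (W F j) (W F j') +
    ∑ i, (a i • ∑ k, br ε (E F i k) (G F S i k) +
      ∑ k, ∑ k', r i k k' • br ε (E' F i k) (G F S i k'))

theorem X_mulVec (l : Matrix J J Φ) (a : I → Φ) (r : ∀ i, Matrix (K i) (K i) Φ) (v : Fin n → Φ) :
    X F S ε l a r *ᵥ v = ∑ j, ∑ j', (l j j' * (W F j' ⬝ᵥ v)) • W F j +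
      ∑ i, (∑ k, ((a i * (G F S i k ⬝ᵥ v)) • E F i k + (a i * (ε * (E F i k ⬝ᵥ v))) • G F S i k) +
        ∑ k, ∑ k', ((r i k k' * (G F S i k' ⬝ᵥ v)) • E' F i k +
          (r i k k' * (ε * (E' F i k ⬝ᵥ v))) • G F S i k')) := by
  rw [X, add_mulVec, sum_mulVec, sum_mulVec]
  congr 1
  · refine Finset.sum_congr rfl fun j _ => ?_
    rw [sum_mulVec]
    exact Finset.sum_congr rfl fun j' _ => by rw [smul_mulVec, vmv_mulVec, smul_smul]
  · refine Finset.sum_congr rfl fun i _ => ?_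
    rw [add_mulVec, smul_mulVec, sum_mulVec, sum_mulVec]
    congr 1
    · rw [Finset.smul_sum]
      exact Finset.sum_congr rfl fun k _ => by
        rw [br_mulVec, smul_add, smul_smul, smul_smul]
    · refine Finset.sum_congr rfl fun k _ => ?_
      rw [sum_mulVec]
      exact Finset.sum_congr rfl fun k' _ => by
        rw [smul_mulVec, br_mulVec, smul_add, smul_smul, smul_smul]

theorem X_W (l : Matrix J J Φ) (a : I → Φ) (r : ∀ i, Matrix (K i) (K i) Φ) (j : J) :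
    X F S ε l a r *ᵥ W F j = 0 := by
  simp [X_mulVec, WW, GW, EW, E'W]

theorem X_G (l : Matrix J J Φ) (a : I → Φ) (r : ∀ i, Matrix (K i) (K i) Φ) (i : I) (k : K i) :
    X F S ε l a r *ᵥ G F S i k = 0 := by
  simp [X_mulVec, WG, GG, EG, E'G]

theorem X_E (l : Matrix J J Φ) (a : I → Φ) (r : ∀ i, Matrix (K i) (K i) Φ) (i : I) (k : K i) :
    X F S ε l a r *ᵥ E F i k = ∑ k', (r i k k' * ε) • G F S i k' := by
  rw [X_mulVec, Finset.sum_eq_zero (s := Finset.univ (α := J)) (fun j _ => by simp [WE]), zero_add,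
    Finset.sum_eq_single i]
  · simp only [GE, EE, mul_zero, zero_smul, add_zero, Finset.sum_const_zero, zero_add]
    rw [Finset.sum_eq_single k]
    · simp [E'E_same]
    · intro k' _ hk
      simp [E'E_same, hk]
    · simp
  · intro i' _ hi
    simp [GE, EE, E'E_ne F hi]
  · simp

theorem X_E' (l : Matrix J J Φ) (a : I → Φ) (r : ∀ i, Matrix (K i) (K i) Φ) (i : I) (k : K i) :
    X F S ε l a r *ᵥ E' F i k = (a i * ε) • G F S i k := by
  rw [X_mulVec, Finset.sum_eq_zero (s := Finset.univ (α := J)) (fun j _ => by simp [WE']), zero_add,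
    Finset.sum_eq_single i]
  · simp only [GE', E'E', mul_zero, zero_smul, add_zero, Finset.sum_const_zero, zero_add]
    rw [Finset.sum_eq_single k]
    · simp [EE'_same]
    · intro k' _ hk
      simp [EE'_same, hk]
    · simp
  · intro i' _ hi
    simp [GE', E'E', EE'_ne F hi]
  · simp

/-- the matrices `∑ m_kl g_k g_lᵗ` -/
def Gh (i : I) (m : Matrix (K i) (K i) Φ) : Matrix (Fin n) (Fin n) Φ :=
  ∑ k, ∑ l, m k l • vecMulVec (G F S i k) (G F S i l)

theorem Gh_mulVec (i : I) (m : Matrix (K i) (K i) Φ) (v : Fin n → Φ) :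
    Gh F S i m *ᵥ v = ∑ k, ∑ l, (m k l * (G F S i l ⬝ᵥ v)) • G F S i k := by
  rw [Gh, sum_mulVec]
  refine Finset.sum_congr rfl fun k _ => ?_
  rw [sum_mulVec]
  exact Finset.sum_congr rfl fun l _ => by rw [smul_mulVec, vmv_mulVec, smul_smul]

theorem X_mul (l : Matrix J J Φ) (a : I → Φ) (r : ∀ i, Matrix (K i) (K i) Φ)
    (l' : Matrix J J Φ) (a' : I → Φ) (r' : ∀ i, Matrix (K i) (K i) Φ) :
    X F S ε l a r * X F S ε l' a' r' = ε • ∑ i, Gh F S i (a i • r' i + a' i • (r i)ᵀ) := by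
  refine ext_mulVec fun v => ?_
  rw [← mulVec_mulVec, X_mulVec F S ε l' a' r', mulVec_add, mulVec_sum, mulVec_sum,
    Finset.sum_eq_zero (s := Finset.univ (α := J))
      (fun j _ => by simp [mulVec_sum, mulVec_smul, X_W]), zero_add, smul_mulVec, sum_mulVec,
      Finset.smul_sum]
  refine Finset.sum_congr rfl fun i _ => ?_
  rw [Gh_mulVec, mulVec_add, mulVec_sum, mulVec_sum]
  simp only [mulVec_add, mulVec_sum, mulVec_smul, X_G, X_E, X_E', smul_zero, add_zero, smul_smul,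
    Finset.smul_sum, Matrix.add_apply, Matrix.smul_apply, Matrix.transpose_apply, smul_eq_mul,
    add_mul, mul_add, add_smul, Finset.sum_add_distrib]
  rw [add_comm]
  simp only [Finset.sum_const_zero, add_zero, smul_add, Finset.smul_sum, smul_smul]
  have e1 : (∑ k, ∑ k', (r' i k k' * (G F S i k' ⬝ᵥ v) * (a i * ε)) • G F S i k) =
      ∑ k, ∑ k', (ε * (a i * r' i k k' * (G F S i k' ⬝ᵥ v))) • G F S i k :=
    Finset.sum_congr rfl fun k _ => Finset.sum_congr rfl fun k' _ => by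
      congr 1
      ring
  have e2 : (∑ k, ∑ k', (a' i * (G F S i k ⬝ᵥ v) * (r i k k' * ε)) • G F S i k') =
      ∑ k, ∑ k', (ε * (a' i * r i k' k * (G F S i k' ⬝ᵥ v))) • G F S i k := by
    rw [Finset.sum_comm]
    exact Finset.sum_congr rfl fun k _ => Finset.sum_congr rfl fun k' _ => by
      congr 1
      ring
  rw [e1, e2]

theorem X_T (hε : ε * ε = 1) (l : Matrix J J Φ) (a : I → Φ) (r : ∀ i, Matrix (K i) (K i) Φ)
    (hl : lᵀ = ε • l) : (X F S ε l a r)ᵀ = ε • X F S ε l a r := by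
  rw [X, transpose_add, smul_add]
  congr 1
  · rw [transpose_sum, Finset.smul_sum]
    simp only [transpose_sum, transpose_smul, transpose_vecMulVec]
    rw [Finset.sum_comm]
    refine Finset.sum_congr rfl fun j _ => ?_
    rw [Finset.smul_sum]
    refine Finset.sum_congr rfl fun j' _ => ?_
    have := congrFun (congrFun hl j) j'
    rw [transpose_apply, Matrix.smul_apply, smul_eq_mul] at this
    rw [this, smul_smul]
  · rw [transpose_sum, Finset.smul_sum]
    refine Finset.sum_congr rfl fun i _ => ?_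
    rw [transpose_add, smul_add, transpose_smul, transpose_sum, transpose_sum, smul_comm ε (a i),
      Finset.smul_sum, Finset.smul_sum (r := ε)]
    simp only [transpose_sum, transpose_smul, br_T hε, Finset.smul_sum]
    congr 1
    refine Finset.sum_congr rfl fun k _ => Finset.sum_congr rfl fun k' _ => ?_
    rw [smul_comm]

end

end Pool.Agent.H71.Wild
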