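import Mathlib
import Pool.Agent.H71.WildA

set_option autoImplicit false
set_option linter.unusedSectionVars false
set_option linter.unusedSimpArgs false

namespace Pool.Agent.H71.Wild

open Matrix

variable {Φ : Type*} [Field Φ] {n : ℕ}

/-- (x u) . v = ε u . (x v) -/
theorem dot_T {ε : Φ} {x : Matrix (Fin n) (Fin n) Φ} (hx : xᵀ = ε • x) (u v : Fin n → Φ) :
    (x *ᵥ u) ⬝ᵥ v = ε * (u ⬝ᵥ (x *ᵥ v)) := by
  have h1 : (x *ᵥ u) ⬝ᵥ v = u ⬝ᵥ (xᵀ *ᵥ v) := by
    rw [mulVec_transpose, dotProduct_comm (x *ᵥ u), dotProduct_mulVec, dotProduct_comm]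
  rw [h1, hx, smul_mulVec, dotProduct_smul, smul_eq_mul]

theorem dot_T' {ε : Φ} {x : Matrix (Fin n) (Fin n) Φ} (hx : xᵀ = ε • x) (u v : Fin n → Φ) :
    u ⬝ᵥ (x *ᵥ v) = ε * (v ⬝ᵥ (x *ᵥ u)) := by
  rw [dotProduct_comm u, dot_T hx]

theorem anti_form {ε : Φ} {x y : Matrix (Fin n) (Fin n) Φ} (hx : xᵀ = ε • x) (hy : yᵀ = ε • y)
    (h : x * y + y * x = 0) (u v : Fin n → Φ) :
    (x *ᵥ u) ⬝ᵥ (y *ᵥ v) + (x *ᵥ v) ⬝ᵥ (y *ᵥ u) = 0 := by
  rw [dot_T hx, dotProduct_comm (x *ᵥ v), dot_T hy, mulVec_mulVec, mulVec_mulVec, ← mul_add,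
    ← dotProduct_add, ← add_mulVec, h, zero_mulVec, dotProduct_zero, mul_zero]

theorem anti_of_AC {ε : Φ} {V : Submodule Φ (Matrix (Fin n) (Fin n) Φ)} (hV : IsAC ε V)
    {x y : Matrix (Fin n) (Fin n) Φ} (hx : x ∈ V) (hy : y ∈ V) : x * y + y * x = 0 := by
  have h1 := (hV _ (V.add_mem hx hy)).1
  rw [add_mul, mul_add, mul_add, (hV x hx).1, (hV y hy).1, zero_add, add_zero] at h1
  exact h1

section

variable {J : Type*} [Fintype J] [DecidableEq J] {I : Type*} [Fintype I] [DecidableEq I]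
  {K : I → Type*} [∀ i, Fintype (K i)] [∀ i, DecidableEq (K i)]

variable (F : Frame Φ n (J ⊕ (Σ i, K i))) (S : SubData Φ J K) (ε : Φ)

theorem X_add (l : Matrix J J Φ) (a : I → Φ) (r : ∀ i, Matrix (K i) (K i) Φ)
    (l' : Matrix J J Φ) (a' : I → Φ) (r' : ∀ i, Matrix (K i) (K i) Φ) :
    X F S ε (l + l') (a + a') (fun i => r i + r' i) = X F S ε l a r + X F S ε l' a' r' := by
  refine ext_mulVec fun v => ?_
  simp only [X, Matrix.add_apply, Pi.add_apply, add_smul, Finset.sum_add_distrib, add_mulVec]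
  abel

theorem X_smul (c : Φ) (l : Matrix J J Φ) (a : I → Φ) (r : ∀ i, Matrix (K i) (K i) Φ) :
    X F S ε (c • l) (c • a) (fun i => c • r i) = c • X F S ε l a r := by
  simp only [X, Matrix.smul_apply, Pi.smul_apply, smul_eq_mul, mul_smul, Finset.smul_sum, smul_add]

theorem X_zero : X F S ε 0 0 0 = 0 := by
  simp [X]

/-- the space of anticommuting matrices -/
def V : Submodule Φ (Matrix (Fin n) (Fin n) Φ) where
  carrier := {x | ∃ (l : Matrix J J Φ) (a : I → Φ) (r : ∀ i, Matrix (K i) (K i) Φ),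
    lᵀ = ε • l ∧ (∀ i, (r i)ᵀ = -r i) ∧ x = X F S ε l a r}
  add_mem' := by
    rintro x y ⟨l, a, r, hl, hr, rfl⟩ ⟨l', a', r', hl', hr', rfl⟩
    refine ⟨l + l', a + a', fun i => r i + r' i, ?_, fun i => ?_, (X_add ..).symm⟩
    · rw [transpose_add, hl, hl', smul_add]
    · rw [transpose_add, hr, hr', neg_add]
  zero_mem' := ⟨0, 0, 0, by simp, fun i => by simp, (X_zero F S ε).symm⟩
  smul_mem' := by
    rintro c x ⟨l, a, r, hl, hr, rfl⟩
    refine ⟨c • l, c • a, fun i => c • r i, ?_, fun i => ?_, (X_smul ..).symm⟩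
    · rw [transpose_smul, hl, smul_comm]
    · rw [transpose_smul, hr, smul_neg]

theorem mem_V {x : Matrix (Fin n) (Fin n) Φ} : x ∈ V F S ε ↔
    ∃ (l : Matrix J J Φ) (a : I → Φ) (r : ∀ i, Matrix (K i) (K i) Φ),
      lᵀ = ε • l ∧ (∀ i, (r i)ᵀ = -r i) ∧ x = X F S ε l a r := Iff.rfl

theorem Gh_zero (i : I) : Gh F S i 0 = 0 := by simp [Gh]

theorem V_isAC (hε : ε * ε = 1) : IsAC ε (V F S ε) := by
  rintro x ⟨l, a, r, hl, hr, rfl⟩
  refine ⟨?_, X_T F S ε hε l a r hl⟩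
  rw [X_mul]
  have : ∀ i, a i • r i + a i • (r i)ᵀ = 0 := fun i => by rw [hr, smul_neg, add_neg_cancel]
  simp [this, Gh_zero]

/-- the part of the general element at `w` -/
theorem X_single (hε : ε * ε = 1) {j l : J} :
    br ε (W F j) (W F l) ∈ V F S ε := by
  refine ⟨Matrix.single j l 1 + ε • Matrix.single l j 1, 0, 0, ?_, fun i => by simp, ?_⟩
  · rw [transpose_add, transpose_smul, transpose_single, transpose_single, smul_add, smul_smul, hε,
      one_smul, add_comm]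
  · refine ext_mulVec fun v => ?_
    rw [br_mulVec, X_mulVec]
    simp only [Matrix.add_apply, Matrix.smul_apply, smul_eq_mul, Pi.zero_apply, zero_mul, zero_smul,
      Matrix.zero_apply, Finset.sum_const_zero, add_zero, Matrix.single_apply, mul_ite, mul_one,
      mul_zero, add_mul, add_smul, Finset.sum_add_distrib, ite_mul, one_mul, ite_smul]
    congr 1
    · rw [Finset.sum_eq_single j]
      · simp
      · intro b _ hb
        exact Finset.sum_eq_zero fun c _ => by simp [Ne.symm hb]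
      · simp
    · rw [Finset.sum_eq_single l]
      · simp
      · intro b _ hb
        exact Finset.sum_eq_zero fun c _ => by simp [Ne.symm hb]
      · simp

theorem XS_mem (i : I) : ∑ k, br ε (E F i k) (G F S i k) ∈ V F S ε := by
  refine ⟨0, Pi.single i 1, 0, by simp, fun i => by simp, ?_⟩
  rw [X, Finset.sum_eq_single i]
  · simp
  · intro b _ hb
    simp [Pi.single_eq_of_ne hb]
  · simp

theorem XT_mem {i : I} (p q : K i) :
    br ε (E' F i p) (G F S i q) - br ε (E' F i q) (G F S i p) ∈ V F S ε := by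
  refine ⟨0, 0, Pi.single i (Matrix.single p q 1 - Matrix.single q p 1), by simp, fun i' => ?_, ?_⟩
  · by_cases h : i' = i
    · subst h
      rw [Pi.single_eq_same, transpose_sub, transpose_single, transpose_single, neg_sub]
    · rw [Pi.single_eq_of_ne h, transpose_zero, neg_zero]
  · rw [X, Finset.sum_eq_single i]
    · simp only [Matrix.zero_apply, zero_smul, Finset.sum_const_zero, zero_add, Pi.zero_apply,
        Pi.single_eq_same, Matrix.sub_apply, sub_smul, Finset.sum_sub_distrib]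
      congr 1
      · rw [Finset.sum_eq_single p, Finset.sum_eq_single q]
        · simp
        · intro b _ hb
          simp [Matrix.single_apply, Ne.symm hb]
        · simp
        · intro b _ hb
          exact Finset.sum_eq_zero fun c _ => by simp [Matrix.single_apply, Ne.symm hb]
        · simp
      · rw [Finset.sum_eq_single q, Finset.sum_eq_single p]
        · simp
        · intro b _ hb
          simp [Matrix.single_apply, Ne.symm hb]
        · simp
        · intro b _ hb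
          exact Finset.sum_eq_zero fun c _ => by simp [Matrix.single_apply, Ne.symm hb]
        · simp
    · intro b _ hb
      simp [Pi.single_eq_of_ne hb]
    · simp

/-- `y` kills the vectors `w` -/
theorem kill_W (h2 : (2 : Φ) ≠ 0) (hε : ε * ε = 1) [Nontrivial J]
    {y : Matrix (Fin n) (Fin n) Φ} (hy : yᵀ = ε • y) (hy2 : y * y = 0)
    (hV : ∀ x ∈ V F S ε, x * y + y * x = 0) (j : J) : y *ᵥ W F j = 0 := by
  have hε0 : ε ≠ 0 := by
    rintro rfl
    simp at hε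
  obtain ⟨l, hl⟩ := exists_ne j
  have key : ∀ u v : Fin n → Φ, (W F l ⬝ᵥ u) * (W F j ⬝ᵥ (y *ᵥ v)) +
      ε * (W F j ⬝ᵥ u) * (W F l ⬝ᵥ (y *ᵥ v)) + ((W F l ⬝ᵥ v) * (W F j ⬝ᵥ (y *ᵥ u)) +
      ε * (W F j ⬝ᵥ v) * (W F l ⬝ᵥ (y *ᵥ u))) = 0 := by
    intro u v
    have h := anti_form (br_T hε _ _) hy (hV _ (X_single F S ε hε (j := j) (l := l))) u v
    simpa [br_mulVec, add_dotProduct, smul_dotProduct] using h
  have h1 := key (U F l) (U F l)
  simp only [WU, if_true, if_neg hl.symm, mul_zero, zero_mul, add_zero, one_mul] at h1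
  have h2' : W F j ⬝ᵥ (y *ᵥ U F l) = 0 := by
    have : (2 : Φ) * (W F j ⬝ᵥ (y *ᵥ U F l)) = 0 := by linear_combination h1
    exact (mul_eq_zero.mp this).resolve_left h2
  set c := W F l ⬝ᵥ (y *ᵥ U F l) with hc
  have h3 : ∀ v, W F j ⬝ᵥ (y *ᵥ v) = -ε * c * (W F j ⬝ᵥ v) := by
    intro v
    have h := key (U F l) v
    simp only [WU, if_true, if_neg hl.symm, mul_zero, zero_mul, add_zero, one_mul, h2'] at h
    rw [← hc] at h
    linear_combination h
  have h4 : y *ᵥ W F j = (-c) • W F j := by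
    refine ext_dot fun v => ?_
    rw [dot_T hy, h3, smul_dotProduct, smul_eq_mul]
    linear_combination (-c * (W F j ⬝ᵥ v)) * hε
  have h5 : (c * c) • W F j = 0 := by
    have : (y * y) *ᵥ W F j = 0 := by rw [hy2, zero_mulVec]
    rw [← mulVec_mulVec, h4, mulVec_smul, h4, smul_smul] at this
    rw [← this]
    congr 1
    ring
  have h6 : c * c = 0 := by
    have := congrArg (fun z => U F j ⬝ᵥ z) h5
    simpa [UW] using this
  have h7 : c = 0 := mul_self_eq_zero.mp h6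
  rw [h4, h7, neg_zero, zero_smul]

theorem frame_zero {v : Fin n → Φ} (hF : F.Full) (hW : ∀ j, W F j ⬝ᵥ v = 0)
    (hE : ∀ i k, E F i k ⬝ᵥ v = 0) (hE' : ∀ i k, E' F i k ⬝ᵥ v = 0) (hv : v ⬝ᵥ v = 0) :
    v = ∑ j, (U F j ⬝ᵥ v) • W F j := by
  rw [← sub_eq_zero]
  have hWs : ∀ z : Fin n → Φ, z ⬝ᵥ (∑ j, (U F j ⬝ᵥ v) • W F j) =
      ∑ j, (U F j ⬝ᵥ v) * (z ⬝ᵥ W F j) := by
    intro z
    rw [dotProduct_sum]
    exact Finset.sum_congr rfl fun j _ => by rw [dotProduct_smul, smul_eq_mul]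
  apply hF
  · rintro (j | ⟨i, k⟩)
    · change U F j ⬝ᵥ _ = 0
      rw [dotProduct_sub, hWs]
      simp [UW]
    · change E F i k ⬝ᵥ _ = 0
      rw [dotProduct_sub, hWs, hE]
      simp [EW]
  · rintro (j | ⟨i, k⟩)
    · change W F j ⬝ᵥ _ = 0
      rw [dotProduct_sub, hWs, hW]
      simp [WW]
    · change E' F i k ⬝ᵥ _ = 0
      rw [dotProduct_sub, hWs, hE']
      simp [E'W]
  · rw [dotProduct_sub, hWs, sub_dotProduct, hv, dotProduct_comm _ v, hWs]
    have h1 : ∀ j, v ⬝ᵥ W F j = 0 := fun j => by rw [dotProduct_comm, hW]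
    have h2 : ∀ j, (v - ∑ j, (U F j ⬝ᵥ v) • W F j) ⬝ᵥ W F j = 0 := by
      intro j
      rw [sub_dotProduct, h1, dotProduct_comm, hWs]
      simp [WW]
    simp [h1, h2]

theorem V_max (h2 : (2 : Φ) ≠ 0) (hε : ε * ε = 1) [Nontrivial J] [∀ i, Nontrivial (K i)]
    (hF : F.Full) {y : Matrix (Fin n) (Fin n) Φ} (hy : yᵀ = ε • y) (hy2 : y * y = 0)
    (hV : ∀ x ∈ V F S ε, x * y + y * x = 0) : y ∈ V F S ε := by
  classical
  have hyW : ∀ j, y *ᵥ W F j = 0 := kill_W F S ε h2 hε hy hy2 hV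
  have hWy : ∀ j v, W F j ⬝ᵥ (y *ᵥ v) = 0 := by
    intro j v
    rw [dot_T' hy, hyW, dotProduct_zero, mul_zero]
  have hGy : ∀ i k v, G F S i k ⬝ᵥ (y *ᵥ v) = 0 := by
    intro i k v
    simp [G_dot, hWy]
  -- the conditions
  have hS : ∀ i u v, ∑ k, (G F S i k ⬝ᵥ u) * (E F i k ⬝ᵥ (y *ᵥ v)) +
      ∑ k, (G F S i k ⬝ᵥ v) * (E F i k ⬝ᵥ (y *ᵥ u)) = 0 := by
    intro i u v
    have hm := XS_mem F S ε i
    have h := anti_form ((V_isAC F S ε hε) _ hm).2 hy (hV _ hm) u v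
    simp only [sum_mulVec, br_mulVec, sum_dotProduct, add_dotProduct, smul_dotProduct, hGy,
      smul_eq_mul, mul_zero, add_zero] at h
    exact h
  have hT : ∀ i (p q : K i) u v, (G F S i q ⬝ᵥ u) * (E' F i p ⬝ᵥ (y *ᵥ v)) -
      (G F S i p ⬝ᵥ u) * (E' F i q ⬝ᵥ (y *ᵥ v)) + ((G F S i q ⬝ᵥ v) * (E' F i p ⬝ᵥ (y *ᵥ u)) -
      (G F S i p ⬝ᵥ v) * (E' F i q ⬝ᵥ (y *ᵥ u))) = 0 := by
    intro i p q u v
    have hm := XT_mem F S ε p q
    have h := anti_form ((V_isAC F S ε hε) _ hm).2 hy (hV _ hm) u v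
    simp only [sub_mulVec, br_mulVec, sub_dotProduct, add_dotProduct, smul_dotProduct, hGy,
      smul_eq_mul, mul_zero, add_zero] at h
    exact h
  -- first components
  have hE : ∀ i (l : K i) v, E F i l ⬝ᵥ (y *ᵥ v) =
      ∑ k, (-(E F i k ⬝ᵥ (y *ᵥ D F S i l))) * (G F S i k ⬝ᵥ v) := by
    intro i l v
    have h := hS i (D F S i l) v
    simp only [GD, ite_mul, one_mul, zero_mul, Finset.sum_ite_eq', Finset.mem_univ, if_true] at h
    rw [← eq_neg_iff_add_eq_zero] at h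
    rw [h, ← Finset.sum_neg_distrib]
    exact Finset.sum_congr rfl fun k _ => by ring
  -- second components
  have hE1 : ∀ i (p q : K i), q ≠ p → ∀ v, E' F i p ⬝ᵥ (y *ᵥ v) =
      (G F S i p ⬝ᵥ v) * (E' F i q ⬝ᵥ (y *ᵥ D F S i q)) := by
    intro i p q hpq v
    have h1 : ∀ v, E' F i p ⬝ᵥ (y *ᵥ v) + (G F S i q ⬝ᵥ v) * (E' F i p ⬝ᵥ (y *ᵥ D F S i q)) -
        (G F S i p ⬝ᵥ v) * (E' F i q ⬝ᵥ (y *ᵥ D F S i q)) = 0 := by
      intro v
      have h := hT i p q (D F S i q) v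
      simp only [GD, if_true, if_neg hpq.symm, one_mul, zero_mul, sub_zero] at h
      linear_combination h
    have h3 := h1 (D F S i q)
    simp only [GD, if_true, if_neg hpq.symm, one_mul, zero_mul, sub_zero] at h3
    have h4 : E' F i p ⬝ᵥ (y *ᵥ D F S i q) = 0 := by
      have : (2 : Φ) * (E' F i p ⬝ᵥ (y *ᵥ D F S i q)) = 0 := by linear_combination h3
      exact (mul_eq_zero.mp this).resolve_left h2
    have h5 := h1 v
    rw [h4] at h5
    linear_combination h5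
  have hE2 : ∀ i (p q : K i), E' F i p ⬝ᵥ (y *ᵥ D F S i p) = E' F i q ⬝ᵥ (y *ᵥ D F S i q) := by
    intro i p q
    by_cases h : q = p
    · rw [h]
    · rw [hE1 i p q h, GD, if_pos rfl, one_mul]
  let k0 : ∀ i, K i := fun i => Classical.arbitrary _
  let a : I → Φ := fun i => E' F i (k0 i) ⬝ᵥ (y *ᵥ D F S i (k0 i))
  have hE3 : ∀ i (p : K i) v, E' F i p ⬝ᵥ (y *ᵥ v) = a i * (G F S i p ⬝ᵥ v) := by
    intro i p v
    obtain ⟨q, hq⟩ := exists_ne p
    rw [hE1 i p q hq, hE2 i q (k0 i), mul_comm]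
  let r : ∀ i, Matrix (K i) (K i) Φ := fun i l k => -(E F i k ⬝ᵥ (y *ᵥ D F S i l))
  have hr : ∀ i, (r i)ᵀ = -r i := by
    intro i
    ext l m
    rw [transpose_apply, Matrix.neg_apply]
    change -(E F i l ⬝ᵥ (y *ᵥ D F S i m)) = - -(E F i m ⬝ᵥ (y *ᵥ D F S i l))
    rw [hE i l]
    simp [GD]
  set x0 := X F S ε 0 a r with hx0
  have hx0m : x0 ∈ V F S ε := ⟨0, a, r, by simp, hr, rfl⟩
  have hx0AC := V_isAC F S ε hε _ hx0m
  -- the difference
  set z := y - x0 with hz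
  have hzT : zᵀ = ε • z := by rw [hz, transpose_sub, hy, hx0AC.2, smul_sub]
  have hz2 : z * z = 0 := by
    have := hV x0 hx0m
    have e : z * z = y * y - (x0 * y + y * x0) + x0 * x0 := by rw [hz]; noncomm_ring
    rw [e, hy2, this, hx0AC.1]
    simp
  have hzW : ∀ j v, W F j ⬝ᵥ (z *ᵥ v) = 0 := by
    intro j v
    rw [dot_T' hzT, hz, sub_mulVec, hyW, hx0, X_W]
    simp
  have hzE : ∀ i k v, E F i k ⬝ᵥ (z *ᵥ v) = 0 := by
    intro i k v
    rw [hz, sub_mulVec, dotProduct_sub, hE, dot_T' hx0AC.2, hx0, X_E, dotProduct_sum,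
      Finset.mul_sum, ← Finset.sum_sub_distrib]
    refine Finset.sum_eq_zero fun k' _ => ?_
    rw [dotProduct_smul, smul_eq_mul, dotProduct_comm v]
    change (r i k k') * _ - _ = 0
    linear_combination (- r i k k' * (G F S i k' ⬝ᵥ v)) * hε
  have hzE' : ∀ i k v, E' F i k ⬝ᵥ (z *ᵥ v) = 0 := by
    intro i k v
    rw [hz, sub_mulVec, dotProduct_sub, hE3, dot_T' hx0AC.2, hx0, X_E', dotProduct_smul,
      smul_eq_mul, dotProduct_comm v]
    linear_combination (- a i * (G F S i k ⬝ᵥ v)) * hε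
  have hzv : ∀ v, z *ᵥ v = ∑ j, (U F j ⬝ᵥ (z *ᵥ v)) • W F j := by
    intro v
    refine frame_zero F hF (fun j => hzW j v) (fun i k => hzE i k v) (fun i k => hzE' i k v) ?_
    rw [dot_T hzT, mulVec_mulVec, hz2, zero_mulVec, dotProduct_zero, mul_zero]
  let l : Matrix J J Φ := fun j j' => U F j ⬝ᵥ (z *ᵥ U F j')
  have hl : lᵀ = ε • l := by
    ext j j'
    rw [transpose_apply, Matrix.smul_apply, smul_eq_mul]
    exact dot_T' hzT _ _
  have hzX : z = X F S ε l 0 0 := by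
    refine ext_mulVec fun v => ?_
    rw [X_mulVec]
    simp only [Pi.zero_apply, Matrix.zero_apply, zero_mul, zero_smul, add_zero,
      Finset.sum_const_zero]
    rw [hzv v]
    refine Finset.sum_congr rfl fun j _ => ?_
    rw [← Finset.sum_smul]
    congr 1
    rw [dot_T' hzT, dotProduct_comm, hzv (U F j), sum_dotProduct, Finset.mul_sum]
    refine Finset.sum_congr rfl fun j' _ => ?_
    rw [smul_dotProduct, smul_eq_mul, ← mul_assoc]
    congr 1
    exact (dot_T' hzT _ _).symm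
  have hfin : y = X F S ε l 0 0 + x0 := by rw [← hzX, hz]; abel
  rw [hfin]
  exact (V F S ε).add_mem ⟨l, 0, 0, hl, fun i => by simp, rfl⟩ hx0m

theorem V_isMax (h2 : (2 : Φ) ≠ 0) (hε : ε * ε = 1) [Nontrivial J] [∀ i, Nontrivial (K i)]
    (hF : F.Full) : IsMaxAC ε (V F S ε) := by
  refine ⟨V_isAC F S ε hε, fun V' hV' hle => le_antisymm (fun y hy => ?_) hle⟩
  exact V_max F S ε h2 hε hF (hV' y hy).2 (hV' y hy).1 fun x hx => anti_of_AC hV' (hle hx) hy

end

end Pool.Agent.H71.Wild
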