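import Mathlib
import Pool.Agent.H71.WildB

set_option autoImplicit false
set_option linter.unusedSectionVars false
set_option linter.unusedSimpArgs false

namespace Pool.Agent.H71.Wild

open Matrix

variable {Φ : Type*} [Field Φ] {n : ℕ}

section

variable {J : Type*} [Fintype J] [DecidableEq J] {I : Type*} [Fintype I] [DecidableEq I]
  {K : I → Type*} [∀ i, Fintype (K i)] [∀ i, DecidableEq (K i)]

variable (F : Frame Φ n (J ⊕ (Σ i, K i))) (S : SubData Φ J K) (ε : Φ)

theorem DG (i : I) (k l : K i) : D F S i k ⬝ᵥ G F S i l = if k = l then 1 else 0 := by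
  rw [dotProduct_comm, GD]
  simp [eq_comm]

theorem Gh_entry (i : I) (m : Matrix (K i) (K i) Φ) (k l : K i) :
    D F S i k ⬝ᵥ (Gh F S i m *ᵥ D F S i l) = m k l := by
  simp [Gh_mulVec, dotProduct_sum, dotProduct_smul, DG, GD]

theorem mul_XT (l : Matrix J J Φ) (a : I → Φ) (r : ∀ i, Matrix (K i) (K i) Φ) {i : I}
    (p q : K i) : X F S ε l a r * (br ε (E' F i p) (G F S i q) - br ε (E' F i q) (G F S i p)) =
      (ε * a i) • Gh F S i (Matrix.single p q 1 - Matrix.single q p 1) := by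
  obtain ⟨l', a', r', -, -, h⟩ := XT_mem F S ε p q
  refine ext_mulVec fun v => ?_
  rw [← mulVec_mulVec, sub_mulVec, br_mulVec, br_mulVec, mulVec_sub, mulVec_add, mulVec_add,
    mulVec_smul, mulVec_smul, mulVec_smul, mulVec_smul, X_E', X_E', X_G, X_G, smul_zero, smul_zero,
    add_zero, add_zero, smul_mulVec, Gh_mulVec]
  simp only [Matrix.sub_apply, sub_mul, sub_smul, Finset.sum_sub_distrib, smul_sub, smul_smul]
  congr 1
  · rw [Finset.sum_eq_single p, Finset.sum_eq_single q]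
    · simp [smul_smul]
      congr 1
      ring
    · intro b _ hb
      simp [Matrix.single_apply, Ne.symm hb]
    · simp
    · intro b _ hb
      exact Finset.sum_eq_zero fun c _ => by simp [Matrix.single_apply, Ne.symm hb]
    · simp
  · rw [Finset.sum_eq_single q, Finset.sum_eq_single p]
    · simp [smul_smul]
      congr 1
      ring
    · intro b _ hb
      simp [Matrix.single_apply, Ne.symm hb]
    · simp
    · intro b _ hb
      exact Finset.sum_eq_zero fun c _ => by simp [Matrix.single_apply, Ne.symm hb]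
    · simp

theorem mul_XS (l : Matrix J J Φ) (a : I → Φ) (r : ∀ i, Matrix (K i) (K i) Φ) (i : I) :
    X F S ε l a r * (∑ k, br ε (E F i k) (G F S i k)) = ε • Gh F S i (r i)ᵀ := by
  refine ext_mulVec fun v => ?_
  rw [← mulVec_mulVec, sum_mulVec, mulVec_sum, smul_mulVec, Gh_mulVec]
  simp only [br_mulVec, mulVec_add, mulVec_smul, X_E, X_G, smul_zero, add_zero, Finset.smul_sum,
    smul_smul]
  rw [Finset.sum_comm]
  refine Finset.sum_congr rfl fun k _ => Finset.sum_congr rfl fun k' _ => ?_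
  congr 1
  rw [transpose_apply]
  ring

/-- an element of `V` which annihilates `V` is a combination of the `w w'ᵗ` -/
theorem rad (hε : ε * ε = 1) [∀ i, Nontrivial (K i)] (l : Matrix J J Φ) (a : I → Φ)
    (r : ∀ i, Matrix (K i) (K i) Φ) (h : ∀ y ∈ V F S ε, X F S ε l a r * y = 0) :
    a = 0 ∧ r = 0 := by
  have hε0 : ε ≠ 0 := by
    rintro rfl
    simp at hε
  constructor
  · funext i
    obtain ⟨p, q, hpq⟩ := exists_pair_ne (K i)
    have h1 := h _ (XT_mem F S ε p q)
    rw [mul_XT] at h1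
    have h2 := congrArg (fun z => D F S i p ⬝ᵥ (z *ᵥ D F S i q)) h1
    simp only [smul_mulVec, dotProduct_smul, Gh_entry, zero_mulVec, dotProduct_zero] at h2
    simpa [Matrix.single_apply, hpq, hpq.symm, hε0] using h2
  · funext i
    have h1 := h _ (XS_mem F S ε i)
    rw [mul_XS] at h1
    ext k k'
    have h2 := congrArg (fun z => D F S i k' ⬝ᵥ (z *ᵥ D F S i k)) h1
    simp only [smul_mulVec, dotProduct_smul, Gh_entry, zero_mulVec, dotProduct_zero,
      transpose_apply] at h2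
    simpa [hε0] using h2

/-- the subspaces -/
def A (i : I) : Submodule Φ (Fin n → Φ) := Submodule.span Φ (Set.range (G F S i))

theorem G_indep (i : I) : LinearIndependent Φ (G F S i) := by
  rw [Fintype.linearIndependent_iff]
  intro g hg k
  have := congrArg (fun z => D F S i k ⬝ᵥ z) hg
  simpa [dotProduct_sum, dotProduct_smul, DG] using this

theorem finrank_A (i : I) : Module.finrank Φ (A F S i) = Fintype.card (K i) :=
  finrank_span_eq_card (G_indep F S i)

variable (S' : SubData Φ J K)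

/-- one direction of an equivalence -/
theorem qW (hε : ε * ε = 1) [Nontrivial J] [∀ i, Nontrivial (K i)]
    {q : Matrix (Fin n) (Fin n) Φ} (hq : qᵀ * q = 1)
    (h1 : ∀ x ∈ V F S ε, q * x * qᵀ ∈ V F S' ε) (h2 : ∀ y ∈ V F S' ε, qᵀ * y * q ∈ V F S ε)
    (j : J) : q *ᵥ W F j ∈ Submodule.span Φ (Set.range (W F)) := by
  have hq' : q * qᵀ = 1 := mul_eq_one_comm.mp hq
  obtain ⟨l, hl⟩ := exists_ne j
  have hx := X_single F S ε hε (j := j) (l := l)
  obtain ⟨l', a', r', hl', hr', e⟩ := h1 _ hx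
  have h0 : ∀ y ∈ V F S ε, br ε (W F j) (W F l) * y = 0 := by
    rintro y ⟨l'', a'', r'', -, -, rfl⟩
    refine ext_mulVec fun v => ?_
    rw [← mulVec_mulVec, br_mulVec, zero_mulVec]
    have hk : ∀ j, W F j ⬝ᵥ (X F S ε l'' a'' r'' *ᵥ v) = 0 := by
      intro j
      rw [X_mulVec]
      simp [dotProduct_sum, dotProduct_add, dotProduct_smul, WW, WE, WE', WG]
    rw [hk, hk]
    simp
  obtain ⟨ha, hr⟩ := rad F S' ε hε l' a' r' (fun y hy => by
    have h3 := h0 _ (h2 y hy)
    have h4 : q * (br ε (W F j) (W F l) * (qᵀ * y * q)) * qᵀ = 0 := by rw [h3]; simp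
    rw [← e, ← h4]
    simp only [Matrix.mul_assoc]
    rw [hq', Matrix.mul_one])
  have h5 : (q * br ε (W F j) (W F l) * qᵀ) *ᵥ (q *ᵥ U F l) = q *ᵥ W F j := by
    rw [mulVec_mulVec, Matrix.mul_assoc, hq, Matrix.mul_one, ← mulVec_mulVec, br_mulVec]
    simp [WU, hl.symm]
  rw [← h5, e, ha, hr, X_mulVec]
  simp only [Pi.zero_apply, Matrix.zero_apply, zero_mul, zero_smul, add_zero,
      Finset.sum_const_zero]
  exact Submodule.sum_mem _ fun j' _ => Submodule.sum_mem _ fun k' _ =>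
    Submodule.smul_mem _ _ (Submodule.subset_span ⟨j', rfl⟩)

theorem qtW (hε : ε * ε = 1) [Nontrivial J] [∀ i, Nontrivial (K i)]
    {q : Matrix (Fin n) (Fin n) Φ} (hq : qᵀ * q = 1)
    (h1 : ∀ x ∈ V F S ε, q * x * qᵀ ∈ V F S' ε) (h2 : ∀ y ∈ V F S' ε, qᵀ * y * q ∈ V F S ε)
    {d : Fin n → Φ} (hd : ∀ j, W F j ⬝ᵥ d = 0) (j : J) : W F j ⬝ᵥ (qᵀ *ᵥ d) = 0 := by
  have e : W F j ⬝ᵥ (qᵀ *ᵥ d) = (q *ᵥ W F j) ⬝ᵥ d := by
    rw [dotProduct_mulVec, vecMul_transpose]
  rw [e]
  have h := qW F S ε S' hε hq h1 h2 j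
  generalize q *ᵥ W F j = x at h
  induction h using Submodule.span_induction with
  | mem x hx =>
    obtain ⟨j', rfl⟩ := hx
    exact hd j'
  | zero => exact zero_dotProduct _
  | add x y _ _ hx hy => rw [add_dotProduct, hx, hy, add_zero]
  | smul c x _ hx => rw [smul_dotProduct, hx, smul_zero]

/-- the image of `S i` under an equivalence is not in the second part -/
theorem a_ne (hε : ε * ε = 1) [∀ i, Nontrivial (K i)]
    {q : Matrix (Fin n) (Fin n) Φ} (hq : qᵀ * q = 1)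
    (h1 : ∀ x ∈ V F S ε, q * x * qᵀ ∈ V F S' ε) (i : I)
    (hc : Fintype.card I + 1 < Fintype.card (K i))
    (l' : Matrix J J Φ) (a' : I → Φ) (r' : ∀ i, Matrix (K i) (K i) Φ)
    (he : q * (∑ k, br ε (E F i k) (G F S i k)) * qᵀ = X F S' ε l' a' r') : a' ≠ 0 := by
  intro ha
  have hq' : q * qᵀ = 1 := mul_eq_one_comm.mp hq
  have hε0 : ε ≠ 0 := by
    rintro rfl
    simp at hε
  obtain ⟨p0⟩ : Nonempty (K i) := inferInstance
  -- products
  have hS := XS_mem F S ε i
  have key : ∀ k : K i, ∃ c : I → Φ,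
      q * Gh F S i (Matrix.single p0 k 1 - Matrix.single k p0 1) * qᵀ =
        ∑ j, c j • Gh F S' j (r' j)ᵀ := by
    intro k
    obtain ⟨l2, a2, r2, -, -, e2⟩ := h1 _ (XT_mem F S ε p0 k)
    refine ⟨a2, ?_⟩
    have e3 := mul_XT F S ε 0 (Pi.single i 1) 0 p0 k
    have e4 : X F S ε 0 (Pi.single i 1) 0 = ∑ k, br ε (E F i k) (G F S i k) := by
      rw [X, Finset.sum_eq_single i]
      · simp
      · intro b _ hb
        simp [Pi.single_eq_of_ne hb]
      · simp
    rw [e4, Pi.single_eq_same, mul_one] at e3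
    have e5 : Gh F S i (Matrix.single p0 k 1 - Matrix.single k p0 1) =
        ε • ((∑ k, br ε (E F i k) (G F S i k)) *
          (br ε (E' F i p0) (G F S i k) - br ε (E' F i k) (G F S i p0))) := by
      rw [e3, smul_smul, hε, one_smul]
    have e6 : q * ((∑ k, br ε (E F i k) (G F S i k)) *
          (br ε (E' F i p0) (G F S i k) - br ε (E' F i k) (G F S i p0))) * qᵀ =
        (q * (∑ k, br ε (E F i k) (G F S i k)) * qᵀ) *
          (q * (br ε (E' F i p0) (G F S i k) - br ε (E' F i k) (G F S i p0)) * qᵀ) := by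
      simp only [Matrix.mul_assoc]
      rw [← Matrix.mul_assoc qᵀ q, hq, Matrix.one_mul]
    rw [e5, Matrix.mul_smul, Matrix.smul_mul, e6, he, e2, X_mul, ha]
    simp only [Pi.zero_apply, zero_smul, zero_add, smul_smul, hε, one_smul]
    refine Finset.sum_congr rfl fun j _ => ?_
    simp only [Gh, Matrix.smul_apply, smul_eq_mul, mul_smul, Finset.smul_sum]
  choose c hc' using key
  -- a linear relation
  let f : ({k : K i // k ≠ p0} → Φ) →ₗ[Φ] (I → Φ) :=
    Matrix.mulVecLin (Matrix.of fun (j : I) (k : {k : K i // k ≠ p0}) => c k.1 j)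
  have hlt : Module.finrank Φ (I → Φ) < Module.finrank Φ ({k : K i // k ≠ p0} → Φ) := by
    rw [Module.finrank_fintype_fun_eq_card, Module.finrank_fintype_fun_eq_card,
      Fintype.card_subtype_compl, Fintype.card_subtype_eq]
    omega
  obtain ⟨x, hx, hx0⟩ := Submodule.exists_mem_ne_zero_of_ne_bot
    (LinearMap.ker_ne_bot_of_finrank_lt (f := f) hlt)
  apply hx0
  have hx' : ∀ j, ∑ k : {k : K i // k ≠ p0}, x k * c k.1 j = 0 := by
    intro j
    have := congrFun (LinearMap.mem_ker.mp hx) j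
    simpa [f, mulVec, dotProduct, mul_comm] using this
  have hsum : q * (∑ k : {k : K i // k ≠ p0}, x k • Gh F S i (Matrix.single p0 k.1 1 -
      Matrix.single k.1 p0 1)) * qᵀ = 0 := by
    rw [Matrix.mul_sum, Matrix.sum_mul]
    simp only [Matrix.mul_smul, Matrix.smul_mul, hc', Finset.smul_sum, smul_smul]
    rw [Finset.sum_comm]
    refine Finset.sum_eq_zero fun j _ => ?_
    rw [← Finset.sum_smul, hx', zero_smul]
  have hsum' : (∑ k : {k : K i // k ≠ p0}, x k • Gh F S i (Matrix.single p0 k.1 1 -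
      Matrix.single k.1 p0 1)) = 0 := by
    have h3 : qᵀ * (q * (∑ k : {k : K i // k ≠ p0}, x k • Gh F S i (Matrix.single p0 k.1 1 -
      Matrix.single k.1 p0 1)) * qᵀ) * q = 0 := by rw [hsum]; simp
    simp only [← Matrix.mul_assoc] at h3
    rw [hq, Matrix.one_mul, Matrix.mul_assoc, hq, Matrix.mul_one] at h3
    exact h3
  funext k
  have h4 := congrArg (fun z => D F S i p0 ⬝ᵥ (z *ᵥ D F S i k.1)) hsum'
  simp only [sum_mulVec, smul_mulVec, dotProduct_sum, dotProduct_smul, Gh_entry, zero_mulVec,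
    dotProduct_zero] at h4
  rw [Finset.sum_eq_single k] at h4
  · simpa [Matrix.single_apply, k.2] using h4
  · intro b _ hb
    have : b.1 ≠ k.1 := fun h => hb (Subtype.ext h)
    simp [Matrix.single_apply, this, b.2]
  · simp

theorem star (hε : ε * ε = 1) [Nontrivial J] [∀ i, Nontrivial (K i)]
    {q : Matrix (Fin n) (Fin n) Φ} (hq : qᵀ * q = 1)
    (h1 : ∀ x ∈ V F S ε, q * x * qᵀ ∈ V F S' ε) (h2 : ∀ y ∈ V F S' ε, qᵀ * y * q ∈ V F S ε)
    (i : I) (hc : Fintype.card I + 1 < Fintype.card (K i)) :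
    ∃ j, A F S' j ≤ (A F S i).map q.mulVecLin := by
  have hε0 : ε ≠ 0 := by
    rintro rfl
    simp at hε
  obtain ⟨l', a', r', hl', hr', e⟩ := h1 _ (XS_mem F S ε i)
  have ha := a_ne F S ε S' hε hq h1 i hc l' a' r' e
  obtain ⟨j, hj⟩ : ∃ j, a' j ≠ 0 := by
    by_contra hcon
    push Not at hcon
    exact ha (funext hcon)
  refine ⟨j, Submodule.span_le.mpr ?_⟩
  rintro _ ⟨k, rfl⟩
  have h3 := X_E' F S' ε l' a' r' j k
  rw [← e] at h3
  have h4 : G F S' j k = (a' j * ε)⁻¹ • (q *ᵥ ((∑ k, br ε (E F i k) (G F S i k)) *ᵥ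
      (qᵀ *ᵥ E' F j k))) := by
    rw [mulVec_mulVec, mulVec_mulVec, h3, smul_smul,
      inv_mul_cancel₀ (mul_ne_zero hj hε0), one_smul]
  rw [SetLike.mem_coe, h4]
  refine Submodule.smul_mem _ _ ⟨_, ?_, rfl⟩
  have h5 : ∀ j', W F j' ⬝ᵥ (qᵀ *ᵥ E' F j k) = 0 :=
    qtW F S ε S' hε hq h1 h2 (fun j' => WE' F j' j k)
  have h6 : ∀ i' k', G F S i' k' ⬝ᵥ (qᵀ *ᵥ E' F j k) = 0 := by
    intro i' k'
    simp [G_dot, h5]
  rw [sum_mulVec]
  refine Submodule.sum_mem _ fun k' _ => ?_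
  rw [br_mulVec, h6, zero_smul, zero_add]
  exact Submodule.smul_mem _ _ (Submodule.subset_span ⟨k', rfl⟩)

theorem A_eq (hε : ε * ε = 1) [Nontrivial J] [∀ i, Nontrivial (K i)]
    {q : Matrix (Fin n) (Fin n) Φ} (hq : qᵀ * q = 1)
    (h1 : ∀ x ∈ V F S ε, q * x * qᵀ ∈ V F S' ε) (h2 : ∀ y ∈ V F S' ε, qᵀ * y * q ∈ V F S ε)
    (hc : ∀ i, Fintype.card I + 1 < Fintype.card (K i))
    (hinj : ∀ i i', Fintype.card (K i) = Fintype.card (K i') → i = i')
    (hA : ∀ i i', A F S i' ≤ A F S i → i' = i) (i : I) :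
    A F S' i = (A F S i).map q.mulVecLin := by
  have hq' : q * qᵀ = 1 := mul_eq_one_comm.mp hq
  obtain ⟨j, hj⟩ := star F S ε S' hε hq h1 h2 i (hc i)
  obtain ⟨i', hi'⟩ := star F S' ε S (q := qᵀ) hε (by rw [transpose_transpose]; exact hq')
    (fun x hx => by rw [transpose_transpose]; exact h2 x hx)
    (fun y hy => by rw [transpose_transpose]; exact h1 y hy) j (hc j)
  have e1 : ∀ B : Submodule Φ (Fin n → Φ), (B.map q.mulVecLin).map qᵀ.mulVecLin = B := by
    intro B
    rw [← Submodule.map_comp, ← Matrix.mulVecLin_mul, hq, Matrix.mulVecLin_one, Submodule.map_id]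
  have e2 : ∀ B : Submodule Φ (Fin n → Φ), (B.map qᵀ.mulVecLin).map q.mulVecLin = B := by
    intro B
    rw [← Submodule.map_comp, ← Matrix.mulVecLin_mul, hq', Matrix.mulVecLin_one, Submodule.map_id]
  have h3 : A F S i' ≤ A F S i := by
    refine hi'.trans ?_
    rw [← e1 (A F S i)]
    exact Submodule.map_mono hj
  have h4 := hA i i' h3
  subst h4
  have h5 : (A F S i').map q.mulVecLin ≤ A F S' j := by
    rw [← e2 (A F S' j)]
    exact Submodule.map_mono hi'
  have h6 := le_antisymm hj h5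
  have h7 : Fintype.card (K i') = Fintype.card (K j) := by
    rw [← finrank_A F S i', ← finrank_A F S' j, h6]
    refine (Submodule.equivMapOfInjective _ ?_ _).finrank_eq
    intro x y hxy
    have h8 : qᵀ *ᵥ (q *ᵥ x) = qᵀ *ᵥ (q *ᵥ y) := congrArg (fun z => qᵀ *ᵥ z) hxy
    rwa [mulVec_mulVec, mulVec_mulVec, hq, one_mulVec, one_mulVec] at h8
  rw [hinj _ _ h7]
  exact hinj _ _ h7 ▸ h6

end

end Pool.Agent.H71.Wild
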