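import Mathlib
import Pool.Agent.H71.WildC

set_option autoImplicit false
set_option linter.unusedSectionVars false
set_option linter.unusedSimpArgs false

namespace Pool.Agent.H71.Wild

open Matrix

variable {Φ : Type*} [Field Φ] {n : ℕ}

section

variable {J : Type*} [Fintype J] [DecidableEq J] {I : Type*} [Fintype I] [DecidableEq I]
  {K : I → Type*} [∀ i, Fintype (K i)] [∀ i, DecidableEq (K i)]

variable (F : Frame Φ n (J ⊕ (Σ i, K i))) (S : SubData Φ J K) (ε : Φ)

/-- generators -/
def gen : (J × J) ⊕ (I ⊕ (Σ i, K i × K i)) → Matrix (Fin n) (Fin n) Φ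
  | Sum.inl (j, l) => br ε (W F j) (W F l)
  | Sum.inr (Sum.inl i) => ∑ k, br ε (E F i k) (G F S i k)
  | Sum.inr (Sum.inr ⟨i, (p, q)⟩) => br ε (E' F i p) (G F S i q) - br ε (E' F i q) (G F S i p)

theorem V_eq_span (h2 : (2 : Φ) ≠ 0) (hε : ε * ε = 1) :
    V F S ε = Submodule.span Φ (Set.range (gen F S ε)) := by
  apply le_antisymm
  · rintro x ⟨l, a, r, hl, hr, rfl⟩
    have e1 : (2 : Φ) • (∑ j, ∑ j', l j j' • vecMulVec (W F j) (W F j')) =
        ∑ j, ∑ j', l j j' • br ε (W F j) (W F j') := by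
      have : ∑ j, ∑ j', l j j' • (ε • vecMulVec (W F j') (W F j)) =
          ∑ j, ∑ j', l j j' • vecMulVec (W F j) (W F j') := by
        rw [Finset.sum_comm]
        refine Finset.sum_congr rfl fun j _ => Finset.sum_congr rfl fun j' _ => ?_
        have := congrFun (congrFun hl j) j'
        rw [transpose_apply, Matrix.smul_apply, smul_eq_mul] at this
        rw [smul_smul, this, mul_right_comm, hε, one_mul]
      simp only [br, smul_add, Finset.sum_add_distrib]
      rw [this, two_smul]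
    have e2 : ∀ i, (2 : Φ) • (∑ k, ∑ k', r i k k' • br ε (E' F i k) (G F S i k')) =
        ∑ k, ∑ k', r i k k' • (br ε (E' F i k) (G F S i k') - br ε (E' F i k') (G F S i k)) := by
      intro i
      have : ∑ k, ∑ k', r i k k' • br ε (E' F i k') (G F S i k) =
          - ∑ k, ∑ k', r i k k' • br ε (E' F i k) (G F S i k') := by
        rw [Finset.sum_comm, ← Finset.sum_neg_distrib]
        refine Finset.sum_congr rfl fun j _ => ?_
        rw [← Finset.sum_neg_distrib]
        refine Finset.sum_congr rfl fun j' _ => ?_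
        have := congrFun (congrFun (hr i) j) j'
        rw [transpose_apply, Matrix.neg_apply] at this
        rw [this, neg_smul]
      simp only [smul_sub, Finset.sum_sub_distrib]
      rw [this, two_smul, sub_neg_eq_add]
    have e3 : X F S ε l a r = (2 : Φ)⁻¹ • (∑ j, ∑ j', l j j' • br ε (W F j) (W F j')) +
        ∑ i, (a i • (∑ k, br ε (E F i k) (G F S i k)) + (2 : Φ)⁻¹ • ∑ k, ∑ k', r i k k' •
          (br ε (E' F i k) (G F S i k') - br ε (E' F i k') (G F S i k))) := by
      rw [X, ← e1, smul_smul, inv_mul_cancel₀ h2, one_smul]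
      congr 1
      refine Finset.sum_congr rfl fun i _ => ?_
      rw [← e2, smul_smul, inv_mul_cancel₀ h2, one_smul]
    rw [e3]
    refine Submodule.add_mem _ (Submodule.smul_mem _ _ (Submodule.sum_mem _ fun j _ =>
      Submodule.sum_mem _ fun j' _ => Submodule.smul_mem _ _ (Submodule.subset_span
        ⟨Sum.inl (j, j'), rfl⟩))) (Submodule.sum_mem _ fun i _ => Submodule.add_mem _
          (Submodule.smul_mem _ _ (Submodule.subset_span ⟨Sum.inr (Sum.inl i), rfl⟩))
          (Submodule.smul_mem _ _ (Submodule.sum_mem _ fun k _ => Submodule.sum_mem _ fun k' _ =>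
            Submodule.smul_mem _ _ (Submodule.subset_span ⟨Sum.inr (Sum.inr ⟨i, (k, k')⟩), rfl⟩))))
  · rw [Submodule.span_le]
    rintro _ ⟨(⟨j, l⟩ | i | ⟨i, p, q⟩), rfl⟩
    · exact X_single F S ε hε
    · exact XS_mem F S ε i
    · exact XT_mem F S ε p q

/-! ### isometries from changes of the frame -/

theorem conj_vmv (q : Matrix (Fin n) (Fin n) Φ) (a b : Fin n → Φ) :
    q * vecMulVec a b * qᵀ = vecMulVec (q *ᵥ a) (q *ᵥ b) := by
  refine ext_mulVec fun v => ?_
  rw [← mulVec_mulVec, ← mulVec_mulVec, vmv_mulVec, vmv_mulVec, mulVec_smul]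
  congr 1
  rw [dotProduct_mulVec, vecMul_transpose]

theorem conj_br (q : Matrix (Fin n) (Fin n) Φ) (a b : Fin n → Φ) :
    q * br ε a b * qᵀ = br ε (q *ᵥ a) (q *ᵥ b) := by
  rw [br, Matrix.mul_add, Matrix.add_mul, Matrix.mul_smul, Matrix.smul_mul, conj_vmv, conj_vmv, br]

theorem br_add_left (a b c : Fin n → Φ) : br ε (a + b) c = br ε a c + br ε b c := by
  simp only [br, add_vecMulVec, vecMulVec_add, smul_add]
  abel

theorem br_add_right (a b c : Fin n → Φ) : br ε a (b + c) = br ε a b + br ε a c := by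
  simp only [br, add_vecMulVec, vecMulVec_add, smul_add]
  abel

theorem br_smul_left (t : Φ) (a b : Fin n → Φ) : br ε (t • a) b = t • br ε a b := by
  rw [br, br, smul_vecMulVec, vecMulVec_smul, smul_add, smul_comm ε t]

theorem br_smul_right (t : Φ) (a b : Fin n → Φ) : br ε a (t • b) = t • br ε a b := by
  rw [br, br, smul_vecMulVec, vecMulVec_smul, smul_add, smul_comm ε t]

/-- `br` as a bilinear map -/
def brL : (Fin n → Φ) →ₗ[Φ] (Fin n → Φ) →ₗ[Φ] Matrix (Fin n) (Fin n) Φ :=
  LinearMap.mk₂ Φ (br ε) (br_add_left ε) (br_smul_left ε) (br_add_right ε) (br_smul_right ε)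

theorem brL_apply (a b : Fin n → Φ) : brL ε a b = br ε a b := rfl

/-- the matrix with columns `w h` -/
def Wf {H : Type*} [DecidableEq H] (F : Frame Φ n H) : Matrix (Fin n) H Φ := fun x h => F.w h x
/-- the matrix with columns `u h` -/
def Uf {H : Type*} [DecidableEq H] (F : Frame Φ n H) : Matrix (Fin n) H Φ := fun x h => F.u h x

theorem WfWf {H : Type*} [DecidableEq H] (F : Frame Φ n H) : (Wf F)ᵀ * Wf F = 0 := by
  ext i j
  exact F.ww i j
theorem UfUf {H : Type*} [DecidableEq H] (F : Frame Φ n H) : (Uf F)ᵀ * Uf F = 0 := by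
  ext i j
  exact F.uu i j
theorem UfWf {H : Type*} [DecidableEq H] (F : Frame Φ n H) : (Uf F)ᵀ * Wf F = 1 := by
  ext i j
  rw [Matrix.one_apply]
  exact F.uw i j
theorem WfUf {H : Type*} [DecidableEq H] (F : Frame Φ n H) : (Wf F)ᵀ * Uf F = 1 := by
  ext i j
  rw [Matrix.one_apply]
  exact F.wu i j

/-- the isometry which acts by `A` on the `w h`, by the contragredient `Bᵗ` on the `u h`, and
trivially on the orthogonal complement -/
def isom {H : Type*} [DecidableEq H] [Fintype H] (F : Frame Φ n H) (A B : Matrix H H Φ) :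
    Matrix (Fin n) (Fin n) Φ :=
  1 + Wf F * (A - 1) * (Uf F)ᵀ + Uf F * (Bᵀ - 1) * (Wf F)ᵀ

theorem isom_Wf {H : Type*} [DecidableEq H] [Fintype H] (F : Frame Φ n H) (A B : Matrix H H Φ) :
    isom F A B * Wf F = Wf F * A := by
  rw [isom, Matrix.add_mul, Matrix.add_mul, Matrix.one_mul, Matrix.mul_assoc, UfWf,
    Matrix.mul_assoc _ _ (Wf F), WfWf, Matrix.mul_one, Matrix.mul_zero, add_zero, Matrix.mul_sub,
    Matrix.mul_one]
  abel

theorem isom_Uf {H : Type*} [DecidableEq H] [Fintype H] (F : Frame Φ n H) (A B : Matrix H H Φ) :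
    isom F A B * Uf F = Uf F * Bᵀ := by
  rw [isom, Matrix.add_mul, Matrix.add_mul, Matrix.one_mul, Matrix.mul_assoc, UfUf,
    Matrix.mul_assoc _ _ (Uf F), WfUf, Matrix.mul_one, Matrix.mul_zero, add_zero, Matrix.mul_sub,
    Matrix.mul_one]
  abel

theorem isom_orth {H : Type*} [DecidableEq H] [Fintype H] (F : Frame Φ n H) {A B : Matrix H H Φ}
    (hAB : A * B = 1) : isom F A B * (isom F A B)ᵀ = 1 := by
  have hBA : B * A = 1 := mul_eq_one_comm.mp hAB
  have h1 : Bᵀ * Aᵀ = 1 := by rw [← transpose_mul, hAB, transpose_one]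
  have hT : (isom F A B)ᵀ = 1 + Uf F * ((Aᵀ - 1) * (Wf F)ᵀ) + Wf F * ((B - 1) * (Uf F)ᵀ) := by
    rw [isom, transpose_add, transpose_add, transpose_one, transpose_mul, transpose_mul,
      transpose_mul, transpose_mul, transpose_transpose, transpose_transpose, transpose_sub,
      transpose_sub, transpose_transpose, transpose_one]
  have a1 : isom F A B * (Uf F * ((Aᵀ - 1) * (Wf F)ᵀ)) = Uf F * (1 - Bᵀ) * (Wf F)ᵀ := by
    rw [← Matrix.mul_assoc, isom_Uf, Matrix.mul_assoc (Uf F) Bᵀ, ← Matrix.mul_assoc Bᵀ,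
      Matrix.mul_sub Bᵀ, h1, Matrix.mul_one, ← Matrix.mul_assoc]
  have a2 : isom F A B * (Wf F * ((B - 1) * (Uf F)ᵀ)) = Wf F * (1 - A) * (Uf F)ᵀ := by
    rw [← Matrix.mul_assoc, isom_Wf, Matrix.mul_assoc (Wf F) A, ← Matrix.mul_assoc A,
      Matrix.mul_sub A, hAB, Matrix.mul_one, ← Matrix.mul_assoc]
  rw [hT, Matrix.mul_add, Matrix.mul_add, Matrix.mul_one, a1, a2, isom]
  simp only [Matrix.mul_sub, Matrix.sub_mul]
  abel

theorem isom_w {H : Type*} [DecidableEq H] [Fintype H] (F : Frame Φ n H) (A B : Matrix H H Φ)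
    (h : H) : isom F A B *ᵥ F.w h = ∑ h', A h' h • F.w h' := by
  have := congrFun (congrArg Matrix.transpose (isom_Wf F A B)) h
  ext x
  have h3 := congrFun this x
  simp only [transpose_apply, Matrix.mul_apply] at h3
  simp only [mulVec, dotProduct, Finset.sum_apply, Pi.smul_apply, smul_eq_mul]
  rw [show (∑ i, isom F A B x i * F.w h i) = ∑ j, isom F A B x j * Wf F j h from rfl, h3]
  exact Finset.sum_congr rfl fun j _ => mul_comm _ _

theorem isom_u {H : Type*} [DecidableEq H] [Fintype H] (F : Frame Φ n H) (A B : Matrix H H Φ)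
    (h : H) : isom F A B *ᵥ F.u h = ∑ h', B h h' • F.u h' := by
  have := congrFun (congrArg Matrix.transpose (isom_Uf F A B)) h
  ext x
  have h3 := congrFun this x
  simp only [transpose_apply, Matrix.mul_apply] at h3
  simp only [mulVec, dotProduct, Finset.sum_apply, Pi.smul_apply, smul_eq_mul]
  rw [show (∑ i, isom F A B x i * F.u h i) = ∑ j, isom F A B x j * Uf F j h from rfl, h3]
  exact Finset.sum_congr rfl fun j _ => mul_comm _ _

/-- block matrices -/
def blk (AJ : Matrix J J Φ) (AK : ∀ i, Matrix (K i) (K i) Φ) :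
    Matrix (J ⊕ (Σ i, K i)) (J ⊕ (Σ i, K i)) Φ :=
  Matrix.fromBlocks AJ 0 0 (Matrix.blockDiagonal' AK)

theorem blk_mul (AJ BJ : Matrix J J Φ) (AK BK : ∀ i, Matrix (K i) (K i) Φ) :
    blk AJ AK * blk BJ BK = blk (AJ * BJ) (fun i => AK i * BK i) := by
  rw [blk, blk, Matrix.fromBlocks_multiply, blk, Matrix.blockDiagonal'_mul]
  simp

theorem blk_one : blk (1 : Matrix J J Φ) (fun i => (1 : Matrix (K i) (K i) Φ)) = 1 := by
  rw [blk]
  have : (Matrix.blockDiagonal' fun i => (1 : Matrix (K i) (K i) Φ)) = 1 :=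
    Matrix.blockDiagonal'_one
  rw [this, Matrix.fromBlocks_one]

variable (S' : SubData Φ J K)

theorem isom_W (AJ BJ : Matrix J J Φ) (AK BK : ∀ i, Matrix (K i) (K i) Φ) (j : J) :
    isom F (blk AJ AK) (blk BJ BK) *ᵥ W F j = ∑ j', AJ j' j • W F j' := by
  rw [W, isom_w, Fintype.sum_sum_type]
  simp [blk, W]

theorem isom_E' (AJ BJ : Matrix J J Φ) (AK BK : ∀ i, Matrix (K i) (K i) Φ) (i : I) (k : K i) :
    isom F (blk AJ AK) (blk BJ BK) *ᵥ E' F i k = ∑ k', AK i k' k • E' F i k' := by
  rw [E', isom_w, Fintype.sum_sum_type]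
  simp only [blk, Matrix.fromBlocks_apply₁₂, Matrix.zero_apply, zero_smul, Finset.sum_const_zero,
    Matrix.fromBlocks_apply₂₂, zero_add]
  rw [Fintype.sum_sigma, Finset.sum_eq_single i]
  · exact Finset.sum_congr rfl fun k' _ => by rw [Matrix.blockDiagonal'_apply_eq]; rfl
  · intro i' _ hi
    exact Finset.sum_eq_zero fun k' _ => by
      rw [Matrix.blockDiagonal'_apply_ne _ _ _ hi, zero_smul]
  · simp

theorem isom_E (AJ BJ : Matrix J J Φ) (AK BK : ∀ i, Matrix (K i) (K i) Φ) (i : I) (k : K i) :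
    isom F (blk AJ AK) (blk BJ BK) *ᵥ E F i k = ∑ k', BK i k k' • E F i k' := by
  rw [E, isom_u, Fintype.sum_sum_type]
  simp only [blk, Matrix.fromBlocks_apply₂₁, Matrix.zero_apply, zero_smul, Finset.sum_const_zero,
    Matrix.fromBlocks_apply₂₂, zero_add]
  rw [Fintype.sum_sigma, Finset.sum_eq_single i]
  · exact Finset.sum_congr rfl fun k' _ => by rw [Matrix.blockDiagonal'_apply_eq]; rfl
  · intro i' _ hi
    exact Finset.sum_eq_zero fun k' _ => by
      rw [Matrix.blockDiagonal'_apply_ne _ _ _ (Ne.symm hi), zero_smul]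
  · simp

theorem isom_G (AJ BJ : Matrix J J Φ) (AK BK : ∀ i, Matrix (K i) (K i) Φ)
    (hG : ∀ i k j', ∑ j, S.Γ i k j * AJ j' j = ∑ k', AK i k' k * S'.Γ i k' j') (i : I) (k : K i) :
    isom F (blk AJ AK) (blk BJ BK) *ᵥ G F S i k = ∑ k', AK i k' k • G F S' i k' := by
  rw [G, mulVec_sum]
  simp only [mulVec_smul, isom_W, G, Finset.smul_sum, smul_smul]
  rw [Finset.sum_comm]
  conv_rhs => rw [Finset.sum_comm]
  refine Finset.sum_congr rfl fun j' _ => ?_
  rw [← Finset.sum_smul, ← Finset.sum_smul, hG]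

theorem isom_V (h2 : (2 : Φ) ≠ 0) (hε : ε * ε = 1)
    {AJ BJ : Matrix J J Φ} {AK BK : ∀ i, Matrix (K i) (K i) Φ}
    (hAK : ∀ i, AK i * BK i = 1)
    (hG : ∀ i k j', ∑ j, S.Γ i k j * AJ j' j = ∑ k', AK i k' k * S'.Γ i k' j')
    {x : Matrix (Fin n) (Fin n) Φ} (hx : x ∈ V F S ε) :
    isom F (blk AJ AK) (blk BJ BK) * x * (isom F (blk AJ AK) (blk BJ BK))ᵀ ∈ V F S' ε := by
  rw [V_eq_span F S ε h2 hε] at hx
  induction hx using Submodule.span_induction with
  | mem x hx =>
    rw [V_eq_span F S' ε h2 hε]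
    obtain ⟨(⟨j, l⟩ | i | ⟨i, p, q⟩), rfl⟩ := hx
    · change _ * br ε (W F j) (W F l) * _ ∈ _
      rw [conj_br, isom_W, isom_W, ← brL_apply, LinearMap.map_sum₂]
      refine Submodule.sum_mem _ fun j' _ => ?_
      rw [map_sum]
      refine Submodule.sum_mem _ fun l' _ => ?_
      rw [map_smul, map_smul, LinearMap.smul_apply]
      exact Submodule.smul_mem _ _ (Submodule.smul_mem _ _
        (Submodule.subset_span ⟨Sum.inl (j', l'), rfl⟩))
    · change _ * (∑ k, br ε (E F i k) (G F S i k)) * _ ∈ _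
      rw [Matrix.mul_sum, Matrix.sum_mul]
      have e : ∀ k, isom F (blk AJ AK) (blk BJ BK) * br ε (E F i k) (G F S i k) *
          (isom F (blk AJ AK) (blk BJ BK))ᵀ = ∑ k', ∑ k'', (AK i k'' k * BK i k k') •
            br ε (E F i k') (G F S' i k'') := by
        intro k
        rw [conj_br, isom_E, isom_G F S S' AJ BJ AK BK hG, ← brL_apply, LinearMap.map_sum₂]
        refine Finset.sum_congr rfl fun k' _ => ?_
        rw [map_sum]
        refine Finset.sum_congr rfl fun k'' _ => ?_
        rw [map_smul, map_smul, LinearMap.smul_apply, smul_smul, brL_apply]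
      simp only [e]
      have e2 : ∑ k, ∑ k', ∑ k'', (AK i k'' k * BK i k k') • br ε (E F i k') (G F S' i k'') =
          ∑ k, br ε (E F i k) (G F S' i k) := by
        rw [Finset.sum_comm]
        refine Finset.sum_congr rfl fun k' _ => ?_
        rw [Finset.sum_comm]
        have : ∀ k'', ∑ k, (AK i k'' k * BK i k k') • br ε (E F i k') (G F S' i k'') =
            (if k'' = k' then (1 : Φ) else 0) • br ε (E F i k') (G F S' i k'') := by
          intro k''
          rw [← Finset.sum_smul]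
          congr 1
          have h3 := congrFun (congrFun (hAK i) k'') k'
          rw [Matrix.mul_apply, Matrix.one_apply] at h3
          exact h3
        simp only [this, ite_smul, one_smul, zero_smul, Finset.sum_ite_eq', Finset.mem_univ,
          if_true]
      rw [e2]
      exact Submodule.subset_span ⟨Sum.inr (Sum.inl i), rfl⟩
    · change _ * (br ε (E' F i p) (G F S i q) - br ε (E' F i q) (G F S i p)) * _ ∈ _
      rw [Matrix.mul_sub, Matrix.sub_mul]
      have e : ∀ p q, isom F (blk AJ AK) (blk BJ BK) * br ε (E' F i p) (G F S i q) *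
          (isom F (blk AJ AK) (blk BJ BK))ᵀ = ∑ k', ∑ k'', (AK i k'' q * AK i k' p) •
            br ε (E' F i k') (G F S' i k'') := by
        intro p q
        rw [conj_br, isom_E', isom_G F S S' AJ BJ AK BK hG, ← brL_apply, LinearMap.map_sum₂]
        refine Finset.sum_congr rfl fun k' _ => ?_
        rw [map_sum]
        refine Finset.sum_congr rfl fun k'' _ => ?_
        rw [map_smul, map_smul, LinearMap.smul_apply, smul_smul, brL_apply]
      have e2 : (∑ k', ∑ k'', (AK i k'' q * AK i k' p) • br ε (E' F i k') (G F S' i k'')) -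
          (∑ k', ∑ k'', (AK i k'' p * AK i k' q) • br ε (E' F i k') (G F S' i k'')) =
          ∑ k', ∑ k'', (AK i k'' q * AK i k' p) •
            (br ε (E' F i k') (G F S' i k'') - br ε (E' F i k'') (G F S' i k')) := by
        simp only [smul_sub, Finset.sum_sub_distrib]
        congr 1
        rw [Finset.sum_comm]
        exact Finset.sum_congr rfl fun _ _ => Finset.sum_congr rfl fun _ _ => by
          rw [mul_comm]
      rw [e, e, e2]
      exact Submodule.sum_mem _ fun k' _ => Submodule.sum_mem _ fun k'' _ =>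
        Submodule.smul_mem _ _ (Submodule.subset_span ⟨Sum.inr (Sum.inr ⟨i, (k', k'')⟩), rfl⟩)
  | zero => simp
  | add x y _ _ hx hy =>
    rw [Matrix.mul_add, Matrix.add_mul]
    exact Submodule.add_mem _ hx hy
  | smul c x _ hx =>
    rw [Matrix.mul_smul, Matrix.smul_mul]
    exact Submodule.smul_mem _ _ hx

end

end Pool.Agent.H71.Wild
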