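import Mathlib
import Pool.Agent.H71.WildD

set_option autoImplicit false
set_option linter.unusedSectionVars false
set_option linter.unusedSimpArgs false

namespace Pool.Agent.H71.Wild

open Matrix

variable {Φ : Type*} [Field Φ] {n : ℕ}

/-- `U` is totally isotropic for the form `∑ i, y i ^ 2`. -/
def TotIso (U : Submodule Φ (Fin n → Φ)) : Prop := ∀ u ∈ U, ∀ v ∈ U, u ⬝ᵥ v = 0

/-- reindexing of frames -/
def Frame.comp {H H' : Type*} [DecidableEq H] [DecidableEq H'] (F : Frame Φ n H)
    (e : H' → H) (he : Function.Injective e) : Frame Φ n H' where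
  u h := F.u (e h)
  w h := F.w (e h)
  uu i j := F.uu _ _
  ww i j := F.ww _ _
  uw i j := by rw [F.uw]; simp [he.eq_iff]

theorem Frame.Full.comp {H H' : Type*} [DecidableEq H] [DecidableEq H'] {F : Frame Φ n H}
    (hF : F.Full) (e : H' ≃ H) : (F.comp e e.injective).Full := by
  intro d h1 h2 h3
  refine hF d (fun h => ?_) (fun h => ?_) h3
  · have := h1 (e.symm h)
    simpa [Frame.comp] using this
  · have := h2 (e.symm h)
    simpa [Frame.comp] using this

theorem Frame.card_le {H : Type*} [DecidableEq H] [Fintype H] (F : Frame Φ n H) :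
    Fintype.card H ≤ n := by
  have hli : LinearIndependent Φ F.w := by
    rw [Fintype.linearIndependent_iff]
    intro g hg k
    have := congrArg (fun z => F.u k ⬝ᵥ z) hg
    simpa [dotProduct_sum, dotProduct_smul, F.uw] using this
  have := hli.fintype_card_le_finrank
  simpa using this

/-- adding a hyperbolic pair -/
theorem Frame.extend (h2 : (2 : Φ) ≠ 0) {H : Type*} [DecidableEq H] [Fintype H] (F : Frame Φ n H)
    (hF : ¬ F.Full) : Nonempty (Frame Φ n (Option H)) := by
  unfold Frame.Full at hF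
  push Not at hF
  obtain ⟨d, hdu, hdw, hdd, hd0⟩ := hF
  obtain ⟨i, hi⟩ : ∃ i, d i ≠ 0 := by
    by_contra hcon
    push Not at hcon
    exact hd0 (funext hcon)
  let v : Fin n → Φ := Pi.single i (d i)⁻¹
  have hdv : d ⬝ᵥ v = 1 := by simp [v, hi]
  let v1 : Fin n → Φ := v - ∑ h, ((F.u h ⬝ᵥ v) • F.w h + (F.w h ⬝ᵥ v) • F.u h)
  have hdu' : ∀ h, d ⬝ᵥ F.u h = 0 := fun h => by rw [dotProduct_comm, hdu]
  have hdw' : ∀ h, d ⬝ᵥ F.w h = 0 := fun h => by rw [dotProduct_comm, hdw]
  have hdv1 : d ⬝ᵥ v1 = 1 := by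
    simp [v1, dotProduct_sub, dotProduct_sum, dotProduct_add, dotProduct_smul, hdu', hdw', hdv]
  have huv1 : ∀ h, F.u h ⬝ᵥ v1 = 0 := by
    intro h
    simp [v1, dotProduct_sub, dotProduct_sum, dotProduct_add, dotProduct_smul, F.uw, F.uu]
  have hwv1 : ∀ h, F.w h ⬝ᵥ v1 = 0 := by
    intro h
    simp [v1, dotProduct_sub, dotProduct_sum, dotProduct_add, dotProduct_smul, F.wu, F.ww]
  let v2 : Fin n → Φ := v1 - ((2 : Φ)⁻¹ * (v1 ⬝ᵥ v1)) • d
  have hdv2 : d ⬝ᵥ v2 = 1 := by simp [v2, dotProduct_sub, dotProduct_smul, hdd, hdv1]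
  have huv2 : ∀ h, F.u h ⬝ᵥ v2 = 0 := by
    intro h
    simp [v2, dotProduct_sub, dotProduct_smul, hdu, huv1]
  have hwv2 : ∀ h, F.w h ⬝ᵥ v2 = 0 := by
    intro h
    simp [v2, dotProduct_sub, dotProduct_smul, hdw, hwv1]
  have hv2 : v2 ⬝ᵥ v2 = 0 := by
    have h1d : v1 ⬝ᵥ d = 1 := by rw [dotProduct_comm, hdv1]
    simp only [v2, dotProduct_sub, sub_dotProduct, smul_dotProduct, dotProduct_smul, hdd, hdv1, h1d,
      smul_eq_mul, mul_one, mul_zero, sub_zero]
    field_simp
    ring
  refine ⟨⟨fun o => o.elim d F.u, fun o => o.elim v2 F.w, ?_, ?_, ?_⟩⟩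
  · rintro (_ | i) (_ | j)
    · exact hdd
    · exact hdu' j
    · exact hdu i
    · exact F.uu i j
  · rintro (_ | i) (_ | j)
    · exact hv2
    · change v2 ⬝ᵥ F.w j = 0
      rw [dotProduct_comm, hwv2]
    · exact hwv2 i
    · exact F.ww i j
  · rintro (_ | i) (_ | j)
    · simpa using hdv2
    · simpa using hdw' j
    · simpa using huv2 i
    · simpa using F.uw i j

theorem Frame.exists_full (h2 : (2 : Φ) ≠ 0) {m : ℕ} (F : Frame Φ n (Fin m)) :
    ∃ k, m ≤ k ∧ ∃ F' : Frame Φ n (Fin k), F'.Full := by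
  classical
  by_contra hcon
  push Not at hcon
  have key : ∀ t, Nonempty (Frame Φ n (Fin (m + t))) := by
    intro t
    induction t with
    | zero => exact ⟨F⟩
    | succ t ih =>
      obtain ⟨F1⟩ := ih
      obtain ⟨F2⟩ := F1.extend h2 (hcon _ (Nat.le_add_right _ _) F1)
      have e : Fin (m + (t + 1)) ≃ Option (Fin (m + t)) :=
        Fintype.equivOfCardEq (by simp; ring)
      exact ⟨F2.comp e e.injective⟩
  obtain ⟨F3⟩ := key (n + 1)
  have := F3.card_le
  rw [Fintype.card_fin] at this
  omega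

/-- a totally isotropic subspace gives a hyperbolic system -/
theorem frame_of_totIso (h2 : (2 : Φ) ≠ 0) {T : Submodule Φ (Fin n → Φ)} (hT : TotIso T) {m : ℕ}
    (hm : m ≤ Module.finrank Φ T) : Nonempty (Frame Φ n (Fin m)) := by
  classical
  let b := Module.finBasis Φ T
  let t : Fin (Module.finrank Φ T) → Fin n → Φ := fun i => (b i : Fin n → Φ)
  have hli : LinearIndependent Φ t := b.linearIndependent.map' T.subtype (Submodule.ker_subtype T)
  have htt : ∀ i j, t i ⬝ᵥ t j = 0 := fun i j => hT _ (b i).2 _ (b j).2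
  let A : Matrix (Fin (Module.finrank Φ T)) (Fin n) Φ := Matrix.of t
  have hA : Function.Surjective A.mulVecLin := by
    have hr : A.rank = Module.finrank Φ T := by
      have : LinearIndependent Φ A.row := hli
      rw [this.rank_matrix, Fintype.card_fin]
    rw [← LinearMap.range_eq_top]
    apply Submodule.eq_top_of_finrank_eq
    rw [Module.finrank_fintype_fun_eq_card, Fintype.card_fin]
    exact hr
  have hv : ∀ j, ∃ v : Fin n → Φ, ∀ i, t i ⬝ᵥ v = if i = j then 1 else 0 := by
    intro j
    obtain ⟨v, hv⟩ := hA (Pi.single j 1)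
    refine ⟨v, fun i => ?_⟩
    have := congrFun hv i
    rw [Pi.single_apply] at this
    exact this
  choose v hv using hv
  have hvt : ∀ i j, v j ⬝ᵥ t i = if i = j then 1 else 0 := fun i j => by
    rw [dotProduct_comm, hv]
  let w : Fin (Module.finrank Φ T) → Fin n → Φ := fun j =>
    v j - ∑ i, ((2 : Φ)⁻¹ * (v j ⬝ᵥ v i)) • t i
  have F : Frame Φ n (Fin (Module.finrank Φ T)) := by
    refine ⟨t, w, htt, fun i j => ?_, fun i j => ?_⟩
    · simp only [w, dotProduct_sub, sub_dotProduct, sum_dotProduct, dotProduct_sum, smul_dotProduct,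
        dotProduct_smul, htt, hv, hvt, smul_eq_mul, mul_zero, Finset.sum_const_zero, sub_zero,
        mul_ite, mul_one, Finset.sum_ite_eq, Finset.sum_ite_eq', Finset.mem_univ, if_true]
      rw [dotProduct_comm (v j) (v i)]
      field_simp
      ring
    · simp [w, dotProduct_sub, dotProduct_sum, dotProduct_smul, htt, hv]
  exact ⟨F.comp (Fin.castLE hm) (Fin.castLE_injective hm)⟩

/-- if `-1` is a sum of `s` squares, then `Φ ^ n`, `n ≥ (s + 1) m`, has a totally isotropic
subspace of dimension `m` -/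
theorem exists_totIso {s : ℕ} (a : Fin s → Φ) (ha : ∑ i, a i ^ 2 = -1) {m n : ℕ}
    (h : (s + 1) * m ≤ n) :
    ∃ T : Submodule Φ (Fin n → Φ), TotIso T ∧ Module.finrank Φ T = m := by
  classical
  let e : Fin m × Fin (s + 1) → Fin n := fun p =>
    Fin.castLE (by rw [mul_comm]; exact h) (finProdFinEquiv p)
  have he : Function.Injective e :=
    (Fin.castLE_injective _).comp finProdFinEquiv.injective
  let c : Fin (s + 1) → Φ := Fin.cons 1 a
  have hc : ∑ i, c i * c i = 0 := by
    rw [Fin.sum_univ_succ]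
    simp only [c, Fin.cons_zero, Fin.cons_succ]
    rw [← add_neg_cancel (1 : Φ), ← ha]
    simp [pow_two]
  let z : Fin m → Fin n → Φ := fun t => ∑ i, Pi.single (e (t, i)) (c i)
  have hz : ∀ t t', z t ⬝ᵥ z t' = 0 := by
    intro t t'
    by_cases htt : t = t'
    · subst htt
      simp only [z, sum_dotProduct, dotProduct_sum, single_dotProduct]
      rw [← hc]
      refine Finset.sum_congr rfl fun i _ => ?_
      rw [Finset.sum_eq_single i]
      · simp
      · intro i' _ hi'
        have : e (t, i') ≠ e (t, i) := fun h => hi' (by simpa using (he h))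
        simp [Pi.single_eq_of_ne this]
      · simp
    · simp only [z, sum_dotProduct, dotProduct_sum, single_dotProduct]
      refine Finset.sum_eq_zero fun i _ => Finset.sum_eq_zero fun i' _ => ?_
      have : e (t, i') ≠ e (t', i) := fun h => htt (by simpa using congrArg Prod.fst (he h))
      simp [Pi.single_eq_of_ne this]
  have hz0 : ∀ t t', z t (e (t', 0)) = if t = t' then 1 else 0 := by
    intro t t'
    simp only [z, Finset.sum_apply, Pi.single_apply]
    rw [Finset.sum_eq_single 0]
    · by_cases htt : t = t'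
      · subst htt
        simp [c]
      · have : e (t', 0) ≠ e (t, 0) := fun h => htt (by simpa using (congrArg Prod.fst (he h)).symm)
        simp [this, htt]
    · intro i' _ hi'
      have : e (t', 0) ≠ e (t, i') := fun h => hi' (by simpa using (congrArg Prod.snd (he h)).symm)
      simp [this]
    · simp
  have hli : LinearIndependent Φ z := by
    rw [Fintype.linearIndependent_iff]
    intro g hg k
    have := congrFun hg (e (k, 0))
    simpa [Finset.sum_apply, hz0] using this
  refine ⟨Submodule.span Φ (Set.range z), ?_, ?_⟩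
  · intro x hx y hy
    induction hx using Submodule.span_induction with
    | mem x hx =>
      obtain ⟨t, rfl⟩ := hx
      induction hy using Submodule.span_induction with
      | mem y hy =>
        obtain ⟨t', rfl⟩ := hy
        exact hz t t'
      | zero => exact dotProduct_zero _
      | add p q _ _ hp hq => rw [dotProduct_add, hp, hq, add_zero]
      | smul c p _ hp => rw [dotProduct_smul, hp, smul_zero]
    | zero => exact zero_dotProduct _
    | add p q _ _ hp hq => rw [add_dotProduct, hp, hq, add_zero]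
    | smul c p _ hp => rw [smul_dotProduct, hp, smul_zero]
  · rw [finrank_span_eq_card hli, Fintype.card_fin]

/-- if `-1` is not a sum of squares there are no nonzero spaces -/
theorem real_case (h : ¬ ∃ (s : ℕ) (a : Fin s → Φ), ∑ i, a i ^ 2 = -1) {ε : Φ}
    {V : Submodule Φ (Matrix (Fin n) (Fin n) Φ)} (hV : IsAC ε V) : V = ⊥ := by
  classical
  rw [Submodule.eq_bot_iff]
  intro x hx
  by_contra hx0
  obtain ⟨i, j, hij⟩ : ∃ i j, x i j ≠ 0 := by
    by_contra hcon
    push Not at hcon
    exact hx0 (Matrix.ext hcon)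
  have h1 : xᵀ * x = 0 := by rw [(hV x hx).2, Matrix.smul_mul, (hV x hx).1, smul_zero]
  have h2 : ∑ k, x k j * x k j = 0 := by
    have := congrFun (congrFun h1 j) j
    simpa [Matrix.mul_apply] using this
  apply h
  have hn : ∃ n', n = n' + 1 := ⟨n - 1, by have := i.2; omega⟩
  obtain ⟨n', rfl⟩ := hn
  refine ⟨n', fun k => x (i.succAbove k) j / x i j, ?_⟩
  rw [Fin.sum_univ_succAbove _ i] at h2
  have h3 : ∑ k, (x (i.succAbove k) j / x i j) ^ 2 =
      (∑ k, x (i.succAbove k) j * x (i.succAbove k) j) / (x i j * x i j) := by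
    rw [Finset.sum_div]
    exact Finset.sum_congr rfl fun k _ => by rw [div_pow, pow_two, pow_two]
  rw [h3, div_eq_iff (mul_ne_zero hij hij)]
  linear_combination h2

end Pool.Agent.H71.Wild
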