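import Mathlib
import Pool.Agent.H71.WildE

set_option autoImplicit false
set_option linter.unusedSectionVars false
set_option linter.unusedSimpArgs false

namespace Pool.Agent.H71.Wild

open Matrix

variable {Φ : Type*} [Field Φ] {n : ℕ}

/-! ### constant dimension -/

section

variable {J : Type*} [Fintype J] [DecidableEq J] {I : Type*} [Fintype I] [DecidableEq I]
  {K : I → Type*} [∀ i, Fintype (K i)] [∀ i, DecidableEq (K i)]

variable (F : Frame Φ n (J ⊕ (Σ i, K i))) (S : SubData Φ J K) (ε : Φ)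

/-- the parametrisation as a linear map -/
def XL : (Matrix J J Φ × (I → Φ) × (∀ i, Matrix (K i) (K i) Φ)) →ₗ[Φ] Matrix (Fin n) (Fin n) Φ where
  toFun p := X F S ε p.1 p.2.1 p.2.2
  map_add' _ _ := X_add ..
  map_smul' _ _ := X_smul ..

/-- the space of the parameters -/
def par (J : Type*) [Fintype J] [DecidableEq J] {I : Type*} [Fintype I] [DecidableEq I]
    (K : I → Type*) [∀ i, Fintype (K i)] [∀ i, DecidableEq (K i)] (ε : Φ) :
    Submodule Φ (Matrix J J Φ × (I → Φ) × (∀ i, Matrix (K i) (K i) Φ)) where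
  carrier := {p | p.1ᵀ = ε • p.1 ∧ ∀ i, (p.2.2 i)ᵀ = -p.2.2 i}
  add_mem' := by
    rintro x y ⟨h1, h2⟩ ⟨h3, h4⟩
    refine ⟨?_, fun i => ?_⟩
    · rw [Prod.fst_add, transpose_add, h1, h3, smul_add]
    · rw [Prod.snd_add, Prod.snd_add, Pi.add_apply, transpose_add, h2, h4, neg_add]
  zero_mem' := by
    refine ⟨?_, fun i => ?_⟩
    · simp
    · simp
  smul_mem' := by
    rintro c x ⟨h1, h2⟩
    refine ⟨?_, fun i => ?_⟩
    · rw [Prod.smul_fst, transpose_smul, h1, smul_comm]
    · rw [Prod.smul_snd, Prod.smul_snd, Pi.smul_apply, transpose_smul, h2, smul_neg]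

theorem XL_inj (hε : ε * ε = 1) [∀ i, Nonempty (K i)] : Function.Injective (XL F S ε) := by
  have hε0 : ε ≠ 0 := by
    rintro rfl
    simp at hε
  rw [← LinearMap.ker_eq_bot, LinearMap.ker_eq_bot']
  rintro ⟨l, a, r⟩ h
  change X F S ε l a r = 0 at h
  have h1 : a = 0 := by
    funext i
    obtain ⟨k⟩ : Nonempty (K i) := inferInstance
    have h3 := congrArg (fun z => D F S i k ⬝ᵥ (z *ᵥ E' F i k)) h
    simpa [X_E', dotProduct_smul, DG, hε0] using h3
  have h2 : r = 0 := by
    funext i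
    ext k k'
    have h3 := congrArg (fun z => D F S i k' ⬝ᵥ (z *ᵥ E F i k)) h
    simpa [X_E, dotProduct_smul, dotProduct_sum, DG, hε0] using h3
  have h3 : l = 0 := by
    ext j j'
    have h4 := congrArg (fun z => U F j ⬝ᵥ (z *ᵥ U F j')) h
    rw [h1, h2] at h4
    simpa [X_mulVec, dotProduct_sum, dotProduct_smul, WU, UW, GU] using h4
  rw [h1, h2, h3]
  rfl

theorem V_eq_map : V F S ε = (par J K ε).map (XL F S ε) := by
  ext x
  constructor
  · rintro ⟨l, a, r, hl, hr, rfl⟩
    exact ⟨(l, a, r), ⟨hl, hr⟩, rfl⟩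
  · rintro ⟨⟨l, a, r⟩, ⟨hl, hr⟩, rfl⟩
    exact ⟨l, a, r, hl, hr, rfl⟩

theorem finrank_V (hε : ε * ε = 1) [∀ i, Nonempty (K i)] :
    Module.finrank Φ (V F S ε) = Module.finrank Φ (par J K ε) := by
  rw [V_eq_map]
  exact ((Submodule.equivMapOfInjective _ (XL_inj F S ε hε) _).finrank_eq).symm

end

/-! ### the systems of subspaces given by two matrices -/

/-- index types -/
abbrev KK (N : ℕ) (i : Fin 5) : Type := Fin N ⊕ Fin (7 + i.val)
/-- index types -/
abbrev JJ (N k : ℕ) : Type := (Fin N ⊕ Fin N) ⊕ ((Σ i : Fin 5, Fin (7 + i.val)) ⊕ Fin k)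

section

variable {N k : ℕ}

/-- coefficients of the first component -/
def al (i : Fin 5) : Φ := if i = 1 then 0 else 1

/-- coefficients of the second component -/
def MM (P Q : Matrix (Fin N) (Fin N) Φ) : Fin 5 → Matrix (Fin N) (Fin N) Φ := ![0, 1, 1, P, Q]

/-- the bases of the five subspaces -/
def gam (P Q : Matrix (Fin N) (Fin N) Φ) (i : Fin 5) : KK N i → JJ N k → Φ
  | Sum.inl a, Sum.inl (Sum.inl l) => if l = a then al i else 0
  | Sum.inl a, Sum.inl (Sum.inr l) => MM P Q i l a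
  | Sum.inl _, Sum.inr _ => 0
  | Sum.inr _, Sum.inl _ => 0
  | Sum.inr c, Sum.inr (Sum.inl s) => if s = ⟨i, c⟩ then 1 else 0
  | Sum.inr _, Sum.inr (Sum.inr _) => 0

/-- dual systems -/
def the (i : Fin 5) : KK N i → JJ N k → Φ
  | Sum.inl a, Sum.inl (Sum.inl l) => if l = a ∧ i ≠ 1 then 1 else 0
  | Sum.inl a, Sum.inl (Sum.inr l) => if l = a ∧ i = 1 then 1 else 0
  | Sum.inl _, Sum.inr _ => 0
  | Sum.inr _, Sum.inl _ => 0
  | Sum.inr c, Sum.inr (Sum.inl s) => if s = ⟨i, c⟩ then 1 else 0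
  | Sum.inr _, Sum.inr (Sum.inr _) => 0

/-- the system of subspaces -/
def SD (P Q : Matrix (Fin N) (Fin N) Φ) (k : ℕ) : SubData Φ (JJ N k) (KK N) where
  Γ := gam P Q
  Θ := the
  dual := by
    rintro i (a | c) (b | c')
    · rw [Fintype.sum_sum_type, Fintype.sum_sum_type]
      simp only [gam, the, mul_zero, Finset.sum_const_zero, add_zero, Sum.inl.injEq]
      by_cases hi : i = 1
      · subst hi
        simp [al, MM, Matrix.one_apply, eq_comm]
      · simp [hi, al, eq_comm]
    · rw [Fintype.sum_sum_type, Fintype.sum_sum_type, Fintype.sum_sum_type]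
      simp [gam, the]
    · rw [Fintype.sum_sum_type, Fintype.sum_sum_type, Fintype.sum_sum_type]
      simp [gam, the]
    · rw [Fintype.sum_sum_type, Fintype.sum_sum_type, Fintype.sum_sum_type]
      simp only [gam, the, mul_zero, Finset.sum_const_zero, add_zero, Sum.inr.injEq, zero_add]
      by_cases hc : c = c'
      · subst hc
        simp
      · rw [if_neg hc]
        refine Finset.sum_eq_zero fun s _ => ?_
        by_cases h1 : s = ⟨i, c⟩
        · subst h1
          simp [hc]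
        · simp [h1]

variable (F : Frame Φ n (JJ N k ⊕ (Σ i, KK N i))) (P Q : Matrix (Fin N) (Fin N) Φ)

/-- first coordinates -/
def U1 (l : Fin N) : Fin n → Φ := U F (Sum.inl (Sum.inl l))
/-- second coordinates -/
def U2 (l : Fin N) : Fin n → Φ := U F (Sum.inl (Sum.inr l))
/-- auxiliary coordinates -/
def UC (i : Fin 5) (c : Fin (7 + i.val)) : Fin n → Φ := U F (Sum.inr (Sum.inl ⟨i, c⟩))

theorem D_inl_ne {i : Fin 5} (hi : i ≠ 1) (a : Fin N) : D F (SD P Q k) i (Sum.inl a) = U1 F a := by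
  rw [D, Fintype.sum_sum_type, Fintype.sum_sum_type, Fintype.sum_sum_type]
  simp [SD, the, hi, U1]

theorem D_inl_one (a : Fin N) : D F (SD P Q k) 1 (Sum.inl a) = U2 F a := by
  rw [D, Fintype.sum_sum_type, Fintype.sum_sum_type, Fintype.sum_sum_type]
  simp [SD, the, U2]

theorem rel1 {i : Fin 5} {v : Fin n → Φ} (hv : v ∈ A F (SD P Q k) i) (l : Fin N) :
    U1 F l ⬝ᵥ v = al i * (D F (SD P Q k) i (Sum.inl l) ⬝ᵥ v) := by
  induction hv using Submodule.span_induction with
  | mem x hx =>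
    obtain ⟨(a | c), rfl⟩ := hx
    · rw [U1, UG, DG]
      simp [SD, gam]
    · rw [U1, UG, DG]
      simp [SD, gam]
  | zero => simp
  | add x y _ _ hx hy => rw [dotProduct_add, dotProduct_add, hx, hy, mul_add]
  | smul c x _ hx =>
    rw [dotProduct_smul, dotProduct_smul, hx, smul_eq_mul, smul_eq_mul]
    ring

theorem rel2 {i : Fin 5} {v : Fin n → Φ} (hv : v ∈ A F (SD P Q k) i) (l : Fin N) :
    U2 F l ⬝ᵥ v = ∑ b, MM P Q i l b * (D F (SD P Q k) i (Sum.inl b) ⬝ᵥ v) := by
  induction hv using Submodule.span_induction with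
  | mem x hx =>
    obtain ⟨(a | c), rfl⟩ := hx
    · rw [U2, UG]
      simp [DG, SD, gam]
    · rw [U2, UG]
      simp [DG, SD, gam]
  | zero => simp
  | add x y _ _ hx hy =>
    simp only [dotProduct_add, hx, hy, mul_add, Finset.sum_add_distrib]
  | smul c x _ hx =>
    simp only [dotProduct_smul, hx, smul_eq_mul, Finset.mul_sum]
    exact Finset.sum_congr rfl fun _ _ => by ring

theorem rel3 {i i' : Fin 5} (hi : i' ≠ i) {v : Fin n → Φ} (hv : v ∈ A F (SD P Q k) i)
    (c : Fin (7 + i'.val)) : UC F i' c ⬝ᵥ v = 0 := by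
  induction hv using Submodule.span_induction with
  | mem x hx =>
    obtain ⟨(a | c), rfl⟩ := hx
    · rw [UC, UG]
      simp [SD, gam]
    · rw [UC, UG]
      simp [SD, gam, hi]
  | zero => simp
  | add x y _ _ hx hy => rw [dotProduct_add, hx, hy, add_zero]
  | smul c x _ hx => rw [dotProduct_smul, hx, smul_zero]

theorem incomp {i i' : Fin 5} (h : A F (SD P Q k) i' ≤ A F (SD P Q k) i) : i' = i := by
  by_contra hne
  have h1 : G F (SD P Q k) i' (Sum.inr ⟨0, by omega⟩) ∈ A F (SD P Q k) i :=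
    h (Submodule.subset_span ⟨_, rfl⟩)
  have h2 := rel3 F P Q hne h1 ⟨0, by omega⟩
  rw [UC, UG] at h2
  simp [SD, gam] at h2

/-- elements of the subspaces in coordinates -/
theorem expand {i : Fin 5} {v : Fin n → Φ} (hv : v ∈ A F (SD P Q k) i) :
    v = ∑ a, (D F (SD P Q k) i (Sum.inl a) ⬝ᵥ v) • G F (SD P Q k) i (Sum.inl a) +
      ∑ c, (UC F i c ⬝ᵥ v) • G F (SD P Q k) i (Sum.inr c) := by
  induction hv using Submodule.span_induction with
  | mem x hx =>
    obtain ⟨(a | c), rfl⟩ := hx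
    · simp only [DG, UC, UG]
      simp [SD, gam]
    · simp only [DG, UC, UG]
      simp [SD, gam]
  | zero => simp
  | add x y _ _ hx hy =>
    conv_lhs => rw [hx, hy]
    simp only [dotProduct_add, add_smul, Finset.sum_add_distrib]
    abel
  | smul c x _ hx =>
    conv_lhs => rw [hx]
    simp only [dotProduct_smul, smul_eq_mul, mul_smul, smul_add, Finset.smul_sum]

end

end Pool.Agent.H71.Wild
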