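import Mathlib
import Pool.Agent.H71.WildF

set_option autoImplicit false
set_option linter.unusedSectionVars false
set_option linter.unusedSimpArgs false

namespace Pool.Agent.H71.Wild

open Matrix

variable {Φ : Type*} [Field Φ] {n : ℕ}

section

variable {N k : ℕ}

variable (F : Frame Φ n (JJ N k ⊕ (Σ i, KK N i))) (P Q P' Q' : Matrix (Fin N) (Fin N) Φ) (ε : Φ)

theorem MM0 : MM P Q 0 = 0 := rfl
theorem MM1 : MM P Q 1 = 1 := rfl
theorem MM2 : MM P Q 2 = 1 := rfl
theorem MM3 : MM P Q 3 = P := rfl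
theorem MM4 : MM P Q 4 = Q := rfl

instance (i : Fin 5) : Nontrivial (KK N i) :=
  ⟨Sum.inr ⟨0, by omega⟩, Sum.inr ⟨1, by omega⟩, by simp⟩

instance : Nontrivial (JJ N k) :=
  ⟨Sum.inr (Sum.inl ⟨0, ⟨0, by simp⟩⟩), Sum.inr (Sum.inl ⟨0, ⟨1, by simp⟩⟩), by simp⟩

theorem hG_of {h : Matrix (Fin N) (Fin N) Φ} (hP : h * P = P' * h) (hQ : h * Q = Q' * h)
    (i : Fin 5) (a : KK N i) (j' : JJ N k) :
    ∑ j, (SD P Q k).Γ i a j * (Matrix.fromBlocks (Matrix.fromBlocks h 0 0 h) 0 0 1 :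
      Matrix (JJ N k) (JJ N k) Φ) j' j =
    ∑ a', (Matrix.fromBlocks h 0 0 1 : Matrix (KK N i) (KK N i) Φ) a' a *
      (SD P' Q' k).Γ i a' j' := by
  have hM : h * MM P Q i = MM P' Q' i * h := by
    fin_cases i <;> simp [MM, hP, hQ]
  rcases a with a | c
  · rcases j' with (l | l) | s
    · simp only [Fintype.sum_sum_type]
      simp [SD, gam, mul_comm]
    · simp only [Fintype.sum_sum_type]
      have := congrFun (congrFun hM l) a
      simp only [Matrix.mul_apply] at this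
      simp only [SD, gam, Matrix.fromBlocks_apply₁₁, Matrix.fromBlocks_apply₁₂,
        Matrix.fromBlocks_apply₂₁, Matrix.fromBlocks_apply₂₂, Matrix.zero_apply, mul_zero,
        zero_mul, Finset.sum_const_zero, add_zero, zero_add]
      rw [Finset.sum_congr rfl (fun (x : Fin N) _ => mul_comm (MM P Q i x a) (h l x)), this]
      exact Finset.sum_congr rfl fun _ _ => mul_comm _ _
    · simp only [Fintype.sum_sum_type]
      rcases s with s | s <;> simp [SD, gam, mul_comm]
  · rcases j' with (l | l) | s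
    · simp only [Fintype.sum_sum_type]
      simp [SD, gam, mul_comm]
    · simp only [Fintype.sum_sum_type]
      simp [SD, gam, mul_comm]
    · simp only [Fintype.sum_sum_type]
      rcases s with s | s
      · simp only [SD, gam, Matrix.fromBlocks_apply₁₁, Matrix.fromBlocks_apply₁₂,
          Matrix.fromBlocks_apply₂₁, Matrix.fromBlocks_apply₂₂, Matrix.zero_apply, mul_zero,
          zero_mul, Finset.sum_const_zero, add_zero, zero_add, Matrix.one_apply, Sum.inr.injEq,
          Sum.inl.injEq, reduceCtorEq, if_false]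
        rw [Finset.sum_eq_single s, Finset.sum_eq_single c]
        · simp
        · intro b _ hb
          simp [hb]
        · simp
        · intro b _ hb
          simp [Ne.symm hb]
        · simp
      · simp [SD, gam, Matrix.one_apply]

/-- similar pairs give equivalent spaces -/
theorem equivt_of_similar (h2 : (2 : Φ) ≠ 0) (hε : ε * ε = 1) (h : (Matrix (Fin N) (Fin N) Φ)ˣ)
    (hP : h.val * P * h⁻¹.val = P') (hQ : h.val * Q * h⁻¹.val = Q') :
    Equivt (V F (SD P Q k) ε) (V F (SD P' Q' k) ε) := by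
  have hP1 : (h : Matrix (Fin N) (Fin N) Φ) * P = P' * h := by
    rw [← hP, Matrix.mul_assoc, Units.inv_mul, Matrix.mul_one]
  have hQ1 : (h : Matrix (Fin N) (Fin N) Φ) * Q = Q' * h := by
    rw [← hQ, Matrix.mul_assoc, Units.inv_mul, Matrix.mul_one]
  have hP2 : (h⁻¹ : (Matrix (Fin N) (Fin N) Φ)ˣ).val * P' = P * (h⁻¹ : (Matrix (Fin N) (Fin N) Φ)ˣ).val := by
    rw [← hP, ← Matrix.mul_assoc, ← Matrix.mul_assoc, Units.inv_mul, Matrix.one_mul]
  have hQ2 : (h⁻¹ : (Matrix (Fin N) (Fin N) Φ)ˣ).val * Q' = Q * (h⁻¹ : (Matrix (Fin N) (Fin N) Φ)ˣ).val := by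
    rw [← hQ, ← Matrix.mul_assoc, ← Matrix.mul_assoc, Units.inv_mul, Matrix.one_mul]
  set AJ : Matrix (JJ N k) (JJ N k) Φ :=
    Matrix.fromBlocks (Matrix.fromBlocks (h : Matrix (Fin N) (Fin N) Φ) 0 0 h) 0 0 1 with hAJ
  set BJ : Matrix (JJ N k) (JJ N k) Φ :=
    Matrix.fromBlocks (Matrix.fromBlocks (h⁻¹ : (Matrix (Fin N) (Fin N) Φ)ˣ).val 0 0
      (h⁻¹ : (Matrix (Fin N) (Fin N) Φ)ˣ).val) 0 0 1 with hBJ
  let AK : ∀ i : Fin 5, Matrix (KK N i) (KK N i) Φ := fun i =>
    Matrix.fromBlocks (h : Matrix (Fin N) (Fin N) Φ) 0 0 1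
  let BK : ∀ i : Fin 5, Matrix (KK N i) (KK N i) Φ := fun i =>
    Matrix.fromBlocks (h⁻¹ : (Matrix (Fin N) (Fin N) Φ)ˣ).val 0 0 1
  have hABJ : AJ * BJ = 1 := by
    rw [hAJ, hBJ, Matrix.fromBlocks_multiply, Matrix.fromBlocks_multiply]
    simp only [Matrix.mul_zero, Matrix.zero_mul, add_zero, zero_add, Matrix.mul_one,
      Units.mul_inv, Matrix.fromBlocks_one]
  have hABK : ∀ i, AK i * BK i = 1 := by
    intro i
    simp only [AK, BK, Matrix.fromBlocks_multiply, Matrix.mul_zero, Matrix.zero_mul, add_zero,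
      zero_add, Matrix.mul_one, Units.mul_inv, Units.inv_mul, Matrix.fromBlocks_one]
  have hBAK : ∀ i, BK i * AK i = 1 := by
    intro i
    simp only [AK, BK, Matrix.fromBlocks_multiply, Matrix.mul_zero, Matrix.zero_mul, add_zero,
      zero_add, Matrix.mul_one, Units.mul_inv, Units.inv_mul, Matrix.fromBlocks_one]
  have hAB : blk AJ AK * blk BJ BK = 1 := by
    rw [blk_mul, hABJ]
    simp only [hABK]
    exact blk_one
  set q := isom F (blk AJ AK) (blk BJ BK) with hq
  have hqq : q * qᵀ = 1 := isom_orth F hAB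
  have hqT : qᵀ = isom F (blk BJ BK) (blk AJ AK) := by
    rw [hq, isom, transpose_add, transpose_add, transpose_one, transpose_mul, transpose_mul,
      transpose_mul, transpose_mul, transpose_transpose, transpose_transpose, transpose_sub,
      transpose_sub, transpose_transpose, transpose_one, isom, ← Matrix.mul_assoc,
      ← Matrix.mul_assoc]
    abel
  refine ⟨q, hqq, fun x => ⟨fun hx => ⟨qᵀ * x * q, ?_, ?_⟩, ?_⟩⟩
  · have h3 := isom_V F (SD P' Q' k) ε (SD P Q k) h2 hε (AJ := BJ) (BJ := AJ) (AK := BK)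
      (BK := AK) hBAK (fun i a j' => hG_of P' Q' P Q hP2 hQ2 i a j') hx
    rw [← hqT, transpose_transpose] at h3
    exact h3
  · rw [Matrix.mul_assoc qᵀ, ← Matrix.mul_assoc q, hqq, Matrix.one_mul, Matrix.mul_assoc, hqq,
      Matrix.mul_one]
  · rintro ⟨y, hy, rfl⟩
    exact isom_V F (SD P Q k) ε (SD P' Q' k) h2 hε hABK
      (fun i a j' => hG_of P Q P' Q' hP1 hQ1 i a j') hy

/-- equivalent spaces come from similar pairs -/
theorem similar_of_equivt (hε : ε * ε = 1)
    (hE : Equivt (V F (SD P Q k) ε) (V F (SD P' Q' k) ε)) :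
    ∃ h : (Matrix (Fin N) (Fin N) Φ)ˣ, h.val * P * h⁻¹.val = P' ∧ h.val * Q * h⁻¹.val = Q' := by
  classical
  obtain ⟨q, hqq, hV⟩ := hE
  have hq : qᵀ * q = 1 := mul_eq_one_comm.mp hqq
  have h1 : ∀ x ∈ V F (SD P Q k) ε, q * x * qᵀ ∈ V F (SD P' Q' k) ε := fun x hx =>
    (hV _).mpr ⟨x, hx, rfl⟩
  have h2 : ∀ y ∈ V F (SD P' Q' k) ε, qᵀ * y * q ∈ V F (SD P Q k) ε := by
    intro y hy
    obtain ⟨x, hx, rfl⟩ := (hV _).mp hy
    have : qᵀ * (q * x * qᵀ) * q = x := by
      simp only [← Matrix.mul_assoc]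
      rw [hq, Matrix.one_mul, Matrix.mul_assoc, hq, Matrix.mul_one]
    rw [this]
    exact hx
  have hA : ∀ i, ∀ v ∈ A F (SD P Q k) i, q *ᵥ v ∈ A F (SD P' Q' k) i := by
    intro i v hv
    have := A_eq F (SD P Q k) ε (SD P' Q' k) hε hq h1 h2
      (fun i => by
        rw [Fintype.card_fin, Fintype.card_sum, Fintype.card_fin, Fintype.card_fin]
        omega)
      (fun i i' h => by
        rw [Fintype.card_sum, Fintype.card_fin, Fintype.card_fin, Fintype.card_sum,
          Fintype.card_fin, Fintype.card_fin] at h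
        exact Fin.ext (by omega))
      (fun i i' h => incomp F P Q h) i
    rw [this]
    exact ⟨v, hv, rfl⟩
  -- images of the basic vectors
  let a : Fin N → Fin n → Φ := fun l => W F (Sum.inl (Sum.inl l))
  let b : Fin N → Fin n → Φ := fun l => W F (Sum.inl (Sum.inr l))
  have hG : ∀ (P Q : Matrix (Fin N) (Fin N) Φ) (i : Fin 5) (l : Fin N),
      G F (SD P Q k) i (Sum.inl l) = al (Φ := Φ) i • a l + ∑ m, MM P Q i m l • b m := by
    intro P Q i l
    rw [G, Fintype.sum_sum_type, Fintype.sum_sum_type, Fintype.sum_sum_type]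
    simp [SD, gam, a, b]
  have hGA : ∀ i l, q *ᵥ (al (Φ := Φ) i • a l + ∑ m, MM P Q i m l • b m) ∈
      A F (SD P' Q' k) i := by
    intro i l
    rw [← hG]
    exact hA i _ (Submodule.subset_span ⟨_, rfl⟩)
  have hGA0 : ∀ l, q *ᵥ a l ∈ A F (SD P' Q' k) 0 := by
    intro l
    have := hGA 0 l
    simpa [al, MM0] using this
  have hGA1 : ∀ l, q *ᵥ b l ∈ A F (SD P' Q' k) 1 := by
    intro l
    have := hGA 1 l
    simpa [al, MM0, MM1, MM2, MM3, MM4, Matrix.one_apply] using this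
  have hGA2 : ∀ l, q *ᵥ a l + q *ᵥ b l ∈ A F (SD P' Q' k) 2 := by
    intro l
    have := hGA 2 l
    simpa [al, MM0, MM1, MM2, MM3, MM4, Matrix.one_apply, mulVec_add] using this
  have hGA3 : ∀ l, q *ᵥ a l + ∑ m, P m l • (q *ᵥ b m) ∈ A F (SD P' Q' k) 3 := by
    intro l
    have := hGA 3 l
    simpa [al, MM3, MM4, mulVec_add, mulVec_sum, mulVec_smul] using this
  have hGA4 : ∀ l, q *ᵥ a l + ∑ m, Q m l • (q *ᵥ b m) ∈ A F (SD P' Q' k) 4 := by
    intro l
    have := hGA 4 l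
    simpa [al, MM3, MM4, mulVec_add, mulVec_sum, mulVec_smul] using this
  -- the matrix h
  let h : Matrix (Fin N) (Fin N) Φ := fun m l => U1 F m ⬝ᵥ (q *ᵥ a l)
  have ha1 : ∀ m l, U1 F m ⬝ᵥ (q *ᵥ a l) = h m l := fun _ _ => rfl
  have ha2 : ∀ m l, U2 F m ⬝ᵥ (q *ᵥ a l) = 0 := by
    intro m l
    rw [rel2 F P' Q' (hGA0 l)]
    simp [MM0]
  have hb1 : ∀ m l, U1 F m ⬝ᵥ (q *ᵥ b l) = 0 := by
    intro m l
    rw [rel1 F P' Q' (hGA1 l)]
    simp [al]
  have hb2 : ∀ m l, U2 F m ⬝ᵥ (q *ᵥ b l) = h m l := by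
    intro m l
    have e := rel2 F P' Q' (hGA2 l) m
    rw [dotProduct_add, ha2, zero_add] at e
    rw [e]
    simp only [D_inl_ne F P' Q' (show (2 : Fin 5) ≠ 1 by decide), dotProduct_add, hb1, add_zero,
      ha1]
    simp [MM0, MM1, MM2, MM3, MM4, Matrix.one_apply]
  have hhP : h * P = P' * h := by
    ext m l
    have e := rel2 F P' Q' (hGA3 l) m
    simp only [D_inl_ne F P' Q' (show (3 : Fin 5) ≠ 1 by decide), dotProduct_add, ha2, zero_add,
      dotProduct_sum, dotProduct_smul, hb1, hb2, ha1, smul_zero, smul_eq_mul, mul_zero,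
      Finset.sum_const_zero, add_zero] at e
    rw [Matrix.mul_apply, Matrix.mul_apply]
    rw [MM3] at e
    have e' : ∑ x, P x l * h m x = ∑ x, P' m x * h x l := e
    rw [← e']
    exact Finset.sum_congr rfl fun _ _ => mul_comm _ _
  have hhQ : h * Q = Q' * h := by
    ext m l
    have e := rel2 F P' Q' (hGA4 l) m
    simp only [D_inl_ne F P' Q' (show (4 : Fin 5) ≠ 1 by decide), dotProduct_add, ha2, zero_add,
      dotProduct_sum, dotProduct_smul, hb1, hb2, ha1, smul_zero, smul_eq_mul, mul_zero,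
      Finset.sum_const_zero, add_zero] at e
    rw [Matrix.mul_apply, Matrix.mul_apply]
    rw [MM4] at e
    have e' : ∑ x, Q x l * h m x = ∑ x, Q' m x * h x l := e
    rw [← e']
    exact Finset.sum_congr rfl fun _ _ => mul_comm _ _
  -- h is injective
  have hqa : ∀ l, q *ᵥ a l = ∑ m, h m l • a m := by
    intro l
    have e := expand F P' Q' (hGA0 l)
    have hC : ∀ c, UC F 0 c ⬝ᵥ (q *ᵥ a l) = 0 := by
      intro c
      have e2 := rel3 F P' Q' (show (0 : Fin 5) ≠ 2 by decide) (hGA2 l) c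
      rw [dotProduct_add, rel3 F P' Q' (show (0 : Fin 5) ≠ 1 by decide) (hGA1 l) c, add_zero] at e2
      exact e2
    simp only [hC, zero_smul, Finset.sum_const_zero, add_zero,
      D_inl_ne F P' Q' (show (0 : Fin 5) ≠ 1 by decide), ha1, hG] at e
    rw [e]
    simp [al, MM0]
  have hinj : Function.Injective h.mulVec := by
    intro x y hxy
    have e1 : ∀ x : Fin N → Φ, q *ᵥ (∑ l, x l • a l) = ∑ m, (h *ᵥ x) m • a m := by
      intro x
      rw [mulVec_sum]
      simp only [mulVec_smul, hqa, Finset.smul_sum, smul_smul]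
      rw [Finset.sum_comm]
      refine Finset.sum_congr rfl fun m _ => ?_
      rw [← Finset.sum_smul]
      congr 1
      simp only [mulVec, dotProduct]
      exact Finset.sum_congr rfl fun _ _ => mul_comm _ _
    have e2 : q *ᵥ (∑ l, x l • a l) = q *ᵥ (∑ l, y l • a l) := by
      rw [e1, e1]
      exact Finset.sum_congr rfl fun m _ => by rw [show h *ᵥ x = h *ᵥ y from hxy]
    have e3 : (∑ l, x l • a l) = ∑ l, y l • a l := by
      have := congrArg (fun z => qᵀ *ᵥ z) e2
      simpa [mulVec_mulVec, hq] using this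
    funext l
    have := congrArg (fun z => U1 F l ⬝ᵥ z) e3
    simpa [a, U1, dotProduct_sum, dotProduct_smul, UW] using this
  have hu : IsUnit h := Matrix.mulVec_injective_iff_isUnit.mp hinj
  obtain ⟨g, hg⟩ := hu
  refine ⟨g, ?_, ?_⟩
  · rw [hg, hhP, ← hg, Matrix.mul_assoc, Units.mul_inv, Matrix.mul_one]
  · rw [hg, hhQ, ← hg, Matrix.mul_assoc, Units.mul_inv, Matrix.mul_one]

end

end Pool.Agent.H71.Wild
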