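import Mathlib
import Pool.Agent.H71.WildG

set_option autoImplicit false
set_option linter.unusedSectionVars false
set_option linter.unusedSimpArgs false

namespace Pool.Agent.H71.Wild

open Matrix

variable {Φ : Type*} [Field Φ] {n : ℕ}

section

variable {N k : ℕ}

/-- the linear part of the coefficients -/
def lin (i : Fin 5) : KK N i → JJ N k →
    (Matrix (Fin N) (Fin N) Φ × Matrix (Fin N) (Fin N) Φ) →ₗ[Φ] Φ
  | Sum.inl a, Sum.inl (Sum.inr l) =>
    if i = 3 then Matrix.entryLinearMap Φ Φ l a ∘ₗ LinearMap.fst Φ _ _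
    else if i = 4 then Matrix.entryLinearMap Φ Φ l a ∘ₗ LinearMap.snd Φ _ _ else 0
  | _, _ => 0

theorem gam_eq (P Q : Matrix (Fin N) (Fin N) Φ) (i : Fin 5) (a : KK N i) (j : JJ N k) :
    gam P Q i a j = gam 0 0 i a j + lin i a j (P, Q) := by
  rcases a with a | c
  · rcases j with (l | l) | s
    · simp [gam, lin]
    · have hi : i = 0 ∨ i = 1 ∨ i = 2 ∨ i = 3 ∨ i = 4 := by
        revert i
        decide
      rcases hi with rfl | rfl | rfl | rfl | rfl
      · simp [gam, lin, MM0]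
      · simp [gam, lin, MM1]
      · simp [gam, lin, MM2]
      · simp [gam, lin, MM3]
      · simp [gam, lin, MM4]
    · simp [gam, lin]
  · rcases j with j | (s | s) <;> simp [gam, lin]

variable (F : Frame Φ n (JJ N k ⊕ (Σ i, KK N i))) (ε : Φ)

theorem G_eq (P Q : Matrix (Fin N) (Fin N) Φ) (i : Fin 5) (a : KK N i) :
    G F (SD P Q k) i a = G F (SD 0 0 k) i a +
      ∑ j, lin i a j (P, Q) • W F j := by
  rw [G, G, ← Finset.sum_add_distrib]
  refine Finset.sum_congr rfl fun j _ => ?_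
  rw [← add_smul]
  congr 1
  exact gam_eq P Q i a j

/-- the linear part of the general element -/
def LX (p : Matrix (JJ N k) (JJ N k) Φ × (Fin 5 → Φ) × (∀ i, Matrix (KK N i) (KK N i) Φ)) :
    (Matrix (Fin N) (Fin N) Φ × Matrix (Fin N) (Fin N) Φ) →ₗ[Φ] Matrix (Fin n) (Fin n) Φ :=
  ∑ i, (p.2.1 i • ∑ a, ∑ j, (lin i a j).smulRight (br ε (E F i a) (W F j)) +
    ∑ a, ∑ a', p.2.2 i a a' • ∑ j, (lin i a' j).smulRight (br ε (E' F i a) (W F j)))

theorem br_G_eq (P Q : Matrix (Fin N) (Fin N) Φ) (i : Fin 5) (a : KK N i) (z : Fin n → Φ) :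
    br ε z (G F (SD P Q k) i a) = br ε z (G F (SD 0 0 k) i a) +
      ∑ j, lin i a j (P, Q) • br ε z (W F j) := by
  rw [G_eq, br_add_right]
  congr 1
  rw [← brL_apply, map_sum]
  exact Finset.sum_congr rfl fun j _ => by rw [map_smul, brL_apply]

theorem XL_eq (P Q : Matrix (Fin N) (Fin N) Φ)
    (p : Matrix (JJ N k) (JJ N k) Φ × (Fin 5 → Φ) × (∀ i, Matrix (KK N i) (KK N i) Φ)) :
    XL F (SD P Q k) ε p = XL F (SD 0 0 k) ε p + LX F ε p (P, Q) := by
  change X F (SD P Q k) ε p.1 p.2.1 p.2.2 = X F (SD 0 0 k) ε p.1 p.2.1 p.2.2 + _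
  rw [X, X, add_assoc]
  congr 1
  rw [LX, LinearMap.sum_apply, ← Finset.sum_add_distrib]
  refine Finset.sum_congr rfl fun i _ => ?_
  simp only [LinearMap.add_apply, LinearMap.smul_apply, LinearMap.sum_apply,
    LinearMap.smulRight_apply, br_G_eq F ε P Q, Finset.sum_add_distrib, smul_add]
  abel

end

theorem card_aux (N k : ℕ) :
    Fintype.card (JJ N k ⊕ (Σ i, KK N i)) = 7 * N + 90 + k := by
  simp only [Fintype.card_sum, Fintype.card_fin, Fintype.card_sigma, Fin.sum_univ_five]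
  norm_num
  ring

/-- the main theorem: the pairs of matrices up to simultaneous similarity are contained in the
maximal spaces up to equivalence -/
theorem wild (h2 : (2 : Φ) ≠ 0) {ε : Φ} (hε : ε * ε = 1) (N : ℕ)
    {T : Submodule Φ (Fin n → Φ)} (hT : TotIso T) (hd : 7 * N + 90 ≤ Module.finrank Φ T) :
    ∃ (d : ℕ) (C : Fin d → Matrix (Fin n) (Fin n) Φ)
      (L : Fin d → (Matrix (Fin N) (Fin N) Φ × Matrix (Fin N) (Fin N) Φ) →ₗ[Φ]
        Matrix (Fin n) (Fin n) Φ),
      (∀ P Q, LinearIndependent Φ fun a => C a + L a (P, Q)) ∧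
      (∀ P Q, IsMaxAC ε (Submodule.span Φ (Set.range fun a => C a + L a (P, Q)))) ∧
      ∀ P Q P' Q', Equivt (Submodule.span Φ (Set.range fun a => C a + L a (P, Q)))
        (Submodule.span Φ (Set.range fun a => C a + L a (P', Q'))) ↔
        ∃ h : (Matrix (Fin N) (Fin N) Φ)ˣ, h.val * P * h⁻¹.val = P' ∧ h.val * Q * h⁻¹.val = Q' := by
  classical
  obtain ⟨F0⟩ := frame_of_totIso h2 hT hd
  obtain ⟨K, hK, F1, hF1⟩ := F0.exists_full h2
  obtain ⟨k, rfl⟩ := Nat.exists_eq_add_of_le hK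
  have e : (JJ N k ⊕ (Σ i, KK N i)) ≃ Fin (7 * N + 90 + k) :=
    Fintype.equivOfCardEq (by rw [card_aux, Fintype.card_fin])
  set F := F1.comp e e.injective with hFdef
  have hF : F.Full := hF1.comp e
  let b := Module.finBasis Φ (par (JJ N k) (KK N) ε)
  have hspan : ∀ P Q, Submodule.span Φ (Set.range fun a =>
      XL F (SD 0 0 k) ε (b a) + LX F ε (b a) (P, Q)) = V F (SD P Q k) ε := by
    intro P Q
    have e1 : (fun a => XL F (SD 0 0 k) ε (b a) + LX F ε (b a) (P, Q)) =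
        (XL F (SD P Q k) ε) ∘ (fun a => (b a : Matrix (JJ N k) (JJ N k) Φ × (Fin 5 → Φ) ×
          (∀ i, Matrix (KK N i) (KK N i) Φ))) := by
      funext a
      exact (XL_eq F ε P Q _).symm
    rw [e1, Set.range_comp, ← Submodule.map_span, V_eq_map]
    congr 1
    have e2 : (Set.range fun a => (b a : Matrix (JJ N k) (JJ N k) Φ × (Fin 5 → Φ) ×
        (∀ i, Matrix (KK N i) (KK N i) Φ))) =
        (par (JJ N k) (KK N) ε).subtype '' (Set.range b) := by
      rw [← Set.range_comp]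
      rfl
    rw [e2, ← Submodule.map_span, b.span_eq, Submodule.map_top, Submodule.range_subtype]
  refine ⟨_, fun a => XL F (SD 0 0 k) ε (b a), fun a => LX F ε (b a), fun P Q => ?_,
    fun P Q => ?_, fun P Q P' Q' => ?_⟩
  · have e1 : (fun a => XL F (SD 0 0 k) ε (b a) + LX F ε (b a) (P, Q)) =
        (XL F (SD P Q k) ε) ∘ ((par (JJ N k) (KK N) ε).subtype ∘ b) := by
      funext a
      exact (XL_eq F ε P Q _).symm
    rw [e1]
    exact (b.linearIndependent.map' _ (Submodule.ker_subtype _)).map' _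
      (LinearMap.ker_eq_bot.mpr (XL_inj F (SD P Q k) ε hε))
  · rw [hspan]
    exact V_isMax F (SD P Q k) ε h2 hε hF
  · rw [hspan, hspan]
    constructor
    · exact similar_of_equivt F P Q P' Q' ε hε
    · rintro ⟨h, hP, hQ⟩
      exact equivt_of_similar F P Q P' Q' ε h2 hε h hP hQ

end Pool.Agent.H71.Wild
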